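import Pool.Agent.KS6_9.SR.Emi2
import Pool.Graph.R_seed8.H665M.L1

set_option autoImplicit false
set_option linter.unusedSectionVars false

namespace Pool.Agent.KS6_9.SR

open Matrix Finset Bac815

section Single

variable {𝕜 : Type} [RCLike 𝕜] {m : Type} [Fintype m] [DecidableEq m]

theorem ee_det (U : unitaryGroup m 𝕜) (s : m → ℝ) :
    (ee U s : Matrix m m 𝕜).det = ((Real.exp (∑ i, s i) : ℝ) : 𝕜) := by
  have h1 : (U : Matrix m m 𝕜).det * ((U⁻¹ : unitaryGroup m 𝕜) : Matrix m m 𝕜).det = 1 := by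
    rw [← det_mul, u_mul_inv, det_one]
  rw [ee, det_mul, det_mul, De_det]
  linear_combination (((Real.exp (∑ i, s i) : ℝ) : 𝕜)) * h1

theorem norm_det_unitary (k : unitaryGroup m 𝕜) : ‖(k : Matrix m m 𝕜).det‖ = 1 := by
  have h : (k : Matrix m m 𝕜).det * star (k : Matrix m m 𝕜).det = 1 := by
    have h1 : (k : Matrix m m 𝕜) * (k : Matrix m m 𝕜)ᴴ = 1 := Unitary.coe_mul_star_self k
    rw [← det_conjTranspose, ← det_mul, h1, det_one]
  have h2 := congrArg norm h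
  rw [norm_mul, norm_star, norm_one] at h2
  have h3 := norm_nonneg (k : Matrix m m 𝕜).det
  nlinarith

/-- the logarithm has trace zero if the determinant is one -/
theorem sum_eq_zero {g : Matrix m m 𝕜} (hg : g.det = 1) {U k : unitaryGroup m 𝕜} {s : m → ℝ}
    (h : g = ee U s * (k : Matrix m m 𝕜)) : ∑ i, s i = 0 := by
  rw [h, det_mul, ee_det] at hg
  have h1 := congrArg norm hg
  rw [norm_mul, RCLike.norm_ofReal, norm_det_unitary, mul_one, norm_one, abs_of_pos (Real.exp_pos _)] at h1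
  exact Real.exp_eq_one_iff _ |>.1 h1

/-- exponentials in the special linear group -/
noncomputable def SLee (U : unitaryGroup m 𝕜) (s : m → ℝ) (hs : ∑ i, s i = 0) :
    SpecialLinearGroup m 𝕜 := ⟨ee U s, by rw [ee_det, hs, Real.exp_zero]; simp⟩

/-- squared distance on the special linear group -/
noncomputable def Qs (x y : SpecialLinearGroup m 𝕜) : ℝ := FF ((x⁻¹ * y : SpecialLinearGroup m 𝕜) : Matrix m m 𝕜)

theorem SL_isUnit (x : SpecialLinearGroup m 𝕜) : IsUnit (x : Matrix m m 𝕜).det := by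
  rw [Matrix.SpecialLinearGroup.det_coe]; exact isUnit_one

theorem entry_nsq (y z : 𝕜) (c : ℝ) : ‖((c : ℝ) : 𝕜) * y - z‖ ^ 2 =
    (c * RCLike.re y - RCLike.re z) ^ 2 + (c * RCLike.im y - RCLike.im z) ^ 2 := by
  rw [RCLike.norm_sq_eq_def, map_sub, map_sub, RCLike.re_ofReal_mul, RCLike.im_ofReal_mul]
  ring

theorem entry_id (y z : 𝕜) (τ : ℝ) : ‖z‖ ^ 2 = (1 - τ) * ‖((-τ : ℝ) : 𝕜) * y - z‖ ^ 2 +
    τ * ‖((1 - τ : ℝ) : 𝕜) * y - z‖ ^ 2 - τ * (1 - τ) * ‖y‖ ^ 2 := by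
  rw [entry_nsq, entry_nsq, RCLike.norm_sq_eq_def, RCLike.norm_sq_eq_def]
  ring

theorem HS_id (Y Z : Matrix m m 𝕜) (τ : ℝ) : HS Z = (1 - τ) * HS (((-τ : ℝ) : 𝕜) • Y - Z) +
    τ * HS (((1 - τ : ℝ) : 𝕜) • Y - Z) - τ * (1 - τ) * HS Y := by
  simp only [HS, Finset.mul_sum, ← Finset.sum_add_distrib, ← Finset.sum_sub_distrib]
  refine Finset.sum_congr rfl fun i _ => Finset.sum_congr rfl fun j _ => ?_
  rw [Matrix.sub_apply, Matrix.sub_apply, Matrix.smul_apply, Matrix.smul_apply, smul_eq_mul, smul_eq_mul]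
  exact entry_id _ _ _

theorem Qs_cn_at (x y : SpecialLinearGroup m 𝕜) (τ : ℝ) (hτ : τ ∈ Set.Icc (0:ℝ) 1)
    (U : unitaryGroup m 𝕜) (s : m → ℝ) (k : unitaryGroup m 𝕜)
    (hk : ((x⁻¹ * y : SpecialLinearGroup m 𝕜) : Matrix m m 𝕜) = ee U s * (k : Matrix m m 𝕜))
    (p : SpecialLinearGroup m 𝕜) (hp : (p : Matrix m m 𝕜) = ee U (τ • s)) (z : SpecialLinearGroup m 𝕜) :
    Qs z (x * p) ≤ (1 - τ) * Qs z x + τ * Qs z y - τ * (1 - τ) * Qs x y := by
  set c : SpecialLinearGroup m 𝕜 := x * p with hc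
  obtain ⟨W, w, k', hk'⟩ := exists_polar ((c⁻¹ * z : SpecialLinearGroup m 𝕜) : Matrix m m 𝕜) (SL_isUnit _)
  have hinv : ((p⁻¹ : SpecialLinearGroup m 𝕜) : Matrix m m 𝕜) = ee U (-(τ • s)) := by
    have h1 : ((p⁻¹ : SpecialLinearGroup m 𝕜) : Matrix m m 𝕜) * ee U (τ • s) = 1 := by
      have : ((p⁻¹ * p : SpecialLinearGroup m 𝕜) : Matrix m m 𝕜) = 1 := by
        rw [inv_mul_cancel, Matrix.SpecialLinearGroup.coe_one]
      rw [Matrix.SpecialLinearGroup.coe_mul, hp] at this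
      exact this
    calc _ = ((p⁻¹ : SpecialLinearGroup m 𝕜) : Matrix m m 𝕜) * (ee U (τ • s) * ee U (-(τ • s))) := by
          rw [ee_mul_neg, mul_one]
      _ = _ := by rw [← mul_assoc, h1, one_mul]
  have hcx : ((c⁻¹ * x : SpecialLinearGroup m 𝕜) : Matrix m m 𝕜) = ee U (-(τ • s)) := by
    have : c⁻¹ * x = p⁻¹ := by rw [hc]; group
    rw [this, hinv]
  have hcy : ((c⁻¹ * y : SpecialLinearGroup m 𝕜) : Matrix m m 𝕜) = ee U ((1 - τ) • s) * (k : Matrix m m 𝕜) := by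
    have : c⁻¹ * y = p⁻¹ * (x⁻¹ * y) := by rw [hc]; group
    rw [this, Matrix.SpecialLinearGroup.coe_mul, hinv, hk, ← mul_assoc, ee_mul]
    congr 2
    rw [sub_smul, one_smul]; abel
  have hzc : ((z⁻¹ * c : SpecialLinearGroup m 𝕜) : Matrix m m 𝕜) =
      ((k'⁻¹ : unitaryGroup m 𝕜) : Matrix m m 𝕜) * ee W (-w) := by
    have h1 : ((z⁻¹ * c : SpecialLinearGroup m 𝕜) : Matrix m m 𝕜) * (ee W w * (k' : Matrix m m 𝕜)) = 1 := by
      rw [← hk', ← Matrix.SpecialLinearGroup.coe_mul]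
      have : z⁻¹ * c * (c⁻¹ * z) = 1 := by group
      rw [this, Matrix.SpecialLinearGroup.coe_one]
    calc _ = ((z⁻¹ * c : SpecialLinearGroup m 𝕜) : Matrix m m 𝕜) * (ee W w * (k' : Matrix m m 𝕜) *
          (((k'⁻¹ : unitaryGroup m 𝕜) : Matrix m m 𝕜) * ee W (-w))) := by
          rw [mul_assoc (ee W w), ← mul_assoc (k' : Matrix m m 𝕜), u_mul_inv, one_mul, ee_mul_neg, mul_one]
      _ = _ := by rw [← mul_assoc, h1, one_mul]
  have q1 : Qs z c = HS (hh W w : Matrix m m 𝕜) := by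
    rw [Qs, hzc, FF_umul _ (ee_isUnit _ _), HS_hh]
    have : (ee W (-w) : Matrix m m 𝕜) = ee W (-w) * ((1 : unitaryGroup m 𝕜) : Matrix m m 𝕜) := by simp
    rw [FF_eq this]
    exact Finset.sum_congr rfl fun i _ => by rw [Pi.neg_apply, neg_sq]
  have hd : ∀ (V : unitaryGroup m 𝕜) (v : m → ℝ), IsUnit (ee W (-w) * ee V v : Matrix m m 𝕜).det := fun V v => by
    rw [det_mul]; exact (ee_isUnit _ _).mul (ee_isUnit _ _)
  have q2 : HS (((-τ : ℝ) : 𝕜) • hh U s - hh W w) ≤ Qs z x := by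
    have e : (z⁻¹ * x : SpecialLinearGroup m 𝕜) = (z⁻¹ * c) * (c⁻¹ * x) := by group
    rw [Qs, e, Matrix.SpecialLinearGroup.coe_mul, hcx, hzc, mul_assoc, FF_umul _ (hd _ _)]
    have := emi' W U w (-(τ • s))
    have e2 : (hh U (-(τ • s)) : Matrix m m 𝕜) = ((-τ : ℝ) : 𝕜) • hh U s := by rw [← neg_smul, hh_smul]
    rwa [e2] at this
  have q3 : HS (((1 - τ : ℝ) : 𝕜) • hh U s - hh W w) ≤ Qs z y := by
    have e : (z⁻¹ * y : SpecialLinearGroup m 𝕜) = (z⁻¹ * c) * (c⁻¹ * y) := by group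
    rw [Qs, e, Matrix.SpecialLinearGroup.coe_mul, hcy, hzc, mul_assoc, ← mul_assoc (ee W (-w)), FF_umul _ (by
      rw [det_mul]
      exact (hd _ _).mul (by
        rw [isUnit_iff_ne_zero, ← norm_ne_zero_iff, norm_det_unitary]; exact one_ne_zero)),
      FF_mulu _ (hd _ _)]
    have := emi' W U w ((1 - τ) • s)
    rwa [hh_smul] at this
  have q4 : Qs x y = HS (hh U s : Matrix m m 𝕜) := by rw [Qs, FF_eq hk, HS_hh]
  rw [q1, q4, HS_id (hh U s) (hh W w) τ]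
  have h1 := mul_le_mul_of_nonneg_left q2 (show 0 ≤ 1 - τ by linarith [hτ.2])
  have h2 := mul_le_mul_of_nonneg_left q3 hτ.1
  linarith

theorem Qs_cn (x y : SpecialLinearGroup m 𝕜) (τ : ℝ) (hτ : τ ∈ Set.Icc (0:ℝ) 1) :
    ∃ c : SpecialLinearGroup m 𝕜, ∀ z : SpecialLinearGroup m 𝕜,
      Qs z c ≤ (1 - τ) * Qs z x + τ * Qs z y - τ * (1 - τ) * Qs x y := by
  obtain ⟨U, s, k, hk⟩ := exists_polar ((x⁻¹ * y : SpecialLinearGroup m 𝕜) : Matrix m m 𝕜) (SL_isUnit _)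
  have hs0 : ∑ i, s i = 0 := sum_eq_zero (Matrix.SpecialLinearGroup.det_coe _) hk
  have hst : ∑ i, (τ • s) i = 0 := by
    simp only [Pi.smul_apply, smul_eq_mul, ← Finset.mul_sum, hs0, mul_zero]
  exact ⟨x * SLee U (τ • s) hst, fun z => Qs_cn_at x y τ hτ U s k hk _ rfl z⟩

theorem Qs_form : IsCNForm (Qs : SpecialLinearGroup m 𝕜 → SpecialLinearGroup m 𝕜 → ℝ) where
  nonneg x y := FF_nonneg _ (SL_isUnit _)
  self x := by rw [Qs, inv_mul_cancel, Matrix.SpecialLinearGroup.coe_one, FF_one]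
  symm x y := by
    rw [Qs, Qs]
    refine (FF_inv _ _ (SL_isUnit _) ?_)
    rw [← Matrix.SpecialLinearGroup.coe_mul]
    have : x⁻¹ * y * (y⁻¹ * x) = 1 := by group
    rw [this, Matrix.SpecialLinearGroup.coe_one]
  cn := Qs_cn

theorem Qs_smul (g x y : SpecialLinearGroup m 𝕜) : Qs (g * x) (g * y) = Qs x y := by
  have h : (g * x)⁻¹ * (g * y) = x⁻¹ * y := by group
  rw [Qs, Qs, h]

/-! ### products -/

end Single

section Product

variable {ι : Type} [Fintype ι] [DecidableEq ι]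

/-- the product group -/
abbrev GG {ι : Type} (𝕜 : ι → Type) [∀ i, RCLike (𝕜 i)] (n : ι → ℕ) : Type :=
  ∀ i, SpecialLinearGroup (Fin (n i)) (𝕜 i)

variable {𝕜 : ι → Type} [∀ i, RCLike (𝕜 i)] {n : ι → ℕ}

/-- squared distance on the product -/
noncomputable def Qp (x y : GG 𝕜 n) : ℝ := ∑ i, Qs (x i) (y i)

theorem Qp_form : IsCNForm (Qp : GG 𝕜 n → GG 𝕜 n → ℝ) where
  nonneg x y := Finset.sum_nonneg fun i _ => Qs_form.nonneg _ _
  self x := by simp [Qp, Qs_form.self]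
  symm x y := Finset.sum_congr rfl fun i _ => Qs_form.symm _ _
  cn x y τ hτ := by
    choose c hc using fun i => Qs_cn (x i) (y i) τ hτ
    refine ⟨c, fun z => ?_⟩
    simp only [Qp, Finset.mul_sum, ← Finset.sum_add_distrib, ← Finset.sum_sub_distrib]
    exact Finset.sum_le_sum fun i _ => hc i (z i)

theorem Qp_smul (g x y : GG 𝕜 n) : Qp (g * x) (g * y) = Qp x y :=
  Finset.sum_congr rfl fun i _ => Qs_smul _ _ _

/-- the product of the groups with the pseudo-metric of the symmetric space -/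
structure TS {ι : Type} (𝕜 : ι → Type) [∀ i, RCLike (𝕜 i)] (n : ι → ℕ) where
  val : GG 𝕜 n

theorem TS_form : IsCNForm (fun x y : TS 𝕜 n => Qp x.val y.val) where
  nonneg x y := Qp_form.nonneg _ _
  self x := Qp_form.self _
  symm x y := Qp_form.symm _ _
  cn x y τ hτ := by
    obtain ⟨c, hc⟩ := Qp_form.cn x.val y.val τ hτ
    exact ⟨⟨c⟩, fun z => hc z.val⟩

noncomputable instance : PseudoMetricSpace (TS 𝕜 n) := TS_form.pm

instance : MulAction (GG 𝕜 n) (TS 𝕜 n) where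
  smul g x := ⟨g * x.val⟩
  one_smul x := by
    cases x
    show TS.mk (1 * _) = _
    rw [one_mul]
  mul_smul g h x := by
    cases x
    show TS.mk ((g * h) * _) = TS.mk (g * (h * _))
    rw [mul_assoc]

theorem TS_dist (x y : TS 𝕜 n) : dist x y = √(Qp x.val y.val) := rfl

theorem TS_dist_sq (x y : TS 𝕜 n) : dist x y ^ 2 = Qp x.val y.val := Real.sq_sqrt (Qp_form.nonneg _ _)

theorem TS_smul_val (g : GG 𝕜 n) (x : TS 𝕜 n) : (g • x).val = g * x.val := rfl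

theorem TS_iso (g : GG 𝕜 n) (x y : TS 𝕜 n) : dist (g • x) (g • y) = dist x y := by
  rw [TS_dist, TS_dist, TS_smul_val, TS_smul_val, Qp_smul]

theorem TS_cn : ∀ x y : TS 𝕜 n, ∀ τ ∈ Set.Icc (0 : ℝ) 1, ∃ c : TS 𝕜 n, ∀ z : TS 𝕜 n,
      dist z c ^ 2 ≤ (1 - τ) * dist z x ^ 2 + τ * dist z y ^ 2 - τ * (1 - τ) * dist x y ^ 2 := by
  intro x y τ hτ
  obtain ⟨c, hc⟩ := TS_form.cn x y τ hτ
  refine ⟨c, fun z => ?_⟩
  rw [TS_dist_sq, TS_dist_sq, TS_dist_sq, TS_dist_sq]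
  exact hc z

/-- the balls of the product are bounded sets of tuples of matrices -/
theorem Qp_entries (g : GG 𝕜 n) (R : ℝ) (h : Qp 1 g ≤ R ^ 2) (hR : 0 ≤ R) (i : ι) (a b : Fin (n i)) :
    ‖(g i : Matrix (Fin (n i)) (Fin (n i)) (𝕜 i)) a b‖ ^ 2 ≤ n i * Real.exp (2 * R) := by
  have h1 : Qs 1 (g i) ≤ R ^ 2 := by
    refine le_trans ?_ h
    exact Finset.single_le_sum (f := fun i => Qs ((1 : GG 𝕜 n) i) (g i)) (fun i _ => Qs_form.nonneg _ _)
      (Finset.mem_univ i)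
  have h2 : Qs 1 (g i) = FF (g i : Matrix (Fin (n i)) (Fin (n i)) (𝕜 i)) := by
    rw [Qs, inv_one, one_mul]
  rw [h2] at h1
  refine (FF_entries _ (SL_isUnit _) a b).trans ?_
  rw [Fintype.card_fin]
  have h3 : √(FF (g i : Matrix (Fin (n i)) (Fin (n i)) (𝕜 i))) ≤ R := by
    rw [Real.sqrt_le_left hR]; exact h1
  gcongr

end Product

end Pool.Agent.KS6_9.SR
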