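import Pool.Agent.KS6_9.SR.Defs
import Pool.Agent.KS6_9.SR.Tsp

/-!
# Self-adjoint real algebraic groups are closed and polar-closed
-/

set_option autoImplicit false
set_option linter.unusedSectionVars false

namespace Pool.Agent.KS6_9.SR

open Filter Topology Matrix

/-- the exponential characters -/
noncomputable def chr (t : ℝ) : Multiplicative ℝ →* ℝ where
  toFun b := Real.exp (t * b.toAdd)
  map_one' := by simp
  map_mul' a b := by rw [toAdd_mul, mul_add, Real.exp_add]

/-- evaluation of exponential polynomials -/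
noncomputable def evx (t : ℝ) : AddMonoidAlgebra ℝ ℝ →ₐ[ℝ] ℝ := AddMonoidAlgebra.lift ℝ ℝ ℝ (chr t)

theorem evx_eq_zero (B : AddMonoidAlgebra ℝ ℝ) (h : ∀ m : ℕ, evx (2 * m) B = 0) : B = 0 := by
  set χ : ℝ → (Multiplicative ℕ →* ℝ) := fun b =>
    { toFun := fun m => Real.exp (2 * (m.toAdd : ℝ) * b)
      map_one' := by simp
      map_mul' := fun m n => by rw [toAdd_mul, ← Real.exp_add]; push_cast; congr 1; ring } with hχ
  have hinj : Function.Injective χ := by
    intro b c hbc
    have h1 := DFunLike.congr_fun hbc (Multiplicative.ofAdd 1)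
    have h2 : Real.exp (2 * ((1 : ℕ) : ℝ) * b) = Real.exp (2 * ((1 : ℕ) : ℝ) * c) := h1
    have h3 := Real.exp_injective h2
    push_cast at h3
    linarith
  have hli := (linearIndependent_monoidHom (Multiplicative ℕ) ℝ).comp χ hinj
  have h1 : B.coeff = 0 := by
    apply linearIndependent_iff.1 hli
    funext m
    rw [Finsupp.linearCombination_apply, Finsupp.sum, Finset.sum_apply]
    have h2 := h m.toAdd
    rw [evx, AddMonoidAlgebra.lift_apply, Finsupp.sum] at h2
    rw [Pi.zero_apply, ← h2]
    rfl
  cases B with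
  | ofCoeff c =>
    have : c = 0 := h1
    rw [this]; rfl

variable {N : ℕ} {K : Type} [RCLike K]

theorem continuous_coords : Continuous (fun g : SpecialLinearGroup (Fin N) K =>
    coords (g : Matrix (Fin N) (Fin N) K)) := by
  refine continuous_pi fun p => ?_
  have h2 : Continuous (fun g : SpecialLinearGroup (Fin N) K => (g : Matrix (Fin N) (Fin N) K) p.1 p.2.1) :=
    continuous_subtype_val.matrix_elem p.1 p.2.1
  unfold coords
  by_cases hp : p.2.2 = true
  · simp only [if_pos hp]
    exact RCLike.continuous_im.comp h2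
  · simp only [if_neg hp]
    exact RCLike.continuous_re.comp h2

theorem isClosed_of_algebraic (G : Subgroup (SpecialLinearGroup (Fin N) K)) (hG : IsRealAlgebraic G) :
    IsClosed (G : Set (SpecialLinearGroup (Fin N) K)) := by
  obtain ⟨F, hF⟩ := hG
  have h1 : (G : Set (SpecialLinearGroup (Fin N) K)) = ⋂ f ∈ F, {g : SpecialLinearGroup (Fin N) K | MvPolynomial.eval (coords (g : Matrix (Fin N) (Fin N) K)) f = 0} := by
    ext g
    simp only [SetLike.mem_coe, hF g, Set.mem_iInter, Set.mem_ofPred_eq]
  rw [h1]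
  refine isClosed_biInter fun f _ => isClosed_eq ?_ continuous_const
  exact (MvPolynomial.continuous_eval f).comp continuous_coords

theorem polarClosed_of_algebraic (G : Subgroup (SpecialLinearGroup (Fin N) K)) (hG : IsRealAlgebraic G)
    (hs : IsSelfAdjointGroup G) : IsPolarClosed G := by
  obtain ⟨F, hF⟩ := hG
  intro g hg U k s hgk t _
  have hgk' : (g : Matrix (Fin N) (Fin N) K) = ee U s * (k : Matrix (Fin N) (Fin N) K) := hgk
  have hs0 : ∑ i, s i = 0 := sum_eq_zero (Matrix.SpecialLinearGroup.det_coe _) hgk'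
  have hst : ∀ t : ℝ, ∑ i, (t • s) i = 0 := by
    intro t
    simp only [Pi.smul_apply, smul_eq_mul, ← Finset.mul_sum, hs0, mul_zero]
  -- the square of the positive part
  obtain ⟨g', hg', hgg'⟩ := hs g hg
  have hp : ∀ m : ℕ, SLee U ((2 * (m : ℝ)) • s) (hst _) ∈ G := by
    intro m
    have h1 : SLee U ((2 * (m : ℝ)) • s) (hst _) = (g * g') ^ m := by
      induction m with
      | zero =>
        apply Subtype.ext
        show ee U ((2 * ((0:ℕ) : ℝ)) • s) = _
        rw [pow_zero, Matrix.SpecialLinearGroup.coe_one, Nat.cast_zero, mul_zero, zero_smul, ee_zero]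
      | succ m ih =>
        rw [pow_succ, ← ih]
        apply Subtype.ext
        rw [Matrix.SpecialLinearGroup.coe_mul, Matrix.SpecialLinearGroup.coe_mul]
        show ee U ((2 * ((m + 1 : ℕ) : ℝ)) • s) = ee U ((2 * (m : ℝ)) • s) *
          ((g : Matrix (Fin N) (Fin N) K) * (g' : Matrix (Fin N) (Fin N) K))
        rw [hgg', hgk', star_eq_conjTranspose, conjTranspose_mul, ee_conj]
        have hkk : (k : Matrix (Fin N) (Fin N) K) * (k : Matrix (Fin N) (Fin N) K)ᴴ = 1 := Unitary.coe_mul_star_self k
        have h2 : ee U s * (k : Matrix (Fin N) (Fin N) K) * ((k : Matrix (Fin N) (Fin N) K)ᴴ * ee U s) = ee U (s + s) := by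
          rw [mul_assoc, ← mul_assoc (k : Matrix (Fin N) (Fin N) K), hkk, one_mul, ee_mul]
        rw [h2, ee_mul]
        congr 1
        push_cast
        module
    rw [h1]
    exact G.pow_mem (G.mul_mem hg hg') m
  -- entries are exponential polynomials
  set w : Fin N × Fin N × Bool → Fin N → ℝ := fun p i =>
    if p.2.2 then RCLike.im ((U : Matrix (Fin N) (Fin N) K) p.1 i * star ((U : Matrix (Fin N) (Fin N) K) p.2.1 i))
    else RCLike.re ((U : Matrix (Fin N) (Fin N) K) p.1 i * star ((U : Matrix (Fin N) (Fin N) K) p.2.1 i)) with hw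
  set A : Fin N × Fin N × Bool → AddMonoidAlgebra ℝ ℝ := fun p => ∑ i, AddMonoidAlgebra.single (s i) (w p i) with hA
  have hcoord : ∀ t : ℝ, coords (ee U (t • s) : Matrix (Fin N) (Fin N) K) = fun p => evx t (A p) := by
    intro t
    funext p
    have hentry : (ee U (t • s) : Matrix (Fin N) (Fin N) K) p.1 p.2.1 = ∑ i, ((Real.exp (t * s i) : ℝ) : K) *
        ((U : Matrix (Fin N) (Fin N) K) p.1 i * star ((U : Matrix (Fin N) (Fin N) K) p.2.1 i)) := by
      rw [ee, De, Matrix.mul_apply]
      refine Finset.sum_congr rfl fun i _ => ?_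
      rw [Matrix.mul_diagonal]
      show (U : Matrix (Fin N) (Fin N) K) p.1 i * ((Real.exp (t * s i) : ℝ) : K) *
        star ((U : Matrix (Fin N) (Fin N) K) p.2.1 i) = _
      ring
    have hev : evx t (A p) = ∑ i, Real.exp (t * s i) * w p i := by
      rw [hA, map_sum]
      refine Finset.sum_congr rfl fun i _ => ?_
      rw [evx, AddMonoidAlgebra.lift_single, smul_eq_mul, mul_comm]
      rfl
    rw [hev]
    unfold coords
    by_cases hp : p.2.2 = true
    · rw [if_pos hp, hentry, map_sum]
      refine Finset.sum_congr rfl fun i _ => ?_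
      rw [RCLike.im_ofReal_mul]
      simp only [hw, if_pos hp]
    · rw [if_neg hp, hentry, map_sum]
      refine Finset.sum_congr rfl fun i _ => ?_
      rw [RCLike.re_ofReal_mul]
      simp only [hw, if_neg hp]
  have hmem : SLee U (t • s) (hst t) ∈ G := by
    rw [hF]
    intro f hf
    have h1 : ∀ t : ℝ, MvPolynomial.eval (coords (ee U (t • s) : Matrix (Fin N) (Fin N) K)) f =
        evx t (MvPolynomial.aeval A f) := by
      intro t
      rw [hcoord t, ← MvPolynomial.coe_aeval_eq_eval]
      have := MvPolynomial.comp_aeval A (evx t)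
      have h2 := DFunLike.congr_fun this f
      exact h2.symm
    have h2 : MvPolynomial.aeval A f = 0 := by
      apply evx_eq_zero
      intro m
      rw [← h1]
      exact (hF _).1 (hp m) f hf
    show MvPolynomial.eval (coords (ee U (t • s) : Matrix (Fin N) (Fin N) K)) f = 0
    rw [h1, h2, map_zero]
  exact ⟨_, hmem, rfl⟩

end Pool.Agent.KS6_9.SR
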