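import Pool.Agent.KS6_9.SR.Lat2

/-!
# Closed subgroups of `SL(N,K)` which are closed under polar decomposition
-/

set_option autoImplicit false
set_option linter.unusedSectionVars false

namespace Pool.Agent.KS6_9.SR

open Filter Topology Bac815 Matrix

/-- finitely generated groups with enough linear representations are residually finite -/
theorem rf_linear {Γ : Type} [Group Γ] (hfg : ∃ S : Set Γ, S.Finite ∧ Subgroup.closure S = ⊤)
    (h : ∀ g : Γ, g ≠ 1 → ∃ (N : ℕ) (K : Type) (_ : Field K) (ψ : Γ →* Matrix (Fin N) (Fin N) K), ψ g ≠ 1) :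
    Group.ResiduallyFinite Γ := by
  rw [Group.residuallyFinite_iff_exists_finiteIndex]
  intro g hg
  obtain ⟨S, hS, hgen⟩ := hfg
  obtain ⟨N, K, _, ψ, hψ⟩ := h g hg
  have := hS.to_subtype
  obtain ⟨Q, _, _, q, hq⟩ := Pool.Agent.Y839.Mon.malcev' (fun s : S => (s : Γ))
    (by rw [Subtype.range_coe]; exact hgen) K ψ g hψ
  refine ⟨q.ker, ?_, hq⟩
  have : Finite q.range := inferInstance
  have : Finite (Γ ⧸ q.ker) := Finite.of_equiv _ (QuotientGroup.quotientKerEquivRange q).symm.toEquiv
  exact Subgroup.finiteIndex_of_finite_quotient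

section

variable {m K : Type} [Fintype m] [DecidableEq m] [RCLike K]

instance firstCountable_SL : FirstCountableTopology (SpecialLinearGroup m K) :=
  have : FirstCountableTopology (Matrix m m K) := inferInstanceAs (FirstCountableTopology (m → m → K))
  (Matrix.SpecialLinearGroup.isClosedEmbedding_val (n := m) (R := K)).isInducing.firstCountableTopology

/-- a subgroup of the special linear group with the pseudo-metric of the symmetric space -/
structure TG (G : Subgroup (SpecialLinearGroup m K)) where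
  val : G

variable {G : Subgroup (SpecialLinearGroup m K)}

noncomputable instance : PseudoMetricSpace (TG G) :=
  PseudoMetricSpace.induced (fun x : TG G => (x.val : SpecialLinearGroup m K)) Qs_form.pm

theorem TG_dist (x y : TG G) : dist x y = √(Qs (x.val : SpecialLinearGroup m K) y.val) := rfl

theorem TG_dist_sq (x y : TG G) : dist x y ^ 2 = Qs (x.val : SpecialLinearGroup m K) y.val :=
  Real.sq_sqrt (Qs_form.nonneg _ _)

instance : MulAction G (TG G) where
  smul g x := ⟨g * x.val⟩
  one_smul x := by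
    cases x
    show TG.mk (1 * _) = _
    rw [one_mul]
  mul_smul g h x := by
    cases x
    show TG.mk ((g * h) * _) = TG.mk (g * (h * _))
    rw [mul_assoc]

theorem TG_iso (g : G) (x y : TG G) : dist (g • x) (g • y) = dist x y := by
  rw [TG_dist, TG_dist]
  show √(Qs ((g * x.val : G) : SpecialLinearGroup m K) ((g * y.val : G) : SpecialLinearGroup m K)) = _
  rw [Subgroup.coe_mul, Subgroup.coe_mul, Qs_smul]

theorem SL_proper (R : ℝ) (g : SpecialLinearGroup m K) (h : Qs 1 g ≤ R ^ 2) (hR : 0 ≤ R) (a b : m) :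
    ‖(g : Matrix m m K) a b‖ ≤ Fintype.card m * Real.exp (2 * R) + 1 := by
  have h2 : Qs 1 g = FF (g : Matrix m m K) := by rw [Qs, inv_one, one_mul]
  rw [h2] at h
  have h1 := FF_entries _ (SL_isUnit g) a b
  have h3 : √(FF (g : Matrix m m K)) ≤ R := by rw [Real.sqrt_le_left hR]; exact h
  have h4 : ‖(g : Matrix m m K) a b‖ ^ 2 ≤ Fintype.card m * Real.exp (2 * R) := by
    refine h1.trans ?_
    gcongr
  have h5 : 0 ≤ ‖(g : Matrix m m K) a b‖ := norm_nonneg _
  have h6 : 0 ≤ Fintype.card m * Real.exp (2 * R) := by positivity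
  by_contra h10
  push Not at h10
  nlinarith

end

theorem TG_cn {N : ℕ} {K : Type} [RCLike K] (H : Subgroup (SpecialLinearGroup (Fin N) K))
    (hP : IsPolarClosed H) : ∀ x y : TG H, ∀ τ ∈ Set.Icc (0 : ℝ) 1, ∃ m : TG H, ∀ z : TG H,
      dist z m ^ 2 ≤ (1 - τ) * dist z x ^ 2 + τ * dist z y ^ 2 - τ * (1 - τ) * dist x y ^ 2 := by
  intro x y τ hτ
  obtain ⟨U, s, k, hk⟩ := exists_polar
    (((x.val : SpecialLinearGroup (Fin N) K)⁻¹ * y.val : SpecialLinearGroup (Fin N) K) : Matrix (Fin N) (Fin N) K)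
    (SL_isUnit _)
  obtain ⟨p, hp, hpe⟩ := hP ((x.val : SpecialLinearGroup (Fin N) K)⁻¹ * y.val)
    (H.mul_mem (H.inv_mem x.val.2) y.val.2) U k s hk τ hτ
  refine ⟨⟨x.val * ⟨p, hp⟩⟩, fun z => ?_⟩
  rw [TG_dist_sq, TG_dist_sq, TG_dist_sq, TG_dist_sq]
  exact Qs_cn_at _ _ τ hτ U s k hk p hpe _

/-- systoles for cocompact lattices in closed subgroups -/
theorem TG_sys {N : ℕ} {K : Type} [RCLike K] (H : Subgroup (SpecialLinearGroup (Fin N) K))
    (hcl : IsClosed (H : Set (SpecialLinearGroup (Fin N) K))) (Δ : Subgroup H) (hΔ : IsCocompactLattice Δ)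
    (hfg : ∃ S : Set Δ, S.Finite ∧ Subgroup.closure S = ⊤) (R : ℝ) :
    ∃ Λ : Subgroup Δ, Λ.Normal ∧ Λ.FiniteIndex ∧ ∀ l ∈ Λ, l ≠ 1 → ∀ x : TG H, R ≤ dist x (l • x) := by
  obtain ⟨h1, h2⟩ := hΔ
  have hemb := hcl.isClosedEmbedding_subtypeVal
  have : LocallyCompactSpace H := hemb.locallyCompactSpace
  have : Group.ResiduallyFinite Δ := rf_linear hfg fun g hg => by
    refine ⟨N, K, inferInstance, (Matrix.SpecialLinearGroup.coeMonoidHom).comp (H.subtype.comp Δ.subtype), ?_⟩
    intro h
    exact hg (Subtype.ext (Subtype.ext (Subtype.ext h)))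
  refine sys_transitive Δ (⟨1⟩ : TG H) TG_iso (fun x => ⟨x.val, ?_⟩) (fun R => ?_) R
  · cases x with
    | mk v =>
      show TG.mk v = TG.mk (v * 1)
      rw [mul_one]
  · refine ⟨(fun g : H => (g : SpecialLinearGroup (Fin N) K)) ⁻¹' {g : SpecialLinearGroup (Fin N) K | ∀ a b,
      ‖(g : Matrix (Fin N) (Fin N) K) a b‖ ≤ Fintype.card (Fin N) * Real.exp (2 * max R 0) + 1},
      hemb.isCompact_preimage (isCompact_SL _), fun g hg a b => ?_⟩
    apply SL_proper (max R 0) _ _ (le_max_right _ _)
    have h1 : dist (⟨1⟩ : TG H) (g • (⟨1⟩ : TG H)) ≤ max R 0 := hg.trans (le_max_left _ _)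
    have h2 := TG_dist_sq (⟨1⟩ : TG H) (g • (⟨1⟩ : TG H))
    have h3 : ((g • (⟨1⟩ : TG H)).val : SpecialLinearGroup (Fin N) K) = g := by
      show ((g * 1 : H) : SpecialLinearGroup (Fin N) K) = g
      rw [mul_one]
    rw [h3] at h2
    show Qs (((1 : H) : SpecialLinearGroup (Fin N) K)) g ≤ _
    rw [← h2]
    exact pow_le_pow_left₀ dist_nonneg h1 2

/-- lattices which surject onto a cocompact lattice in a closed, polar-closed linear group -/
theorem closed_case' {G : Type} [Group G] [TopologicalSpace G] [IsTopologicalGroup G] [T2Space G]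
    [LocallyCompactSpace G] [SecondCountableTopology G] (hG : IsCompactlyGenerated G)
    (hd : (dagger G).FiniteIndex) (Γ : Subgroup G)
    (hΓ : IsCocompactLattice Γ) {N : ℕ} {K : Type} [RCLike K] (H : Subgroup (SpecialLinearGroup (Fin N) K))
    (hcl : IsClosed (H : Set (SpecialLinearGroup (Fin N) K))) (hP : IsPolarClosed H) [NoncompactSpace H]
    (Δ : Subgroup H) (hΔ : IsCocompactLattice Δ) (q : Γ →* Δ) (hq : Function.Surjective q) :
    RigidityFails Γ := by
  obtain ⟨h1, h2⟩ := hΓ
  have hfg := fg_of_gen hG Γ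
  have hemb := hcl.isClosedEmbedding_subtypeVal
  have : LocallyCompactSpace H := hemb.locallyCompactSpace
  have hinf : Infinite Δ := by
    have := hΔ.2
    exact infinite_of_noncompact Δ
  have hfg' : ∃ S : Set Δ, S.Finite ∧ Subgroup.closure S = ⊤ := by
    obtain ⟨S, hS, hgen⟩ := hfg
    refine ⟨q '' S, hS.image _, ?_⟩
    rw [← MonoidHom.map_closure, hgen, ← MonoidHom.range_eq_map, MonoidHom.range_eq_top]
    exact hq
  exact core hd Γ hfg q hq (⟨1⟩ : TG H) (fun g x y => TG_iso (g : H) x y) (TG_cn H hP)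
    (TG_sys H hcl Δ hΔ hfg')

instance secondCountable_SL {m K : Type} [Fintype m] [DecidableEq m] [RCLike K] :
    SecondCountableTopology (SpecialLinearGroup m K) :=
  have : SecondCountableTopology (Matrix m m K) := inferInstanceAs (SecondCountableTopology (m → m → K))
  (Matrix.SpecialLinearGroup.isClosedEmbedding_val (n := m) (R := K)).isInducing.secondCountableTopology

theorem closed_case {N : ℕ} {K : Type} [RCLike K] (G : Subgroup (SpecialLinearGroup (Fin N) K))
    (hcl : IsClosed (G : Set (SpecialLinearGroup (Fin N) K))) (hP : IsPolarClosed G) [NoncompactSpace G]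
    (hG : IsCompactlyGenerated G) (hd : (dagger G).FiniteIndex) (Γ : Subgroup G) (hΓ : IsCocompactLattice Γ) :
    RigidityFails Γ := by
  have hemb := hcl.isClosedEmbedding_subtypeVal
  have : LocallyCompactSpace G := hemb.locallyCompactSpace
  have : SecondCountableTopology G := hemb.isInducing.secondCountableTopology
  exact closed_case' hG hd Γ hΓ G hcl hP Γ hΓ (MonoidHom.id Γ) (fun x => ⟨x, rfl⟩)

end Pool.Agent.KS6_9.SR
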