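import Pool.Agent.KS6_9.SR.Fp

/-!
# Identity components of self-adjoint real algebraic groups
-/

set_option autoImplicit false
set_option linter.unusedSectionVars false

namespace Pool.Agent.KS6_9.SR

open Filter Topology Bac815 Matrix

theorem exists_model {G : Type} [Group G] [TopologicalSpace G] {N : ℕ} {K : Type} [RCLike K]
    (A : Subgroup (SpecialLinearGroup (Fin N) K)) (hA : IsRealAlgebraic A) (hsa : IsSelfAdjointGroup A)
    (e : G ≃ₜ* Subgroup.connectedComponentOfOne A) :
    ∃ f : G →* SpecialLinearGroup (Fin N) K, Topology.IsClosedEmbedding f ∧ IsPolarClosed f.range := by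
  have hcl : IsClosed (A : Set (SpecialLinearGroup (Fin N) K)) := isClosed_of_algebraic A hA
  have hpol : IsPolarClosed A := polarClosed_of_algebraic A hA hsa
  let f : G →* SpecialLinearGroup (Fin N) K :=
    A.subtype.comp ((Subgroup.connectedComponentOfOne A).subtype.comp e.toMulEquiv.toMonoidHom)
  have hcc : IsClosed ((Subgroup.connectedComponentOfOne A : Subgroup A) : Set A) := isClosed_connectedComponent
  refine ⟨f, ?_, ?_⟩
  · have h1 : Topology.IsClosedEmbedding (fun g : G => ((e g : Subgroup.connectedComponentOfOne A) : A)) :=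
      hcc.isClosedEmbedding_subtypeVal.comp e.toHomeomorph.isClosedEmbedding
    exact hcl.isClosedEmbedding_subtypeVal.comp h1
  · rintro _ ⟨g, rfl⟩ u k s hg t ht
    have hg' : ((f g : SpecialLinearGroup (Fin N) K) : Matrix (Fin N) (Fin N) K) = ee u s * (k : Matrix (Fin N) (Fin N) K) := hg
    have hmem : ∀ t : Set.Icc (0 : ℝ) 1, ∃ p : A, ((p : SpecialLinearGroup (Fin N) K) : Matrix (Fin N) (Fin N) K) =
        ee u ((t : ℝ) • s) := by
      intro t
      obtain ⟨p, hp, hpe⟩ := hpol (f g) (e g : A).2 u k s hg t t.2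
      exact ⟨⟨p, hp⟩, hpe⟩
    choose p hpe using hmem
    have hcont : Continuous p := by
      rw [Topology.IsInducing.subtypeVal.continuous_iff]
      refine (Matrix.SpecialLinearGroup.isClosedEmbedding_val (n := Fin N) (R := K)).isInducing.continuous_iff.2 ?_
      have h3 : Continuous fun t : Set.Icc (0 : ℝ) 1 => (ee u ((t : ℝ) • s) : Matrix (Fin N) (Fin N) K) :=
        (continuous_ee (K := K) u s).comp continuous_subtype_val
      refine h3.congr fun t => ?_
      exact (hpe t).symm
    have h0 : p ⟨0, by norm_num, by norm_num⟩ = 1 := by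
      apply Subtype.ext
      apply Subtype.ext
      rw [hpe]
      show ee u ((0 : ℝ) • s) = 1
      rw [zero_smul, ee_zero]
    have hpre : IsPreconnected (Set.range p) := isPreconnected_range hcont
    have hsub : Set.range p ⊆ connectedComponent (1 : A) :=
      hpre.subset_connectedComponent ⟨_, h0⟩
    have hpt : p ⟨t, ht⟩ ∈ Subgroup.connectedComponentOfOne A := hsub ⟨_, rfl⟩
    refine ⟨(p ⟨t, ht⟩ : SpecialLinearGroup (Fin N) K), ⟨e.symm ⟨p ⟨t, ht⟩, hpt⟩, ?_⟩, hpe ⟨t, ht⟩⟩
    show ((e (e.symm ⟨p ⟨t, ht⟩, hpt⟩) : A) : SpecialLinearGroup (Fin N) K) = _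
    rw [e.apply_symm_apply]

/-- finite products of simple linear Lie groups -/
theorem simple_products {r : ℕ} (hr : 1 ≤ r) (G : Fin r → Type) [∀ i, Group (G i)] [∀ i, TopologicalSpace (G i)]
    [∀ i, IsTopologicalGroup (G i)] (hG : ∀ i, IsSimpleLinearLieGroup (G i)) (Γ : Subgroup (∀ i, G i))
    (hΓ : IsCocompactLattice Γ) : RigidityFails Γ := by
  have hne : Nonempty (Fin r) := ⟨⟨0, hr⟩⟩
  choose hnc hs hm using hG
  choose N K rc A hA hsa he using hm
  have e : ∀ i, G i ≃ₜ* Subgroup.connectedComponentOfOne (A i) := fun i => (he i).some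
  choose f hf hp using fun i => exists_model (A i) (hA i) (hsa i) (e i)
  exact models_case f hf hp hnc (fun i => (hs i).connected) (fun i => model_dagger_top (f i) (hf i) (hp i) (hnc i) (hs i))
    Γ hΓ

end Pool.Agent.KS6_9.SR
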