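import Mathlib

/-!
# Definitions: cocompact lattices, complete CAT(0) spaces, isometric actions, almost extension
-/

set_option autoImplicit false

namespace Pool.Agent.KS6_9.SR

open Filter Topology

/-- `Γ` is a cocompact lattice in the topological group `G`: a discrete subgroup with `G/Γ` compact. -/
def IsCocompactLattice {G : Type} [Group G] [TopologicalSpace G] (Γ : Subgroup G) : Prop :=
  DiscreteTopology Γ ∧ CompactSpace (G ⧸ Γ)

/-- The path `α : [0,1] → X` is a geodesic (constant speed shortest path) from `x` to `y`. -/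
def IsGeodesic {X : Type} [MetricSpace X] (α : ℝ → X) (x y : X) : Prop :=
  α 0 = x ∧ α 1 = y ∧ ∀ s ∈ Set.Icc (0 : ℝ) 1, ∀ t ∈ Set.Icc (0 : ℝ) 1,
    dist (α s) (α t) = |s - t| * dist x y

/-- `X` is a nonempty CAT(0) space: geodesic, and for every geodesic triangle and every comparison
triangle `x' y' z'` in the Euclidean plane `ℂ` (same side lengths), points on two sides are at most as
far apart as the corresponding points of the comparison triangle. -/
structure IsCAT0 (X : Type) [MetricSpace X] : Prop where
  nonempty : Nonempty X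
  geodesic : ∀ x y : X, ∃ α : ℝ → X, IsGeodesic α x y
  comparison : ∀ (x y z : X) (α β : ℝ → X), IsGeodesic α x y → IsGeodesic β x z →
    ∀ x' y' z' : ℂ, ‖x' - y'‖ = dist x y → ‖x' - z'‖ = dist x z → ‖y' - z'‖ = dist y z →
      ∀ s ∈ Set.Icc (0 : ℝ) 1, ∀ t ∈ Set.Icc (0 : ℝ) 1,
        dist (α s) (β t) ≤ ‖((1 - s) * x' + s * y') - ((1 - t) * x' + t * z')‖

/-- `ρ` is an action of the group `H` on `X` by isometries, i.e. a homomorphism `H → Isom(X)`. -/
structure IsIsometricAction {H : Type} [Group H] {X : Type} [MetricSpace X] (ρ : H → X → X) :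
    Prop where
  map_one : ∀ x : X, ρ 1 x = x
  map_mul : ∀ (g h : H) (x : X), ρ (g * h) x = ρ g (ρ h x)
  isometry : ∀ (g : H) (x y : X), dist (ρ g x) (ρ g y) = dist x y

/-- `Z` is an admissible subspace for the action `ρ` of `H`: nonempty, closed, convex and invariant. -/
structure IsAdmissible {H X : Type} [MetricSpace X] (ρ : H → X → X) (Z : Set X) : Prop where
  nonempty : Z.Nonempty
  closed : IsClosed Z
  convex : ∀ x ∈ Z, ∀ y ∈ Z, ∀ α : ℝ → X, IsGeodesic α x y → ∀ t ∈ Set.Icc (0 : ℝ) 1, α t ∈ Z
  invariant : ∀ h : H, ρ h '' Z = Z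

/-- The restriction of the action `ρ` of the subgroup `Γ` of `G` to the invariant subspace `Z` almost
extends to `G`: on `Z` it is the product `ρ₁(γ)ρ₂(γ)` of a continuous isometric action `ρ₁` of `G` on
`Z` (isometry groups carry the topology of pointwise convergence) and an isometric action `ρ₂` of `Γ`
on `Z` with bounded orbits, with `ρ₁(G)` commuting with `ρ₂(Γ)`. -/
def AlmostExtends {G : Type} [Group G] [TopologicalSpace G] {Γ : Subgroup G} {X : Type} [MetricSpace X]
    (ρ : Γ → X → X) (Z : Set X) : Prop :=
  ∃ (ρ₁ : G → Z → Z) (ρ₂ : Γ → Z → Z), IsIsometricAction ρ₁ ∧ IsIsometricAction ρ₂ ∧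
    (∀ z : Z, Continuous fun g : G => ρ₁ g z) ∧
    (∀ z : Z, Bornology.IsBounded {w : Z | ∃ γ : Γ, w = ρ₂ γ z}) ∧
    (∀ (g : G) (γ : Γ) (z : Z), ρ₁ g (ρ₂ γ z) = ρ₂ γ (ρ₁ g z)) ∧
    ∀ (γ : Γ) (z : Z), ρ γ z = ρ₁ γ (ρ₂ γ z)

/-- Superrigidity fails for `Γ < G`, in a strong and virtual form: there are a complete CAT(0) space
`X` and an isometric action `ρ` of `Γ` on `X` such that for every subgroup `Γ'` of finite index in `Γ`

* the restriction of `ρ` to `Γ'` and to a subspace which is admissible for it never almost extends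
  to `G`;
* for all points `x` of `X` and `y` of a metric space `Y` with a continuous isometric action `φ` of
  `G`, the displacement functions `d(ρ(γ)x, x)` and `d(φ(γ)y, y)` do not agree on `Γ'`; in other words
  the orbit map `γ ↦ ρ(γ)x` of `Γ'` is never isometric to that of `y`. -/
def RigidityFails {G : Type} [Group G] [TopologicalSpace G] (Γ : Subgroup G) : Prop :=
  ∃ (X : Type) (_ : MetricSpace X), IsCAT0 X ∧ CompleteSpace X ∧
    ∃ ρ : Γ → X → X, IsIsometricAction ρ ∧
      ∀ (Γ' : Subgroup G) (h : Γ' ≤ Γ), (Γ'.subgroupOf Γ).FiniteIndex →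
        (∀ Z : Set X, IsAdmissible (fun γ : Γ' => ρ (Subgroup.inclusion h γ)) Z →
          ¬ AlmostExtends (fun γ : Γ' => ρ (Subgroup.inclusion h γ)) Z) ∧
        ∀ (Y : Type) (_ : MetricSpace Y) (φ : G → Y → Y), IsIsometricAction φ →
          (∀ y : Y, Continuous fun g : G => φ g y) →
          ∀ (x : X) (y : Y), ∃ γ : Γ', dist (ρ (Subgroup.inclusion h γ) x) x ≠ dist (φ γ y) y

/-- the contraction group of `a`: all `u` with `aⁿ u a⁻ⁿ → 1` -/
def con {G : Type} [Group G] [TopologicalSpace G] (a : G) : Set G :=
  {u | Tendsto (fun n : ℕ => a ^ n * u * (a ^ n)⁻¹) atTop (𝓝 1)}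

/-- The closed subgroup `G†` of `G` generated by the contraction groups of all elements. -/
def dagger (G : Type) [Group G] [TopologicalSpace G] [IsTopologicalGroup G] : Subgroup G :=
  (Subgroup.closure (⋃ a : G, con a)).topologicalClosure

/-- `G` is topologically like a simple Lie group: connected, not abelian, and every closed normal
subgroup is discrete or all of `G`. (A connected Lie group has these properties if its Lie algebra is
simple.) -/
structure IsSimpleLike (G : Type) [Group G] [TopologicalSpace G] : Prop where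
  connected : ConnectedSpace G
  nonabelian : ∃ g h : G, g * h ≠ h * g
  normal : ∀ M : Subgroup G, M.Normal → IsClosed (M : Set G) → M = ⊤ ∨ DiscreteTopology M

/-- `G` is compactly generated: generated as a group by a compact subset. -/
def IsCompactlyGenerated (G : Type) [Group G] [TopologicalSpace G] : Prop :=
  ∃ C : Set G, IsCompact C ∧ Subgroup.closure C = ⊤

/-- The subgroup `G` of `SL(N,K)`, `K = ℝ` or `ℂ`, is polar-closed: if `g ∈ G` has the polar
decomposition `g = pk`, where `p = u diag(exp s) u*` is positive definite and `u`, `k` are unitary,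
then `G` contains the powers `pᵗ = u diag(exp (t s)) u*`, `0 ≤ t ≤ 1`. -/
def IsPolarClosed {N : ℕ} {K : Type} [RCLike K] (G : Subgroup (Matrix.SpecialLinearGroup (Fin N) K)) :
    Prop :=
  ∀ g ∈ G, ∀ (u k : Matrix.unitaryGroup (Fin N) K) (s : Fin N → ℝ),
    (g : Matrix (Fin N) (Fin N) K) = (u : Matrix (Fin N) (Fin N) K) *
      Matrix.diagonal (fun i => ((Real.exp (s i) : ℝ) : K)) * star (u : Matrix (Fin N) (Fin N) K) *
      (k : Matrix (Fin N) (Fin N) K) →
    ∀ t ∈ Set.Icc (0 : ℝ) 1, ∃ p ∈ G, (p : Matrix (Fin N) (Fin N) K) =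
      (u : Matrix (Fin N) (Fin N) K) * Matrix.diagonal (fun i => ((Real.exp (t * s i) : ℝ) : K)) *
      star (u : Matrix (Fin N) (Fin N) K)

/-- The real and imaginary parts of the entries of a matrix, as a real vector. -/
def coords {N : ℕ} {K : Type} [RCLike K] (A : Matrix (Fin N) (Fin N) K) : Fin N × Fin N × Bool → ℝ :=
  fun p => if p.2.2 then RCLike.im (A p.1 p.2.1) else RCLike.re (A p.1 p.2.1)

/-- `G` is a real algebraic subgroup of `SL(N,K)`, `K = ℝ` or `ℂ`: the set of common zeros in `SL(N,K)`
of a family of polynomials with real coefficients in the real and imaginary parts of the entries. -/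
def IsRealAlgebraic {N : ℕ} {K : Type} [RCLike K] (G : Subgroup (Matrix.SpecialLinearGroup (Fin N) K)) :
    Prop :=
  ∃ F : Set (MvPolynomial (Fin N × Fin N × Bool) ℝ), ∀ g : Matrix.SpecialLinearGroup (Fin N) K,
    g ∈ G ↔ ∀ f ∈ F, MvPolynomial.eval (coords (g : Matrix (Fin N) (Fin N) K)) f = 0

/-- `G` is closed under the conjugate transpose. -/
def IsSelfAdjointGroup {N : ℕ} {K : Type} [RCLike K]
    (G : Subgroup (Matrix.SpecialLinearGroup (Fin N) K)) : Prop :=
  ∀ g ∈ G, ∃ h ∈ G, (h : Matrix (Fin N) (Fin N) K) = star (g : Matrix (Fin N) (Fin N) K)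

/-- `G` is isomorphic, as a topological group, to the identity component of `A`. -/
def IsIdentityComponent (G A : Type) [Group G] [TopologicalSpace G] [Group A] [TopologicalSpace A]
    [IsTopologicalGroup A] : Prop :=
  Nonempty (G ≃ₜ* Subgroup.connectedComponentOfOne A)

/-- `G` is isomorphic, as a topological group, to the identity component of a real algebraic subgroup
`A` of some `SL(N,K)`, `K = ℝ` or `ℂ`, which is closed under the conjugate transpose. -/
def IsLinearModel (G : Type) [Group G] [TopologicalSpace G] : Prop :=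
  ∃ (N : ℕ) (K : Type) (_ : RCLike K) (A : Subgroup (Matrix.SpecialLinearGroup (Fin N) K)),
    IsRealAlgebraic A ∧ IsSelfAdjointGroup A ∧ IsIdentityComponent G A

/-- `G` is a noncompact simple linear Lie group: noncompact, connected, not abelian, with no closed
normal subgroups except discrete ones and `G`, and isomorphic as a topological group to the identity
component of a real algebraic subgroup `A` of some `SL(N,K)`, `K = ℝ` or `ℂ`, which is closed under the
conjugate transpose. -/
def IsSimpleLinearLieGroup (G : Type) [Group G] [TopologicalSpace G] : Prop :=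
  NoncompactSpace G ∧ IsSimpleLike G ∧ IsLinearModel G

/-- Superrigidity fails, in the sense of `RigidityFails`, for all cocompact lattices of `G`. -/
def RigidityFailsForAll (G : Type) [Group G] [TopologicalSpace G] : Prop :=
  ∀ Γ : Subgroup G, IsCocompactLattice Γ → RigidityFails Γ

end Pool.Agent.KS6_9.SR
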