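import Pool.Agent.KS6_9.SR.Nonw
import Pool.Agent.KS6_9.SR.Defs
import Pool.Graph.R_seed8.H665M.F2

/-!
# The core theorem
-/

set_option autoImplicit false
set_option linter.unusedSectionVars false

namespace Pool.Agent.KS6_9.SR

open Filter Topology Bac815

theorem mautner' {G Y J : Type} [Group G] [TopologicalSpace G] [MetricSpace Y] (φ : G →* (Y ≃ᵢ Y))
    (hφ : ∀ z : Y, Continuous fun g => φ g z) (l : Filter J) [l.NeBot] (b : J → G) (w w' : Y)
    (hb : Tendsto (fun j => φ (b j) w) l (𝓝 w')) (u : G)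
    (hu : Tendsto (fun j => (b j)⁻¹ * u * b j) l (𝓝 1)) : φ u w' = w' := by
  have h1 : Tendsto (fun j => dist (φ u (φ (b j) w)) (φ (b j) w)) l (𝓝 (dist (φ u w') w')) :=
    (((φ u).continuous.tendsto _).comp hb).dist hb
  have h2 : Tendsto (fun j => dist (φ ((b j)⁻¹ * u * b j) w) w) l (𝓝 0) := by
    have := (((hφ w).tendsto 1).comp hu).dist (tendsto_const_nhds (x := w))
    simpa using this
  have h3 : (fun j => dist (φ u (φ (b j) w)) (φ (b j) w)) = fun j => dist (φ ((b j)⁻¹ * u * b j) w) w := by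
    funext j
    have h4 : φ u (φ (b j) w) = φ (b j) (φ ((b j)⁻¹ * u * b j) w) := by
      rw [← IsometryEquiv.mul_apply, ← IsometryEquiv.mul_apply, ← map_mul, ← map_mul]
      congr 2
      group
    rw [h4, (φ (b j)).dist_eq]
  rw [h3] at h1
  exact dist_eq_zero.1 (tendsto_nhds_unique h1 h2)

variable {G : Type} [Group G] [TopologicalSpace G] [IsTopologicalGroup G]

/-- the stabilizer of a point is a closed subgroup -/
theorem fixed_closure {Y : Type} [MetricSpace Y] (φ : G →* (Y ≃ᵢ Y))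
    (hφ : ∀ z : Y, Continuous fun g => φ g z) (y : Y) (U : Set G) (hU : ∀ u ∈ U, φ u y = y) (h : G)
    (hh : h ∈ (Subgroup.closure U).topologicalClosure) : φ h y = y := by
  let S : Subgroup G :=
    { carrier := {g | φ g y = y}
      one_mem' := by show φ 1 y = y; rw [map_one]; rfl
      mul_mem' := fun {a b} ha hb => by
        show φ (a * b) y = y
        rw [map_mul, IsometryEquiv.mul_apply]
        have ha' : φ a y = y := ha
        have hb' : φ b y = y := hb
        rw [hb', ha']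
      inv_mem' := fun {a} ha => by
        show φ a⁻¹ y = y
        have ha' : φ a y = y := ha
        conv_lhs => rw [← ha']
        rw [← IsometryEquiv.mul_apply, ← map_mul, inv_mul_cancel, map_one]
        rfl }
  have hS : IsClosed (S : Set G) := isClosed_eq (hφ y) continuous_const
  have h1 : Subgroup.closure U ≤ S := (Subgroup.closure_le S).2 hU
  exact Subgroup.topologicalClosure_minimal _ h1 hS hh

theorem fix_con {Y : Type} [MetricSpace Y] (φ : G →* (Y ≃ᵢ Y))
    (hφ : ∀ z : Y, Continuous fun g => φ g z) (b : G) (y : Y) (g : ℕ → G)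
    (n : ℕ → ℕ) (hn : Tendsto n atTop atTop)
    (hw : Tendsto (fun j => b ^ (n j) * g j) atTop (𝓝 1))
    (hz : Tendsto (fun j => dist (φ (g j) y) y) atTop (𝓝 0)) (u : G) (hu : u ∈ con b) : φ u y = y := by
  have ht : Tendsto (fun j => φ (b ^ (n j))⁻¹ y) atTop (𝓝 y) := by
    rw [tendsto_iff_dist_tendsto_zero]
    have t1 : Tendsto (fun j => dist y (φ (b ^ (n j) * g j) y)) atTop (𝓝 0) := by
      have h1 := ((hφ y).tendsto 1).comp hw
      have h2 := (tendsto_const_nhds (x := y)).dist h1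
      rw [map_one] at h2
      have h0 : dist y ((1 : Y ≃ᵢ Y) y) = 0 := dist_self y
      rwa [h0] at h2
    have t3 := t1.add hz
    rw [add_zero] at t3
    refine squeeze_zero (fun _ => dist_nonneg) (fun j => ?_) t3
    have e2 : dist y (φ (b ^ (n j) * g j) y) = dist (φ (b ^ (n j))⁻¹ y) (φ (g j) y) := by
      rw [← (φ (b ^ (n j))⁻¹).dist_eq y, ← IsometryEquiv.mul_apply, ← map_mul, inv_mul_cancel_left]
    rw [e2]
    exact dist_triangle _ _ _
  apply mautner' φ hφ atTop (fun j => (b ^ (n j))⁻¹) y y ht u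
  have h4 : Tendsto (fun n : ℕ => b ^ n * u * (b ^ n)⁻¹) atTop (𝓝 1) := hu
  refine (h4.comp hn).congr fun j => ?_
  simp only [Function.comp, inv_inv]

/-- countably many recurrent elements whose contraction groups are dense in all contraction groups -/
theorem exists_seq [T2Space G] [LocallyCompactSpace G] [SecondCountableTopology G] (Γ : Subgroup G)
    [DiscreteTopology Γ] [CompactSpace (G ⧸ Γ)] :
    ∃ b u : ℕ → G, (∀ s, Ret (b s) (Γ : Set G)) ∧ (∀ s, u s ∈ con (b s)) ∧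
      ∀ a : G, con a ⊆ closure (Set.range u) := by
  set U : Set G := ⋃ b ∈ {b : G | Ret b (Γ : Set G)}, con b with hU
  have h1U : (1 : G) ∈ U := by
    refine Set.mem_iUnion₂.2 ⟨1, ?_, ?_⟩
    · intro W hW N
      exact ⟨N, le_rfl, 1, Γ.one_mem, by rw [one_pow, one_mul]; exact mem_of_mem_nhds hW⟩
    · show Tendsto _ _ _
      simp
  have hne : Nonempty U := ⟨⟨1, h1U⟩⟩
  set v : ℕ → U := TopologicalSpace.denseSeq U with hv
  have hvd : DenseRange v := TopologicalSpace.denseRange_denseSeq U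
  have hUc : U ⊆ closure (Set.range fun s => (v s : G)) := by
    intro x hx
    have h2 : (⟨x, hx⟩ : U) ∈ closure (Set.range v) := hvd _
    have h3 := image_closure_subset_closure_image (continuous_subtype_val (p := fun x => x ∈ U)) (Set.mem_image_of_mem _ h2)
    rw [← Set.range_comp] at h3
    exact h3
  have hmem : ∀ s, ∃ b : G, Ret b (Γ : Set G) ∧ (v s : G) ∈ con b := by
    intro s
    obtain ⟨b, hb, h⟩ := Set.mem_iUnion₂.1 (v s).2
    exact ⟨b, hb, h⟩
  choose b hb hcon using hmem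
  refine ⟨b, fun s => v s, hb, hcon, fun a u hu => ?_⟩
  -- u is a limit of conjugates
  rw [← closure_closure]
  have h4 : u ∈ closure ((fun x : G => x⁻¹ * u * x) '' {x : G | Ret (x⁻¹ * a * x) (Γ : Set G)}) := by
    have h5 : (1 : G) ∈ closure {x : G | Ret (x⁻¹ * a * x) (Γ : Set G)} := dense_ret Γ a 1
    have h6 : Continuous fun x : G => x⁻¹ * u * x := (continuous_inv.mul continuous_const).mul continuous_id
    have h7 := image_closure_subset_closure_image h6 (Set.mem_image_of_mem _ h5)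
    simpa using h7
  apply closure_mono _ h4
  rintro _ ⟨x, hx, rfl⟩
  apply hUc
  refine Set.mem_iUnion₂.2 ⟨x⁻¹ * a * x, hx, ?_⟩
  have h8 : Tendsto (fun n : ℕ => a ^ n * u * (a ^ n)⁻¹) atTop (𝓝 1) := hu
  have h9 : Tendsto (fun n : ℕ => x⁻¹ * (a ^ n * u * (a ^ n)⁻¹) * x) atTop (𝓝 (x⁻¹ * 1 * x)) :=
    (h8.const_mul x⁻¹).mul_const x
  rw [mul_one, inv_mul_cancel] at h9
  refine h9.congr fun n => ?_
  have h4 : (x⁻¹ * a * x) ^ n = x⁻¹ * a ^ n * x := by
    have := conj_pow (i := n) (a := x⁻¹) (b := a)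
    rwa [inv_inv] at this
  rw [h4]; group

/-- every subgroup of finite index contains almost all members of a sequence of subgroups -/
theorem exists_virt {Γ : Type} [Group Γ] (S : Set Γ) (hS : S.Finite) (hgen : Subgroup.closure S = ⊤) :
    ∃ E : ℕ → Subgroup Γ, (∀ j, (E j).Normal) ∧ (∀ j, (E j).FiniteIndex) ∧
      ∀ Γ' : Subgroup Γ, Γ'.FiniteIndex → ∀ᶠ j in atTop, E j ≤ Γ' := by
  have hSf := hS.to_subtype
  have hfin : ∀ i : ℕ, Finite (Γ →* Equiv.Perm (Fin i)) := by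
    intro i
    apply Finite.of_injective (fun (f : Γ →* Equiv.Perm (Fin i)) (s : S) => f s)
    intro f g hfg
    apply MonoidHom.eq_of_eqOn_top
    rw [← hgen]
    apply MonoidHom.eqOn_closure
    intro s hs
    exact congrFun hfg ⟨s, hs⟩
  refine ⟨fun j => ⨅ p : (Σ i : Fin (j+1), (Γ →* Equiv.Perm (Fin i))), p.2.ker, fun j => ?_, fun j => ?_, ?_⟩
  · exact Subgroup.normal_iInf_normal fun p => inferInstance
  · apply Subgroup.finiteIndex_iInf
    intro p
    have : Finite p.2.range := inferInstance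
    have : Finite (Γ ⧸ p.2.ker) := Finite.of_equiv _ (QuotientGroup.quotientKerEquivRange p.2).symm.toEquiv
    exact Subgroup.finiteIndex_of_finite_quotient
  · intro Γ' hΓ'
    filter_upwards [eventually_ge_atTop Γ'.index] with j hj
    have e : (Γ ⧸ Γ') ≃ Fin Γ'.index := by
      have h1 : Nat.card (Γ ⧸ Γ') = Γ'.index := rfl
      exact (Finite.equivFin _).trans (finCongr h1)
    set f : Γ →* Equiv.Perm (Fin Γ'.index) := e.permCongrHom.toMonoidHom.comp (MulAction.toPermHom Γ (Γ ⧸ Γ')) with hf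
    have hker : f.ker ≤ Γ' := by
      intro g hg
      have h1 : f g = 1 := hg
      have h2 : MulAction.toPermHom Γ (Γ ⧸ Γ') g = 1 := by
        apply e.permCongrHom.injective
        rw [map_one]
        exact h1
      have h3 := congrFun (congrArg DFunLike.coe h2) ((1 : Γ) : Γ ⧸ Γ')
      have h4 : ((g * 1 : Γ) : Γ ⧸ Γ') = ((1 : Γ) : Γ ⧸ Γ') := h3
      rw [mul_one] at h4
      have h5 := QuotientGroup.eq.1 h4.symm
      simpa using h5
    exact le_trans (iInf_le (fun p : (Σ i : Fin (j+1), (Γ →* Equiv.Perm (Fin i))) => p.2.ker)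
      ⟨⟨Γ'.index, by omega⟩, f⟩) hker

/-- nontrivial elements whose conjugate lies in a given subgroup of finite index -/
theorem pigeon (H : Subgroup G) [H.FiniteIndex] (Δ : Subgroup G) [Infinite Δ] (x : G) :
    ∃ δ ∈ Δ, δ ≠ 1 ∧ x * δ * x⁻¹ ∈ H := by
  obtain ⟨d, e, hde, h⟩ := Finite.exists_ne_map_eq_of_infinite (fun d : Δ => ((x * (d : G) * x⁻¹ : G) : G ⧸ H))
  refine ⟨(d : G)⁻¹ * e, Δ.mul_mem (Δ.inv_mem d.2) e.2, fun h1 => hde (Subtype.ext ?_), ?_⟩
  · exact inv_mul_eq_one.1 h1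
  · have h2 := QuotientGroup.eq.1 h
    have h3 : (x * (d : G) * x⁻¹)⁻¹ * (x * (e : G) * x⁻¹) = x * ((d : G)⁻¹ * e) * x⁻¹ := by group
    rwa [h3] at h2

/-- from orbits to admissible subspaces -/
theorem not_almostExtends {Γ : Subgroup G} {X : Type} [MetricSpace X] [CompleteSpace X] (hX : IsCAT0 X)
    (hcn : ∀ x y : X, ∀ τ ∈ Set.Icc (0 : ℝ) 1, ∃ m : X, ∀ z : X,
      dist z m ^ 2 ≤ (1 - τ) * dist z x ^ 2 + τ * dist z y ^ 2 - τ * (1 - τ) * dist x y ^ 2)
    (ρ : Γ → X → X)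
    (hS : ∀ (Y : Type) (_ : MetricSpace Y) (φ : G → Y → Y), IsIsometricAction φ →
          (∀ y : Y, Continuous fun g : G => φ g y) →
          ∀ (x : X) (y : Y), ∃ γ : Γ, dist (ρ γ x) x ≠ dist (φ γ y) y)
    (Z : Set X) (hZ : IsAdmissible ρ Z) : ¬ AlmostExtends ρ Z := by
  rintro ⟨ρ₁, ρ₂, ha1, ha2, hcont, hbdd, hcomm, hprod⟩
  obtain ⟨z₀, hz₀⟩ := hZ.nonempty
  have : CompleteSpace Z := hZ.closed.completeSpace_coe
  have hCNZ : ∀ x y : Z, ∃ m : Z, ∀ z : Z,
      dist z m ^ 2 ≤ (dist z x ^ 2 + dist z y ^ 2) / 2 - dist x y ^ 2 / 4 := by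
    intro x y
    obtain ⟨α, hα⟩ := hX.geodesic (x : X) (y : X)
    have hmZ : α (1/2) ∈ Z := hZ.convex x x.2 y y.2 α hα (1/2) (by norm_num)
    refine ⟨⟨α (1/2), hmZ⟩, fun z => ?_⟩
    have := J6_star hcn hα (t := 1/2) (by norm_num) (z : X)
    rw [Subtype.dist_eq, Subtype.dist_eq, Subtype.dist_eq, Subtype.dist_eq]
    show dist (z : X) (α (1/2)) ^ 2 ≤ _
    linarith
  obtain ⟨z, hz⟩ := J2_fixedPoint hCNZ (actHom ρ₂ ha2.map_one ha2.map_mul ha2.isometry) ⟨z₀, hz₀⟩
    ((hbdd ⟨z₀, hz₀⟩).subset (by rintro _ ⟨γ, rfl⟩; exact ⟨γ, rfl⟩))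
  have hz' : ∀ γ : Γ, ρ₂ γ z = z := hz
  obtain ⟨γ, hγ⟩ := hS Z inferInstance ρ₁ ha1 hcont (z : X) z
  apply hγ
  rw [hprod γ z, hz' γ, Subtype.dist_eq]

/-- nontrivial elements whose conjugate lies in a given subgroup of finite index, modulo a kernel -/
theorem pigeon' {Γ Q : Type} [Group Γ] [Group Q] (q : Γ →* Q) (e : Γ →* G) (H : Subgroup G) [H.FiniteIndex]
    (Δ : Subgroup Γ) (hinf : Infinite (Δ.map q)) (x : G) :
    ∃ δ ∈ Δ, q δ ≠ 1 ∧ x * e δ * x⁻¹ ∈ H := by
  have h1 : ∀ β : Δ.map q, ∃ δ ∈ Δ, q δ = β := fun β => β.2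
  choose σ hσ1 hσ2 using h1
  obtain ⟨d, f, hdf, h⟩ := Finite.exists_ne_map_eq_of_infinite
    (fun β : Δ.map q => ((x * e (σ β) * x⁻¹ : G) : G ⧸ H))
  refine ⟨(σ d)⁻¹ * σ f, Δ.mul_mem (Δ.inv_mem (hσ1 d)) (hσ1 f), fun h1 => hdf (Subtype.ext ?_), ?_⟩
  · rw [map_mul, map_inv, hσ2, hσ2] at h1
    exact inv_mul_eq_one.1 h1
  · have h2 := QuotientGroup.eq.1 h
    have h3 : (x * e (σ d) * x⁻¹)⁻¹ * (x * e (σ f) * x⁻¹) = x * e ((σ d)⁻¹ * σ f) * x⁻¹ := by
      rw [map_mul, map_inv]; group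
    rwa [h3] at h2

theorem map_infinite {Γ Q : Type} [Group Γ] [Group Q] [Infinite Q] (q : Γ →* Q) (hq : Function.Surjective q)
    (Δ : Subgroup Γ) [hΔ : Δ.FiniteIndex] : Infinite (Δ.map q) := by
  have h1 : (Δ.map q).FiniteIndex := by
    refine ⟨fun h0 => ?_⟩
    have h2 := Subgroup.index_map_dvd Δ hq
    rw [h0, zero_dvd_iff] at h2
    exact hΔ.index_ne_zero h2
  by_contra hfin
  rw [not_infinite_iff_finite] at hfin
  have h2 := Subgroup.card_mul_index (Δ.map q)
  have h3 : Nat.card (Δ.map q) ≠ 0 := Nat.card_pos.ne'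
  have h4 : Nat.card Q ≠ 0 := by
    rw [← h2]; exact mul_ne_zero h3 h1.index_ne_zero
  have := Nat.finite_of_card_ne_zero h4
  exact not_finite Q

theorem core [T2Space G] [LocallyCompactSpace G] [SecondCountableTopology G] (hG : (dagger G).FiniteIndex)
    (Γ : Subgroup G) [DiscreteTopology Γ] [CompactSpace (G ⧸ Γ)]
    (hfg : ∃ S : Set Γ, S.Finite ∧ Subgroup.closure S = ⊤)
    {Q : Type} [Group Q] [Infinite Q] (q : Γ →* Q) (hq : Function.Surjective q)
    {T : Type} [PseudoMetricSpace T] [MulAction Q T] (t0 : T)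
    (iso : ∀ (g : Q) (x y : T), dist (g • x) (g • y) = dist x y)
    (cn : ∀ x y : T, ∀ τ ∈ Set.Icc (0 : ℝ) 1, ∃ m : T, ∀ z : T,
      dist z m ^ 2 ≤ (1 - τ) * dist z x ^ 2 + τ * dist z y ^ 2 - τ * (1 - τ) * dist x y ^ 2)
    (sys : ∀ R : ℝ, ∃ Λ : Subgroup Q, Λ.Normal ∧ Λ.FiniteIndex ∧
      ∀ l ∈ Λ, l ≠ 1 → ∀ x : T, R ≤ dist x (l • x)) : RigidityFails Γ := by
  obtain ⟨S, hS, hgen⟩ := hfg
  obtain ⟨E, En, Ef, hE⟩ := exists_virt S hS hgen
  obtain ⟨b, u, hret, hub, hclos⟩ := exists_seq Γ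
  obtain ⟨W, hW⟩ := (𝓝 (1 : G)).exists_antitone_basis
  obtain ⟨P, β, Λ', hBig, -, hrec, hΛn, hΛf, hfix⟩ := exists_space t0 iso cn sys (fun _ => ⊤)
    (fun _ => inferInstance) (fun _ => inferInstance)
    (fun k s β => ∃ γ : Γ, q γ = β ∧ γ ∈ E k ∧ ∃ n, k ≤ n ∧ (b s) ^ n * (γ : G) ∈ W k) (by
      intro k s Λ hn hf
      have := En k
      have := Ef k
      have : (Λ.comap q).FiniteIndex :=
        ⟨by rw [Subgroup.index_comap_of_surjective _ hq]; exact hf.index_ne_zero⟩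
      obtain ⟨n, hn, γ, hγ, hm⟩ := ret_lift Γ _ (hret s) (Λ.comap q ⊓ E k) (W k) (hW.1.mem_of_mem trivial) k
      exact ⟨q γ, hγ.1, γ, rfl, hγ.2, n, hn, hm⟩)
  choose γ hγβ hγE n hn hnW using hBig
  have hcn := P.X_cn
  have hX : IsCAT0 P.X := ⟨P.X_nonempty, (J6_geodesic hcn).1, comparisonC hcn⟩
  refine ⟨P.X, inferInstance, hX, inferInstance, fun γ x => q γ • x,
    ⟨fun x => by rw [map_one]; exact one_smul _ x, fun g h x => by rw [map_mul]; exact mul_smul _ _ x,
      fun g x y => P.X_dist_smul (q g) x y⟩, ?_⟩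
  intro Γ' h hfi
  have hstrong : ∀ (Y : Type) (_ : MetricSpace Y) (φ : G → Y → Y), IsIsometricAction φ →
      (∀ y : Y, Continuous fun g : G => φ g y) →
      ∀ (x : P.X) (y : Y), ∃ γ : Γ', dist (q (Subgroup.inclusion h γ) • x) x ≠ dist (φ γ y) y := by
    intro Y _ φ' hφ' hφc x₀ y
    by_contra hcon
    push Not at hcon
    set φ : G →* (Y ≃ᵢ Y) := actHom φ' hφ'.map_one hφ'.map_mul hφ'.isometry with hφ
    have hag : ∀ g : Γ, (g : G) ∈ Γ' → dist (q g • x₀) x₀ = dist (φ (g : G) y) y := by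
      intro g hg
      exact hcon ⟨g, hg⟩
    have hfixu : ∀ s, φ (u s) y = y := by
      intro s
      -- the sequence of lattice elements
      set δ : ℕ → Γ := fun j => if hj : s ≤ j then γ s j hj else 1 with hδ
      set n' : ℕ → ℕ := fun j => if hj : s ≤ j then n s j hj else j with hn'
      apply fix_con φ hφc (b s) y (fun j => (δ j : G)) n'
      · apply tendsto_atTop_mono _ tendsto_id
        intro j
        simp only [hn', id]
        split_ifs with hj
        · exact hn s j hj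
        · exact le_rfl
      · apply hW.1.tendsto_right_iff.2
        intro k _
        filter_upwards [eventually_ge_atTop k, eventually_ge_atTop s] with j hj hjs
        simp only [hδ, hn', dif_pos hjs]
        exact hW.2 hj (hnW s j hjs)
      · apply (hrec s x₀).congr'
        filter_upwards [hE _ hfi, eventually_ge_atTop s] with j hj hjs
        simp only [hδ, dif_pos hjs]
        rw [← hγβ s j hjs]
        exact hag _ (hj (hγE s j hjs))
      · exact hub s
    have hfixy : ∀ h ∈ dagger G, φ h y = y := by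
      intro h hh
      apply fixed_closure φ hφc y (Set.range u) (by rintro _ ⟨s, rfl⟩; exact hfixu s)
      have hle : dagger G ≤ (Subgroup.closure (Set.range u)).topologicalClosure := by
        apply Subgroup.topologicalClosure_minimal _ _ (Subgroup.isClosed_topologicalClosure _)
        rw [Subgroup.closure_le]
        intro v hv
        obtain ⟨a, ha⟩ := Set.mem_iUnion.1 hv
        have h1 := hclos a ha
        exact closure_minimal (fun w hw => Subgroup.le_topologicalClosure _ (Subgroup.subset_closure hw))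
          (Subgroup.isClosed_topologicalClosure _) h1
      exact hle hh
    -- a nontrivial element
    have : (Λ'.comap q).FiniteIndex :=
      ⟨by rw [Subgroup.index_comap_of_surjective _ hq]; exact hΛf.index_ne_zero⟩
    have hΔ : (Γ'.subgroupOf Γ ⊓ Λ'.comap q).FiniteIndex := inferInstance
    obtain ⟨δ, hδ, hδ1, hδ2⟩ := pigeon' q Γ.subtype (dagger G)
      (Γ'.subgroupOf Γ ⊓ Λ'.comap q) (map_infinite q hq _) 1
    have h5 := hfixy _ hδ2
    have h6 : 1 * Γ.subtype δ * 1⁻¹ = (δ : G) := by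
      show 1 * (δ : G) * 1⁻¹ = δ
      group
    rw [h6] at h5
    have h8 : q δ • x₀ = x₀ := by
      rw [← dist_eq_zero, hag δ hδ.1, h5, dist_self]
    exact hfix (q δ) hδ.2 hδ1 x₀ h8
  exact ⟨fun Z hZ => not_almostExtends hX hcn _ hstrong Z hZ, hstrong⟩

end Pool.Agent.KS6_9.SR
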