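import Pool.Agent.KS6_9.SR.Cls

/-!
# Nontrivial contraction groups

A positive definite element `p` of a closed linear group `H` which does not centralise a neighbourhood
of the identity has a nontrivial contraction group (for `p` or `p⁻¹`).
-/

set_option autoImplicit false
set_option linter.unusedSectionVars false

namespace Pool.Agent.KS6_9.SR

open Filter Topology Bac815 Matrix

variable {N : ℕ} {K : Type} [RCLike K]

/-- coordinates in the eigenbasis -/
def cc (U : unitaryGroup (Fin N) K) (M : Matrix (Fin N) (Fin N) K) : Matrix (Fin N) (Fin N) K :=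
  ((U⁻¹ : unitaryGroup (Fin N) K) : Matrix (Fin N) (Fin N) K) * M * (U : Matrix (Fin N) (Fin N) K)

theorem u_inv_mul' (U : unitaryGroup (Fin N) K) :
    ((U⁻¹ : unitaryGroup (Fin N) K) : Matrix (Fin N) (Fin N) K) * (U : Matrix (Fin N) (Fin N) K) = 1 :=
  Unitary.coe_star_mul_self U

theorem u_mul_inv' (U : unitaryGroup (Fin N) K) :
    (U : Matrix (Fin N) (Fin N) K) * ((U⁻¹ : unitaryGroup (Fin N) K) : Matrix (Fin N) (Fin N) K) = 1 :=
  Unitary.coe_mul_star_self U

theorem uncc (U : unitaryGroup (Fin N) K) (M : Matrix (Fin N) (Fin N) K) :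
    M = (U : Matrix (Fin N) (Fin N) K) * cc U M * ((U⁻¹ : unitaryGroup (Fin N) K) : Matrix (Fin N) (Fin N) K) := by
  rw [cc]
  calc M = 1 * M * 1 := by rw [one_mul, mul_one]
    _ = _ := by rw [← u_mul_inv' U]; noncomm_ring

theorem cc_one (U : unitaryGroup (Fin N) K) : cc U 1 = 1 := by
  rw [cc, mul_one, u_inv_mul']

theorem cc_conj (U : unitaryGroup (Fin N) K) (s : Fin N → ℝ) (M : Matrix (Fin N) (Fin N) K) :
    cc U (ee U s * M * ee U (-s)) = De s * cc U M * De (-s) := by
  rw [cc, cc, ee, ee]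
  calc _ = (((U⁻¹ : unitaryGroup (Fin N) K) : Matrix (Fin N) (Fin N) K) * (U : Matrix (Fin N) (Fin N) K)) * De s *
        (((U⁻¹ : unitaryGroup (Fin N) K) : Matrix (Fin N) (Fin N) K) * M * (U : Matrix (Fin N) (Fin N) K)) * De (-s) *
        (((U⁻¹ : unitaryGroup (Fin N) K) : Matrix (Fin N) (Fin N) K) * (U : Matrix (Fin N) (Fin N) K)) := by noncomm_ring
    _ = _ := by rw [u_inv_mul', one_mul, mul_one]

theorem De_conj_apply (s : Fin N → ℝ) (C : Matrix (Fin N) (Fin N) K) (a b : Fin N) :
    (De s * C * De (-s) : Matrix (Fin N) (Fin N) K) a b = ((Real.exp (s a - s b) : ℝ) : K) * C a b := by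
  rw [De, De, Matrix.mul_diagonal, Matrix.diagonal_mul, Pi.neg_apply, Real.exp_sub, Real.exp_neg]
  push_cast
  have : ((Real.exp (s b) : ℝ) : K) ≠ 0 := by
    have := (Real.exp_pos (s b)).ne'
    exact_mod_cast this
  field_simp

theorem cc_bound (U : unitaryGroup (Fin N) K) (M : Matrix (Fin N) (Fin N) K) (B : ℝ)
    (h : ∀ a b, ‖cc U M a b‖ ≤ B) (a b : Fin N) : ‖M a b‖ ≤ N * (N * B) := by
  rw [uncc U M, Matrix.mul_apply]
  have hB : 0 ≤ B := (norm_nonneg _).trans (h a b)
  refine (norm_sum_le _ _).trans ?_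
  calc _ ≤ ∑ _c : Fin N, (N * B) := by
        refine Finset.sum_le_sum fun c _ => ?_
        rw [norm_mul]
        have h1 : ‖((U : Matrix (Fin N) (Fin N) K) * cc U M) a c‖ ≤ N * B := by
          rw [Matrix.mul_apply]
          refine (norm_sum_le _ _).trans ?_
          calc _ ≤ ∑ _d : Fin N, B := by
                refine Finset.sum_le_sum fun d _ => ?_
                rw [norm_mul]
                calc _ ≤ 1 * B := by
                      gcongr
                      · exact entry_norm_bound_of_unitary U.2 a d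
                      · exact h d c
                  _ = B := one_mul _
            _ = N * B := by rw [Finset.sum_const, Finset.card_univ, Fintype.card_fin, nsmul_eq_mul]
        have h2 : ‖((U⁻¹ : unitaryGroup (Fin N) K) : Matrix (Fin N) (Fin N) K) c b‖ ≤ 1 :=
          entry_norm_bound_of_unitary (U⁻¹).2 c b
        calc _ ≤ (N * B) * 1 := by gcongr
          _ = _ := mul_one _
    _ = N * (N * B) := by rw [Finset.sum_const, Finset.card_univ, Fintype.card_fin, nsmul_eq_mul]

theorem continuous_cc (U : unitaryGroup (Fin N) K) : Continuous (cc U) :=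
  (continuous_const.mul continuous_id).mul continuous_const

/-- powers of a positive definite element -/
theorem coe_pow_ee (H : Subgroup (SpecialLinearGroup (Fin N) K)) (p : H) (U : unitaryGroup (Fin N) K)
    (s : Fin N → ℝ) (hp : ((p : SpecialLinearGroup (Fin N) K) : Matrix (Fin N) (Fin N) K) = ee U s) (m : ℕ) :
    (((p ^ m : H) : SpecialLinearGroup (Fin N) K) : Matrix (Fin N) (Fin N) K) = ee U ((m : ℝ) • s) := by
  induction m with
  | zero =>
    rw [pow_zero, Nat.cast_zero, zero_smul, ee_zero]; rfl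
  | succ m ih =>
    rw [pow_succ, Subgroup.coe_mul, Matrix.SpecialLinearGroup.coe_mul, ih, hp, ee_mul]
    congr 1
    push_cast
    module

theorem coe_inv_ee (H : Subgroup (SpecialLinearGroup (Fin N) K)) (p : H) (U : unitaryGroup (Fin N) K)
    (s : Fin N → ℝ) (hp : ((p : SpecialLinearGroup (Fin N) K) : Matrix (Fin N) (Fin N) K) = ee U s) :
    (((p⁻¹ : H) : SpecialLinearGroup (Fin N) K) : Matrix (Fin N) (Fin N) K) = ee U (-s) := by
  have h1 : (((p⁻¹ : H) : SpecialLinearGroup (Fin N) K) : Matrix (Fin N) (Fin N) K) * ee U s = 1 := by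
    rw [← hp, ← Matrix.SpecialLinearGroup.coe_mul, ← Subgroup.coe_mul, inv_mul_cancel]; rfl
  calc _ = (((p⁻¹ : H) : SpecialLinearGroup (Fin N) K) : Matrix (Fin N) (Fin N) K) * (ee U s * ee U (-s)) := by
        rw [ee_mul_neg, mul_one]
    _ = _ := by rw [← mul_assoc, h1, one_mul]

/-- coordinates of conjugates -/
theorem cc_pow_conj (H : Subgroup (SpecialLinearGroup (Fin N) K)) (p : H) (U : unitaryGroup (Fin N) K)
    (s : Fin N → ℝ) (hp : ((p : SpecialLinearGroup (Fin N) K) : Matrix (Fin N) (Fin N) K) = ee U s) (m : ℕ)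
    (h : H) (a b : Fin N) :
    cc U (((p ^ m * h * (p ^ m)⁻¹ : H) : SpecialLinearGroup (Fin N) K) : Matrix (Fin N) (Fin N) K) a b =
      ((Real.exp (m * (s a - s b)) : ℝ) : K) *
        cc U ((h : SpecialLinearGroup (Fin N) K) : Matrix (Fin N) (Fin N) K) a b := by
  have h1 := coe_pow_ee H p U s hp m
  rw [Subgroup.coe_mul, Subgroup.coe_mul, Matrix.SpecialLinearGroup.coe_mul, Matrix.SpecialLinearGroup.coe_mul,
    coe_inv_ee H (p ^ m) U _ h1, h1, cc_conj, De_conj_apply]
  congr 4
  simp only [Pi.smul_apply, smul_eq_mul]; ring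

/-- convergence can be tested in coordinates -/
theorem tendsto_of_cc (H : Subgroup (SpecialLinearGroup (Fin N) K)) (U : unitaryGroup (Fin N) K) {J : Type}
    (l : Filter J) (x : J → H)
    (h : ∀ a b, Tendsto (fun j => cc U ((x j : SpecialLinearGroup (Fin N) K) : Matrix (Fin N) (Fin N) K) a b) l
      (𝓝 ((1 : Matrix (Fin N) (Fin N) K) a b))) : Tendsto x l (𝓝 1) := by
  rw [tendsto_subtype_rng]
  have h1 : Tendsto (fun j => ((x j : SpecialLinearGroup (Fin N) K) : Matrix (Fin N) (Fin N) K)) l (𝓝 1) := by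
    have h2 : Tendsto (fun j => cc U ((x j : SpecialLinearGroup (Fin N) K) : Matrix (Fin N) (Fin N) K)) l (𝓝 1) := by
      exact tendsto_pi_nhds.2 fun a => tendsto_pi_nhds.2 fun b => h a b
    have h3 : Continuous fun C : Matrix (Fin N) (Fin N) K => (U : Matrix (Fin N) (Fin N) K) * C *
        ((U⁻¹ : unitaryGroup (Fin N) K) : Matrix (Fin N) (Fin N) K) :=
      (continuous_const.mul continuous_id).mul continuous_const
    have h4 := (h3.tendsto 1).comp h2
    rw [mul_one, u_mul_inv'] at h4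
    refine h4.congr fun j => ?_
    exact (uncc U _).symm
  exact (Matrix.SpecialLinearGroup.isClosedEmbedding_val (n := Fin N) (R := K)).isInducing.tendsto_nhds_iff.2 h1

theorem con_aux (H : Subgroup (SpecialLinearGroup (Fin N) K)) (hcl : IsClosed (H : Set (SpecialLinearGroup (Fin N) K)))
    (p : H) (U : unitaryGroup (Fin N) K) (s : Fin N → ℝ)
    (hp : ((p : SpecialLinearGroup (Fin N) K) : Matrix (Fin N) (Fin N) K) = ee U s)
    (𝒰 : Ultrafilter ℕ) (h : ℕ → H) (hlim : Tendsto h 𝒰 (𝓝 1))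
    (hP : ∀ᶠ k in 𝒰, ∃ a b, s b < s a ∧ cc U ((h k : SpecialLinearGroup (Fin N) K) : Matrix (Fin N) (Fin N) K) a b ≠ 0)
    (M : Subgroup H) (hM : M.Normal) (hMc : IsClosed (M : Set H)) (hhM : ∀ k, h k ∈ M) :
    ∃ u : H, u ≠ 1 ∧ u ∈ con p⁻¹ ∧ u ∈ M ∧ ∀ a b, s a ≤ s b →
      cc U ((u : SpecialLinearGroup (Fin N) K) : Matrix (Fin N) (Fin N) K) a b = (1 : Matrix (Fin N) (Fin N) K) a b := by
  classical
  set c : H → Fin N → Fin N → K := fun g a b => cc U ((g : SpecialLinearGroup (Fin N) K) : Matrix (Fin N) (Fin N) K) a b with hc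
  have hcc : ∀ a b, Continuous fun g : H => c g a b := by
    intro a b
    have h1 : Continuous fun g : H => cc U ((g : SpecialLinearGroup (Fin N) K) : Matrix (Fin N) (Fin N) K) :=
      (continuous_cc U).comp (continuous_subtype_val.comp continuous_subtype_val)
    exact h1.matrix_elem a b
  have hc1 : ∀ a b, c 1 a b = (1 : Matrix (Fin N) (Fin N) K) a b := by
    intro a b
    show cc U (1 : Matrix (Fin N) (Fin N) K) a b = _
    rw [cc_one]
  set I : Finset (Fin N × Fin N) := Finset.univ.filter fun q => s q.2 < s q.1 with hI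
  set f : ℕ → ℕ → ℝ := fun k m => ∑ q ∈ I, Real.exp (m * (s q.1 - s q.2)) * ‖c (h k) q.1 q.2‖ with hf
  set D : ℝ := ∑ q : Fin N × Fin N, |s q.1 - s q.2| with hD
  have hDle : ∀ a b, s a - s b ≤ D := fun a b => (le_abs_self _).trans
    (Finset.single_le_sum (f := fun q : Fin N × Fin N => |s q.1 - s q.2|) (fun _ _ => abs_nonneg _)
      (Finset.mem_univ (a, b)))
  -- growth
  have hstep : ∀ k m, f k (m+1) ≤ Real.exp D * f k m := by
    intro k m
    rw [hf]
    simp only
    rw [Finset.mul_sum]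
    refine Finset.sum_le_sum fun q hq => ?_
    have e1 : Real.exp (((m + 1 : ℕ) : ℝ) * (s q.1 - s q.2)) =
        Real.exp (s q.1 - s q.2) * Real.exp ((m : ℝ) * (s q.1 - s q.2)) := by
      rw [← Real.exp_add]; congr 1; push_cast; ring
    rw [e1, mul_assoc]
    have h2 := Real.exp_le_exp.2 (hDle q.1 q.2)
    gcongr
  have h0 : Tendsto (fun k => f k 0) 𝒰 (𝓝 0) := by
    have : Tendsto (fun k => f k 0) 𝒰 (𝓝 (∑ q ∈ I, Real.exp (((0:ℕ) : ℝ) * (s q.1 - s q.2)) * ‖(1 : Matrix (Fin N) (Fin N) K) q.1 q.2‖)) := by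
      refine tendsto_finsetSum _ fun q _ => ?_
      refine Tendsto.const_mul _ ?_
      rw [← hc1]
      exact ((hcc q.1 q.2).norm.tendsto 1).comp hlim
    have e : (∑ q ∈ I, Real.exp (((0:ℕ) : ℝ) * (s q.1 - s q.2)) * ‖(1 : Matrix (Fin N) (Fin N) K) q.1 q.2‖) = 0 := by
      refine Finset.sum_eq_zero fun q hq => ?_
      have h1 : s q.2 < s q.1 := (Finset.mem_filter.1 hq).2
      have h2 : q.1 ≠ q.2 := by
        intro h; rw [h] at h1; exact lt_irrefl _ h1
      rw [Matrix.one_apply_ne h2, norm_zero, mul_zero]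
    rwa [e] at this
  have hbig : ∀ k, (∃ a b, s b < s a ∧ c (h k) a b ≠ 0) → ∃ m, 1 ≤ f k m := by
    rintro k ⟨a, b, hab, hne⟩
    have hpos : 0 < ‖c (h k) a b‖ := norm_pos_iff.2 hne
    have hgap : 0 < s a - s b := by linarith
    have ht : Tendsto (fun m : ℕ => Real.exp ((m : ℝ) * (s a - s b)) * ‖c (h k) a b‖) atTop atTop := by
      apply Tendsto.atTop_mul_const hpos
      exact Real.tendsto_exp_atTop.comp (tendsto_natCast_atTop_atTop.atTop_mul_const hgap)
    obtain ⟨m, hm⟩ := (ht.eventually_ge_atTop 1).exists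
    refine ⟨m, hm.trans ?_⟩
    exact Finset.single_le_sum (f := fun q : Fin N × Fin N => Real.exp (m * (s q.1 - s q.2)) * ‖c (h k) q.1 q.2‖)
      (fun _ _ => by positivity) (Finset.mem_filter.2 ⟨Finset.mem_univ (a, b), hab⟩)
  -- the first time
  set mk : ℕ → ℕ := fun k => if hk : ∃ m, 1 ≤ f k m then Nat.find hk else 0 with hmk
  have hgood : ∀ᶠ k in (𝒰 : Filter ℕ), 1 ≤ f k (mk k) ∧ f k (mk k) ≤ Real.exp D := by
    filter_upwards [hP, h0.eventually (gt_mem_nhds one_pos)] with k hk hk0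
    have hex := hbig k hk
    have e1 : mk k = Nat.find hex := by simp only [hmk, dif_pos hex]
    rw [e1]
    have h1 := Nat.find_spec hex
    refine ⟨h1, ?_⟩
    obtain ⟨m, hm⟩ : ∃ m, Nat.find hex = m + 1 := by
      rcases Nat.eq_zero_or_pos (Nat.find hex) with h2 | h2
      · rw [h2] at h1; linarith
      · exact ⟨Nat.find hex - 1, by omega⟩
    have h3 : f k m < 1 := by
      have := Nat.find_min hex (m := m) (by omega)
      exact not_le.1 this
    rw [hm]
    calc f k (m+1) ≤ Real.exp D * f k m := hstep k m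
      _ ≤ Real.exp D * 1 := by gcongr
      _ = Real.exp D := mul_one _
  -- the conjugates
  set g : ℕ → H := fun k => p ^ (mk k) * h k * (p ^ (mk k))⁻¹ with hg
  have hcg : ∀ k a b, c (g k) a b = ((Real.exp (mk k * (s a - s b)) : ℝ) : K) * c (h k) a b := fun k a b =>
    cc_pow_conj H p U s hp (mk k) (h k) a b
  have hncg : ∀ k a b, ‖c (g k) a b‖ = Real.exp (mk k * (s a - s b)) * ‖c (h k) a b‖ := by
    intro k a b
    rw [hcg, norm_mul, RCLike.norm_ofReal, abs_of_pos (Real.exp_pos _)]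
  have hlimc : ∀ a b, Tendsto (fun k => c (h k) a b) 𝒰 (𝓝 ((1 : Matrix (Fin N) (Fin N) K) a b)) := by
    intro a b
    rw [← hc1]
    exact ((hcc a b).tendsto 1).comp hlim
  have hle : ∀ a b, s a ≤ s b → Tendsto (fun k => c (g k) a b) 𝒰 (𝓝 ((1 : Matrix (Fin N) (Fin N) K) a b)) := by
    intro a b hab
    rcases eq_or_ne a b with rfl | hne
    · refine (hlimc a a).congr fun k => ?_
      rw [hcg, sub_self, mul_zero, Real.exp_zero]; simp
    · rw [Matrix.one_apply_ne hne]
      have h1 : Tendsto (fun k => ‖c (h k) a b‖) 𝒰 (𝓝 0) := by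
        have := (hlimc a b).norm
        rwa [Matrix.one_apply_ne hne, norm_zero] at this
      apply squeeze_zero_norm (fun k => ?_) h1
      rw [hncg]
      have h2 : Real.exp (mk k * (s a - s b)) ≤ 1 := by
        apply Real.exp_le_one_iff.2
        have : s a - s b ≤ 0 := by linarith
        exact mul_nonpos_of_nonneg_of_nonpos (by positivity) this
      calc _ ≤ 1 * ‖c (h k) a b‖ := by gcongr
        _ = _ := one_mul _
  set B : ℝ := max (Real.exp D) 2 with hB
  have hbdd : ∀ᶠ k in (𝒰 : Filter ℕ), ∀ a b, ‖c (g k) a b‖ ≤ B := by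
    have h1 : ∀ q : Fin N × Fin N, ∀ᶠ k in (𝒰 : Filter ℕ), ‖c (g k) q.1 q.2‖ ≤ B := by
      rintro ⟨a, b⟩
      rcases le_or_gt (s a) (s b) with hab | hab
      · have h2 := (hle a b hab).norm
        have h3 : ‖(1 : Matrix (Fin N) (Fin N) K) a b‖ < 2 := by
          rw [Matrix.one_apply]
          split_ifs <;> simp
        filter_upwards [h2.eventually (gt_mem_nhds h3)] with k hk
        exact hk.le.trans (le_max_right _ _)
      · filter_upwards [hgood] with k hk
        refine le_trans ?_ (hk.2.trans (le_max_left _ _))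
        rw [hncg]
        exact Finset.single_le_sum (f := fun q : Fin N × Fin N => Real.exp (mk k * (s q.1 - s q.2)) * ‖c (h k) q.1 q.2‖)
          (fun _ _ => by positivity) (Finset.mem_filter.2 ⟨Finset.mem_univ (a, b), hab⟩)
    have h2 := Filter.eventually_all.2 h1
    filter_upwards [h2] with k hk a b
    exact hk (a, b)
  -- the limit
  have hemb := hcl.isClosedEmbedding_subtypeVal
  have hcomp : IsCompact ((fun g : H => (g : SpecialLinearGroup (Fin N) K)) ⁻¹' {g : SpecialLinearGroup (Fin N) K |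
      ∀ a b, ‖(g : Matrix (Fin N) (Fin N) K) a b‖ ≤ N * (N * B)}) := hemb.isCompact_preimage (isCompact_SL _)
  obtain ⟨u, -, hu⟩ := hcomp.ultrafilter_le_nhds (𝒰.map g) (by
    rw [Ultrafilter.coe_map, le_principal_iff, Filter.mem_map]
    filter_upwards [hbdd] with k hk a b
    exact cc_bound U _ B hk a b)
  have hgu : Tendsto g 𝒰 (𝓝 u) := hu
  have hcu : ∀ a b, Tendsto (fun k => c (g k) a b) 𝒰 (𝓝 (c u a b)) := fun a b => ((hcc a b).tendsto u).comp hgu
  have hcule : ∀ a b, s a ≤ s b → c u a b = (1 : Matrix (Fin N) (Fin N) K) a b := fun a b hab =>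
    tendsto_nhds_unique (hcu a b) (hle a b hab)
  refine ⟨u, ?_, ?_, hMc.mem_of_tendsto hgu (Filter.Eventually.of_forall fun k => hM.conj_mem _ (hhM k) _), hcule⟩
  · rintro rfl
    have h1 : Tendsto (fun k => ∑ q ∈ I, ‖c (g k) q.1 q.2‖) 𝒰 (𝓝 (∑ q ∈ I, ‖c 1 q.1 q.2‖)) :=
      tendsto_finsetSum _ fun q _ => (hcu q.1 q.2).norm
    have h2 : ∑ q ∈ I, ‖c 1 q.1 q.2‖ = 0 := by
      refine Finset.sum_eq_zero fun q hq => ?_
      have h1 : s q.2 < s q.1 := (Finset.mem_filter.1 hq).2
      have h2 : q.1 ≠ q.2 := by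
        intro h; rw [h] at h1; exact lt_irrefl _ h1
      rw [hc1, Matrix.one_apply_ne h2, norm_zero]
    rw [h2] at h1
    have h3 : ∀ᶠ k in (𝒰 : Filter ℕ), (1:ℝ) ≤ ∑ q ∈ I, ‖c (g k) q.1 q.2‖ := by
      filter_upwards [hgood] with k hk
      refine hk.1.trans (le_of_eq ?_)
      exact Finset.sum_congr rfl fun q _ => (hncg k q.1 q.2).symm
    have := ge_of_tendsto h1 h3
    linarith
  · show Tendsto _ _ _
    apply tendsto_of_cc H U
    intro a b
    have hpi := coe_inv_ee H p U s hp
    have h1 : ∀ n : ℕ, cc U ((((p⁻¹) ^ n * u * ((p⁻¹) ^ n)⁻¹ : H) : SpecialLinearGroup (Fin N) K) : Matrix (Fin N) (Fin N) K) a b =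
        ((Real.exp (n * (s b - s a)) : ℝ) : K) * c u a b := by
      intro n
      rw [cc_pow_conj H p⁻¹ U (-s) hpi n u a b]
      congr 4
      simp only [Pi.neg_apply]; ring
    simp only [h1]
    rcases le_or_gt (s a) (s b) with hab | hab
    · rw [hcule a b hab]
      rcases eq_or_ne a b with rfl | hne
      · have : (fun n : ℕ => ((Real.exp (n * (s a - s a)) : ℝ) : K) * (1 : Matrix (Fin N) (Fin N) K) a a) =
            fun _ => (1 : Matrix (Fin N) (Fin N) K) a a := by
          funext n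
          rw [sub_self, mul_zero, Real.exp_zero]; simp
        rw [this]; exact tendsto_const_nhds
      · rw [Matrix.one_apply_ne hne]
        simp only [mul_zero]
        exact tendsto_const_nhds
    · have hne : a ≠ b := by
        intro h; rw [h] at hab; exact lt_irrefl _ hab
      rw [Matrix.one_apply_ne hne]
      have h2 : Tendsto (fun n : ℕ => Real.exp (-((n : ℝ) * (s a - s b))) * ‖c u a b‖) atTop (𝓝 0) := by
        have h3 : Tendsto (fun n : ℕ => (n : ℝ) * (s a - s b)) atTop atTop :=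
          tendsto_natCast_atTop_atTop.atTop_mul_const (by linarith)
        have := ((Real.tendsto_exp_neg_atTop_nhds_zero).comp h3).mul_const ‖c u a b‖
        rw [zero_mul] at this
        exact this
      apply squeeze_zero_norm (fun n => ?_) h2
      rw [norm_mul, RCLike.norm_ofReal, abs_of_pos (Real.exp_pos _)]
      apply le_of_eq
      congr 2
      ring

end Pool.Agent.KS6_9.SR
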