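import Mathlib

/-!
# The exponential metric increasing property, elementary

Matrices over `𝕜 = ℝ` or `ℂ`. `ee U s = U diag(exp s) U*`, `hh U s = U diag(s) U*`. The local
inequality `2 n + 4 |K - H|² ≤ |exp(-H) exp K|² + |exp(-K) exp H|²` (Hilbert-Schmidt norms), summed
along a geodesic, gives `|K - H| ≤ |log |exp(-H) exp K||`.
-/

set_option autoImplicit false
set_option linter.unusedSectionVars false

namespace Pool.Agent.KS6_9.SR

open Matrix Finset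

variable {𝕜 : Type} [RCLike 𝕜] {m : Type} [Fintype m] [DecidableEq m]

/-- the square of the Hilbert-Schmidt norm -/
def HS (A : Matrix m m 𝕜) : ℝ := ∑ i, ∑ j, ‖A i j‖ ^ 2

theorem HS_nonneg (A : Matrix m m 𝕜) : 0 ≤ HS A :=
  Finset.sum_nonneg fun _ _ => Finset.sum_nonneg fun _ _ => by positivity

theorem HS_eq (A : Matrix m m 𝕜) : ((HS A : ℝ) : 𝕜) = (Aᴴ * A).trace := by
  rw [HS, Matrix.trace]
  simp only [Matrix.diag, Matrix.mul_apply, conjTranspose_apply]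
  rw [Finset.sum_comm]
  push_cast
  refine Finset.sum_congr rfl fun j _ => Finset.sum_congr rfl fun i _ => ?_
  rw [← RCLike.conj_mul]; rfl

theorem HS_inj {A B : Matrix m m 𝕜} (h : (Aᴴ * A).trace = (Bᴴ * B).trace) : HS A = HS B := by
  rw [← HS_eq, ← HS_eq] at h
  exact_mod_cast h

theorem HS_zero_iff (A : Matrix m m 𝕜) (h : HS A ≤ 0) : A = 0 := by
  have h0 : HS A = 0 := le_antisymm h (HS_nonneg A)
  ext i j
  have h1 := (Finset.sum_eq_zero_iff_of_nonneg (fun i _ =>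
    Finset.sum_nonneg fun j _ => by positivity)).1 h0 i (Finset.mem_univ _)
  have h2 := (Finset.sum_eq_zero_iff_of_nonneg (fun j _ => by positivity)).1 h1 j (Finset.mem_univ _)
  simpa using h2

theorem HS_umul (U : unitaryGroup m 𝕜) (A : Matrix m m 𝕜) : HS ((U : Matrix m m 𝕜) * A) = HS A := by
  apply HS_inj
  have h : (U : Matrix m m 𝕜)ᴴ * (U : Matrix m m 𝕜) = 1 := Unitary.coe_star_mul_self U
  rw [conjTranspose_mul, mul_assoc, ← mul_assoc _ (U : Matrix m m 𝕜) A, h, one_mul]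

theorem HS_mulu (U : unitaryGroup m 𝕜) (A : Matrix m m 𝕜) : HS (A * (U : Matrix m m 𝕜)) = HS A := by
  apply HS_inj
  have h : (U : Matrix m m 𝕜) * (U : Matrix m m 𝕜)ᴴ = 1 := Unitary.coe_mul_star_self U
  rw [conjTranspose_mul, mul_assoc, Matrix.trace_mul_comm, mul_assoc, mul_assoc, h, mul_one]

theorem HS_one : HS (1 : Matrix m m 𝕜) = Fintype.card m := by
  have h := HS_eq (1 : Matrix m m 𝕜)
  rw [conjTranspose_one, mul_one, Matrix.trace_one] at h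
  exact_mod_cast h

theorem HS_unit (U : unitaryGroup m 𝕜) : HS (U : Matrix m m 𝕜) = Fintype.card m := by
  have := HS_umul U (1 : Matrix m m 𝕜)
  rwa [mul_one, HS_one] at this

theorem sqrt_HS (A : Matrix m m 𝕜) :
    √(HS A) = ‖(WithLp.toLp 2 (fun p : m × m => A p.1 p.2) : EuclideanSpace 𝕜 (m × m))‖ := by
  rw [EuclideanSpace.norm_eq, HS, Fintype.sum_prod_type]

theorem HS_triangle (A B : Matrix m m 𝕜) : √(HS (A + B)) ≤ √(HS A) + √(HS B) := by
  rw [sqrt_HS, sqrt_HS, sqrt_HS]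
  exact norm_add_le (WithLp.toLp 2 (fun p : m × m => A p.1 p.2) : EuclideanSpace 𝕜 (m × m))
    (WithLp.toLp 2 (fun p : m × m => B p.1 p.2) : EuclideanSpace 𝕜 (m × m))

/-- real diagonal matrices -/
def Dd (s : m → ℝ) : Matrix m m 𝕜 := diagonal fun i => ((s i : ℝ) : 𝕜)

/-- exponentials of real diagonal matrices -/
noncomputable def De (s : m → ℝ) : Matrix m m 𝕜 := diagonal fun i => ((Real.exp (s i) : ℝ) : 𝕜)

theorem De_mul (s t : m → ℝ) : (De s : Matrix m m 𝕜) * De t = De (s + t) := by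
  rw [De, De, De, diagonal_mul_diagonal]
  congr 1
  ext i
  rw [Pi.add_apply, Real.exp_add]
  push_cast
  rfl

theorem De_zero : (De (0 : m → ℝ) : Matrix m m 𝕜) = 1 := by
  simp [De]

theorem De_conj (s : m → ℝ) : (De s : Matrix m m 𝕜)ᴴ = De s := by
  rw [De, diagonal_conjTranspose]
  congr 1
  ext i
  simp

theorem Dd_conj (s : m → ℝ) : (Dd s : Matrix m m 𝕜)ᴴ = Dd s := by
  rw [Dd, diagonal_conjTranspose]
  congr 1
  ext i
  simp

theorem De_det (s : m → ℝ) : (De s : Matrix m m 𝕜).det = ((Real.exp (∑ i, s i) : ℝ) : 𝕜) := by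
  rw [De, det_diagonal, Real.exp_sum]
  push_cast
  rfl

/-- `U diag(s) U*` -/
noncomputable def hh (U : unitaryGroup m 𝕜) (s : m → ℝ) : Matrix m m 𝕜 :=
  (U : Matrix m m 𝕜) * Dd s * ((U⁻¹ : unitaryGroup m 𝕜) : Matrix m m 𝕜)

/-- `U diag(exp s) U*` -/
noncomputable def ee (U : unitaryGroup m 𝕜) (s : m → ℝ) : Matrix m m 𝕜 :=
  (U : Matrix m m 𝕜) * De s * ((U⁻¹ : unitaryGroup m 𝕜) : Matrix m m 𝕜)

theorem u_inv_mul (U : unitaryGroup m 𝕜) :
    ((U⁻¹ : unitaryGroup m 𝕜) : Matrix m m 𝕜) * (U : Matrix m m 𝕜) = 1 :=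
  Unitary.coe_star_mul_self U

theorem u_mul_inv (U : unitaryGroup m 𝕜) :
    (U : Matrix m m 𝕜) * ((U⁻¹ : unitaryGroup m 𝕜) : Matrix m m 𝕜) = 1 :=
  Unitary.coe_mul_star_self U

theorem ee_mul (U : unitaryGroup m 𝕜) (s t : m → ℝ) : ee U s * ee U t = ee U (s + t) := by
  have h := u_inv_mul U
  rw [ee, ee, ee, ← De_mul]
  calc _ = (U : Matrix m m 𝕜) * De s * (((U⁻¹ : unitaryGroup m 𝕜) : Matrix m m 𝕜) *
        (U : Matrix m m 𝕜)) * De t * ((U⁻¹ : unitaryGroup m 𝕜) : Matrix m m 𝕜) := by noncomm_ring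
    _ = _ := by rw [h]; noncomm_ring

theorem ee_zero (U : unitaryGroup m 𝕜) : ee U (0 : m → ℝ) = (1 : Matrix m m 𝕜) := by
  rw [ee, De_zero, mul_one, u_mul_inv]

theorem ee_neg_mul (U : unitaryGroup m 𝕜) (s : m → ℝ) : ee U (-s) * ee U s = (1 : Matrix m m 𝕜) := by
  rw [ee_mul, neg_add_cancel, ee_zero]

theorem ee_mul_neg (U : unitaryGroup m 𝕜) (s : m → ℝ) : ee U s * ee U (-s) = (1 : Matrix m m 𝕜) := by
  rw [ee_mul, add_neg_cancel, ee_zero]

theorem hh_neg (U : unitaryGroup m 𝕜) (s : m → ℝ) : hh U (-s) = -(hh U s : Matrix m m 𝕜) := by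
  have : (Dd (-s) : Matrix m m 𝕜) = -Dd s := by
    ext i j
    by_cases h : i = j
    · subst h; simp [Dd]
    · simp [Dd, h]
  rw [hh, hh, this]
  noncomm_ring

theorem hh_smul (U : unitaryGroup m 𝕜) (c : ℝ) (s : m → ℝ) :
    hh U (c • s) = ((c : 𝕜) • hh U s : Matrix m m 𝕜) := by
  have : (Dd (c • s) : Matrix m m 𝕜) = (c : 𝕜) • Dd s := by
    ext i j
    by_cases h : i = j
    · subst h; simp [Dd]
    · simp [Dd, h]
  rw [hh, hh, this, Matrix.mul_smul, Matrix.smul_mul]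

theorem HS_Dd (s : m → ℝ) : HS (Dd s : Matrix m m 𝕜) = ∑ i, s i ^ 2 := by
  rw [HS]
  refine Finset.sum_congr rfl fun i _ => ?_
  rw [Finset.sum_eq_single i]
  · rw [Dd, diagonal_apply_eq, RCLike.norm_ofReal, sq_abs]
  · intro j _ hj
    rw [Dd, diagonal_apply_ne _ hj.symm]
    simp
  · intro h; exact absurd (Finset.mem_univ i) h

theorem HS_De (s : m → ℝ) : HS (De s : Matrix m m 𝕜) = ∑ i, Real.exp (2 * s i) := by
  have h := HS_Dd (𝕜 := 𝕜) fun i => Real.exp (s i)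
  have e : (Dd (fun i => Real.exp (s i)) : Matrix m m 𝕜) = De s := rfl
  rw [← e, h]
  refine Finset.sum_congr rfl fun i _ => ?_
  rw [← Real.exp_nat_mul]
  norm_num

theorem HS_hh (U : unitaryGroup m 𝕜) (s : m → ℝ) : HS (hh U s) = ∑ i, s i ^ 2 := by
  rw [hh, HS_mulu, HS_umul, HS_Dd]

theorem HS_ee (U : unitaryGroup m 𝕜) (s : m → ℝ) : HS (ee U s) = ∑ i, Real.exp (2 * s i) := by
  rw [ee, HS_mulu, HS_umul, HS_De]

/-- the Hilbert-Schmidt norm of the product of two exponentials -/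
theorem HS_ee_mul (U V : unitaryGroup m 𝕜) (α β : m → ℝ) :
    HS (ee U (-α) * ee V β) =
      ∑ i, ∑ j, ‖((U⁻¹ * V : unitaryGroup m 𝕜) : Matrix m m 𝕜) i j‖ ^ 2 * Real.exp (2 * (β j - α i)) := by
  have e : ee U (-α) * ee V β = (U : Matrix m m 𝕜) *
      (De (-α) * ((U⁻¹ * V : unitaryGroup m 𝕜) : Matrix m m 𝕜) * De β) *
        ((V⁻¹ : unitaryGroup m 𝕜) : Matrix m m 𝕜) := by
    rw [ee, ee]
    show _ = (U : Matrix m m 𝕜) * (De (-α) * (((U⁻¹ : unitaryGroup m 𝕜) : Matrix m m 𝕜) * (V : Matrix m m 𝕜)) * De β) * _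
    noncomm_ring
  rw [e, HS_mulu, HS_umul, HS]
  refine Finset.sum_congr rfl fun i _ => Finset.sum_congr rfl fun j _ => ?_
  rw [De, De, mul_diagonal, diagonal_mul, norm_mul, norm_mul, RCLike.norm_ofReal, RCLike.norm_ofReal,
    abs_of_pos (Real.exp_pos _), abs_of_pos (Real.exp_pos _)]
  have h : Real.exp (2 * (β j - α i)) = Real.exp ((-α) i) ^ 2 * Real.exp (β j) ^ 2 := by
    rw [← Real.exp_nat_mul, ← Real.exp_nat_mul, ← Real.exp_add]
    congr 1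
    rw [Pi.neg_apply]
    push_cast
    ring
  rw [h]; ring

theorem HS_hh_sub (U V : unitaryGroup m 𝕜) (α β : m → ℝ) :
    HS (hh V β - hh U α) =
      ∑ i, ∑ j, ‖((U⁻¹ * V : unitaryGroup m 𝕜) : Matrix m m 𝕜) i j‖ ^ 2 * (β j - α i) ^ 2 := by
  have e : hh V β - hh U α = (U : Matrix m m 𝕜) *
      (((U⁻¹ * V : unitaryGroup m 𝕜) : Matrix m m 𝕜) * Dd β -
        Dd α * ((U⁻¹ * V : unitaryGroup m 𝕜) : Matrix m m 𝕜)) *
        ((V⁻¹ : unitaryGroup m 𝕜) : Matrix m m 𝕜) := by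
    rw [hh, hh]
    show _ = (U : Matrix m m 𝕜) * ((((U⁻¹ : unitaryGroup m 𝕜) : Matrix m m 𝕜) * (V : Matrix m m 𝕜)) * Dd β
      - Dd α * (((U⁻¹ : unitaryGroup m 𝕜) : Matrix m m 𝕜) * (V : Matrix m m 𝕜))) * _
    have h1 := u_mul_inv U
    have h2 := u_mul_inv V
    calc (V : Matrix m m 𝕜) * Dd β * ((V⁻¹ : unitaryGroup m 𝕜) : Matrix m m 𝕜) -
          (U : Matrix m m 𝕜) * Dd α * ((U⁻¹ : unitaryGroup m 𝕜) : Matrix m m 𝕜)
        = ((U : Matrix m m 𝕜) * ((U⁻¹ : unitaryGroup m 𝕜) : Matrix m m 𝕜)) * (V : Matrix m m 𝕜) * Dd β *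
            ((V⁻¹ : unitaryGroup m 𝕜) : Matrix m m 𝕜) -
          (U : Matrix m m 𝕜) * Dd α * ((U⁻¹ : unitaryGroup m 𝕜) : Matrix m m 𝕜) *
            ((V : Matrix m m 𝕜) * ((V⁻¹ : unitaryGroup m 𝕜) : Matrix m m 𝕜)) := by
          rw [h1, h2, one_mul, mul_one]
      _ = _ := by noncomm_ring
  rw [e, HS_mulu, HS_umul, HS]
  refine Finset.sum_congr rfl fun i _ => Finset.sum_congr rfl fun j _ => ?_
  rw [Matrix.sub_apply, Dd, Dd, mul_diagonal, diagonal_mul]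
  have : ((U⁻¹ * V : unitaryGroup m 𝕜) : Matrix m m 𝕜) i j * ((β j : ℝ) : 𝕜) -
      ((α i : ℝ) : 𝕜) * ((U⁻¹ * V : unitaryGroup m 𝕜) : Matrix m m 𝕜) i j =
      ((U⁻¹ * V : unitaryGroup m 𝕜) : Matrix m m 𝕜) i j * ((β j - α i : ℝ) : 𝕜) := by
    push_cast; ring
  rw [this, norm_mul, RCLike.norm_ofReal, mul_pow, sq_abs]

theorem exp_two_ineq (x : ℝ) : 2 + 4 * x ^ 2 ≤ Real.exp (2 * x) + Real.exp (2 * (-x)) := by
  have h1 : x ^ 2 ≤ Real.sinh x ^ 2 := by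
    rcases le_total 0 x with h | h
    · have := Real.self_le_sinh_iff.2 h
      gcongr
    · have h2 := Real.self_le_sinh_iff.2 (neg_nonneg.2 h)
      rw [Real.sinh_neg] at h2
      have h3 : (-x) ^ 2 ≤ (-Real.sinh x) ^ 2 := pow_le_pow_left₀ (neg_nonneg.2 h) h2 2
      rwa [neg_sq, neg_sq] at h3
  have h2 : Real.exp (2 * x) = Real.exp x ^ 2 := by rw [← Real.exp_nat_mul]; norm_num
  have h3 : Real.exp (2 * (-x)) = Real.exp (-x) ^ 2 := by rw [← Real.exp_nat_mul]; norm_num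
  have h4 : Real.exp x * Real.exp (-x) = 1 := by rw [← Real.exp_add]; simp
  rw [Real.sinh_eq] at h1
  rw [h2, h3]
  nlinarith

/-- the local inequality -/
theorem local_ineq (U V : unitaryGroup m 𝕜) (α β : m → ℝ) :
    2 * (Fintype.card m : ℝ) + 4 * HS (hh V β - hh U α) ≤
      HS (ee U (-α) * ee V β) + HS (ee V (-β) * ee U α) := by
  set P : Matrix m m 𝕜 := ((U⁻¹ * V : unitaryGroup m 𝕜) : Matrix m m 𝕜) with hP
  have h1 := HS_ee_mul U V α β
  have h2 := HS_ee_mul V U β α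
  have h3 := HS_hh_sub U V α β
  have h4 : HS P = Fintype.card m := HS_unit _
  have h5 : ∀ i j, ‖((V⁻¹ * U : unitaryGroup m 𝕜) : Matrix m m 𝕜) j i‖ = ‖P i j‖ := by
    intro i j
    have : (V⁻¹ * U : unitaryGroup m 𝕜) = (U⁻¹ * V)⁻¹ := by group
    rw [this]
    show ‖(star P) j i‖ = _
    rw [Matrix.star_apply, norm_star]
  rw [h1, h2, h3, ← h4, HS, Finset.sum_comm (f := fun i j => ‖((V⁻¹ * U : unitaryGroup m 𝕜) : Matrix m m 𝕜) i j‖ ^ 2 *
    Real.exp (2 * (α j - β i))), Finset.mul_sum, Finset.mul_sum, ← Finset.sum_add_distrib, ← Finset.sum_add_distrib]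
  refine Finset.sum_le_sum fun i _ => ?_
  rw [Finset.mul_sum, Finset.mul_sum, ← Finset.sum_add_distrib, ← Finset.sum_add_distrib]
  refine Finset.sum_le_sum fun j _ => ?_
  rw [h5 i j]
  have h6 := exp_two_ineq (β j - α i)
  have e : -(β j - α i) = α i - β j := by ring
  rw [e] at h6
  have h7 : 0 ≤ ‖P i j‖ ^ 2 := by positivity
  nlinarith

/-- uniqueness of the logarithm in the polar decomposition -/
theorem polar_unique {U V k k' : unitaryGroup m 𝕜} {α β : m → ℝ}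
    (h : ee U α * (k : Matrix m m 𝕜) = ee V β * (k' : Matrix m m 𝕜)) : hh U α = hh V β := by
  have e1 : ee U (-α) * ee V β = ((k * k'⁻¹ : unitaryGroup m 𝕜) : Matrix m m 𝕜) := by
    show _ = (k : Matrix m m 𝕜) * ((k'⁻¹ : unitaryGroup m 𝕜) : Matrix m m 𝕜)
    calc ee U (-α) * ee V β = ee U (-α) * (ee V β * (k' : Matrix m m 𝕜)) *
          ((k'⁻¹ : unitaryGroup m 𝕜) : Matrix m m 𝕜) := by
          rw [← mul_assoc, mul_assoc _ (k' : Matrix m m 𝕜), u_mul_inv, mul_one]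
      _ = _ := by
          rw [← h, ← mul_assoc, ee_neg_mul, one_mul]
  have e2 : ee V (-β) * ee U α = ((k' * k⁻¹ : unitaryGroup m 𝕜) : Matrix m m 𝕜) := by
    show _ = (k' : Matrix m m 𝕜) * ((k⁻¹ : unitaryGroup m 𝕜) : Matrix m m 𝕜)
    calc ee V (-β) * ee U α = ee V (-β) * (ee U α * (k : Matrix m m 𝕜)) *
          ((k⁻¹ : unitaryGroup m 𝕜) : Matrix m m 𝕜) := by
          rw [← mul_assoc, mul_assoc _ (k : Matrix m m 𝕜), u_mul_inv, mul_one]
      _ = _ := by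
          rw [h, ← mul_assoc, ee_neg_mul, one_mul]
  have h1 := local_ineq U V α β
  rw [e1, e2, HS_unit, HS_unit] at h1
  have h2 : hh V β - hh U α = 0 := HS_zero_iff _ (by linarith)
  exact (sub_eq_zero.1 h2).symm

end Pool.Agent.KS6_9.SR
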