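import Pool.Agent.KS6_9.SR.Emi

set_option autoImplicit false
set_option linter.unusedSectionVars false

namespace Pool.Agent.KS6_9.SR

open Matrix Finset
open scoped ComplexOrder

variable {𝕜 : Type} [RCLike 𝕜] {m : Type} [Fintype m] [DecidableEq m]

theorem ee_conj (U : unitaryGroup m 𝕜) (s : m → ℝ) : (ee U s : Matrix m m 𝕜)ᴴ = ee U s := by
  rw [ee, conjTranspose_mul, conjTranspose_mul, De_conj]
  have h1 : (((U⁻¹ : unitaryGroup m 𝕜) : Matrix m m 𝕜))ᴴ = (U : Matrix m m 𝕜) := by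
    show (star (star (U : Matrix m m 𝕜))) = _
    exact star_star _
  have h2 : ((U : Matrix m m 𝕜))ᴴ = ((U⁻¹ : unitaryGroup m 𝕜) : Matrix m m 𝕜) := rfl
  rw [h1, h2, mul_assoc]

/-- polar decomposition -/
theorem exists_polar (g : Matrix m m 𝕜) (hg : IsUnit g.det) :
    ∃ (U : unitaryGroup m 𝕜) (s : m → ℝ) (k : unitaryGroup m 𝕜), g = ee U s * (k : Matrix m m 𝕜) := by
  have hinj : Function.Injective g.vecMul :=
    Matrix.vecMul_injective_of_isUnit ((Matrix.isUnit_iff_isUnit_det _).2 hg)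
  have hA : (g * gᴴ).PosDef := Matrix.PosDef.mul_conjTranspose_self g hinj
  have hμ := hA.eigenvalues_pos
  set U := hA.1.eigenvectorUnitary with hU
  set μ := hA.1.eigenvalues with hμdef
  set s : m → ℝ := fun i => (1/2) * Real.log (μ i) with hs
  have hspec : g * gᴴ = ee U (s + s) := by
    have h := hA.1.spectral_theorem
    rw [Unitary.conjStarAlgAut_apply] at h
    rw [h, ee]
    congr 2
    rw [De]
    congr 1
    funext i
    have : (s + s) i = Real.log (μ i) := by rw [Pi.add_apply]; simp only [hs]; ring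
    rw [this, Real.exp_log (hμ i)]
    rfl
  refine ⟨U, s, ⟨ee U (-s) * g, ?_⟩, ?_⟩
  · rw [Matrix.mem_unitaryGroup_iff, star_eq_conjTranspose, conjTranspose_mul, ee_conj]
    calc ee U (-s) * g * (gᴴ * ee U (-s)) = ee U (-s) * (g * gᴴ) * ee U (-s) := by noncomm_ring
      _ = 1 := by
        rw [hspec, ee_mul, ee_mul]
        have : -s + (s + s) + -s = 0 := by abel
        rw [this, ee_zero]
  · show g = ee U s * (ee U (-s) * g)
    rw [← mul_assoc, ee_mul_neg, one_mul]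

/-- consecutive points of a subdivided geodesic -/
theorem step_ineq {U V k k' : unitaryGroup m 𝕜} {α β : m → ℝ} {W : unitaryGroup m 𝕜} {s : m → ℝ}
    (g g' : Matrix m m 𝕜) (h : g = ee U α * (k : Matrix m m 𝕜)) (h' : g' = ee V β * (k' : Matrix m m 𝕜))
    (hs : g' = g * ee W s) :
    4 * HS (hh V β - hh U α) ≤ ∑ i, (Real.exp (2 * s i) + Real.exp (2 * (-s i)) - 2) := by
  have e1 : ee U (-α) * ee V β = (k : Matrix m m 𝕜) * ee W s * ((k'⁻¹ : unitaryGroup m 𝕜) : Matrix m m 𝕜) := by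
    have : ee V β = g' * ((k'⁻¹ : unitaryGroup m 𝕜) : Matrix m m 𝕜) := by
      rw [h', mul_assoc, u_mul_inv, mul_one]
    rw [this, hs, h, ← mul_assoc, ← mul_assoc, ← mul_assoc, ee_neg_mul, one_mul]
  have e2 : ee V (-β) * ee U α = (k' : Matrix m m 𝕜) * ee W (-s) * ((k⁻¹ : unitaryGroup m 𝕜) : Matrix m m 𝕜) := by
    have h1 : g = g' * ee W (-s) := by rw [hs, mul_assoc, ee_mul_neg, mul_one]
    have : ee U α = g * ((k⁻¹ : unitaryGroup m 𝕜) : Matrix m m 𝕜) := by
      rw [h, mul_assoc, u_mul_inv, mul_one]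
    rw [this, h1, h', ← mul_assoc, ← mul_assoc, ← mul_assoc, ee_neg_mul, one_mul]
  have h1 := local_ineq U V α β
  rw [e1, e2, HS_mulu, HS_umul, HS_mulu, HS_umul, HS_ee, HS_ee] at h1
  have h2 : ∑ i : m, (Real.exp (2 * s i) + Real.exp (2 * (-s i)) - 2) =
      ∑ i, Real.exp (2 * s i) + ∑ i, Real.exp (2 * (-s) i) - 2 * Fintype.card m := by
    rw [Finset.sum_sub_distrib, Finset.sum_add_distrib]
    simp [mul_comm]
  rw [h2]
  linarith

theorem sqrt_step (x : ℝ) (N : ℕ) (hN : 1 ≤ N) :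
    (N : ℝ) ^ 2 * (Real.exp (2 * (x / N)) + Real.exp (2 * (-(x / N))) - 2) ≤
      4 * (x ^ 2 * Real.exp (2 * x ^ 2 / N ^ 2)) := by
  have hN' : (0 : ℝ) < N := by exact_mod_cast hN
  have h1 := Real.cosh_le_exp_half_sq (2 * (x / N))
  rw [Real.cosh_eq] at h1
  have e : 2 * (-(x / N)) = -(2 * (x / N)) := by ring
  rw [e]
  set t := 2 * x ^ 2 / (N : ℝ) ^ 2 with ht
  have e2 : (2 * (x / N)) ^ 2 / 2 = t := by rw [ht]; field_simp
  rw [e2] at h1
  have ht0 : 0 ≤ t := by positivity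
  have h2 : Real.exp t - 1 ≤ t * Real.exp t := by
    have h3 := Real.add_one_le_exp (-t)
    have h4 : Real.exp (-t) * Real.exp t = 1 := by rw [← Real.exp_add]; simp
    have h5 := mul_le_mul_of_nonneg_right h3 (Real.exp_pos t).le
    rw [h4] at h5
    linarith
  have h3 : (N : ℝ) ^ 2 * t = 2 * x ^ 2 := by rw [ht]; field_simp
  have h6 : Real.exp (2 * (x / N)) + Real.exp (-(2 * (x / N))) - 2 ≤ 2 * (t * Real.exp t) := by linarith
  have h7 : (N : ℝ) ^ 2 * (Real.exp (2 * (x / N)) + Real.exp (-(2 * (x / N))) - 2) ≤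
      (N : ℝ) ^ 2 * (2 * (t * Real.exp t)) := mul_le_mul_of_nonneg_left h6 (by positivity)
  refine h7.trans (le_of_eq ?_)
  calc (N : ℝ) ^ 2 * (2 * (t * Real.exp t)) = 2 * ((N : ℝ) ^ 2 * t) * Real.exp t := by ring
    _ = _ := by rw [h3]; ring

theorem ee_isUnit (U : unitaryGroup m 𝕜) (s : m → ℝ) : IsUnit (ee U s : Matrix m m 𝕜).det :=
  Matrix.isUnit_det_of_left_inverse (ee_neg_mul U s)

/-- the exponential metric increasing property -/
theorem emi (U V : unitaryGroup m 𝕜) (α β : m → ℝ) (W k : unitaryGroup m 𝕜) (s : m → ℝ)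
    (h : ee U (-α) * ee V β = ee W s * (k : Matrix m m 𝕜)) :
    HS (hh V β - hh U α) ≤ ∑ i, s i ^ 2 := by
  have hV : ee V β = ee U α * ee W s * (k : Matrix m m 𝕜) := by
    rw [mul_assoc, ← h, ← mul_assoc, ee_mul_neg, one_mul]
  have key : ∀ N : ℕ, 1 ≤ N →
      HS (hh V β - hh U α) ≤ ∑ i, s i ^ 2 * Real.exp (2 * s i ^ 2 / N ^ 2) := by
    intro N hN
    have hN' : (0 : ℝ) < N := by exact_mod_cast hN
    let g : ℕ → Matrix m m 𝕜 := fun i => ee U α * ee W (((i : ℝ) / N) • s)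
    have hgu : ∀ i, IsUnit (g i).det := fun i => by
      show IsUnit (ee U α * ee W _).det
      rw [det_mul]
      exact (ee_isUnit _ _).mul (ee_isUnit _ _)
    choose P t K hP using fun i => exists_polar (g i) (hgu i)
    have hg0 : g 0 = ee U α * ((1 : unitaryGroup m 𝕜) : Matrix m m 𝕜) := by
      show ee U α * ee W _ = _
      simp [ee_zero]
    have hgN : g N = ee V β * ((k⁻¹ : unitaryGroup m 𝕜) : Matrix m m 𝕜) := by
      show ee U α * ee W _ = _
      rw [div_self hN'.ne', one_smul, hV, mul_assoc _ (k : Matrix m m 𝕜), u_mul_inv, mul_one]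
    have h0 : hh (P 0) (t 0) = hh U α := polar_unique ((hP 0).symm.trans hg0)
    have h1 : hh (P N) (t N) = hh V β := polar_unique ((hP N).symm.trans hgN)
    have hstep : ∀ i, g (i + 1) = g i * ee W ((1 / (N : ℝ)) • s) := by
      intro i
      show ee U α * ee W _ = ee U α * ee W _ * _
      rw [mul_assoc, ee_mul, ← add_smul]
      congr 3
      push_cast
      ring
    set c : ℝ := ∑ i, ((1 / (N : ℝ)) ^ 2 * (s i ^ 2 * Real.exp (2 * s i ^ 2 / N ^ 2))) with hc
    have hs : ∀ i, HS (hh (P (i+1)) (t (i+1)) - hh (P i) (t i)) ≤ c := by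
      intro i
      have h2 := step_ineq (g i) (g (i+1)) (hP i) (hP (i+1)) (hstep i)
      have h3 : ∑ j, (Real.exp (2 * ((1 / (N : ℝ)) • s) j) + Real.exp (2 * (-((1 / (N : ℝ)) • s) j)) - 2) ≤ 4 * c := by
        rw [hc, Finset.mul_sum]
        refine Finset.sum_le_sum fun j _ => ?_
        have h4 := sqrt_step (s j) N hN
        have e : ((1 / (N : ℝ)) • s) j = s j / N := by
          rw [Pi.smul_apply, smul_eq_mul]; ring
        rw [e]
        rw [show 4 * ((1 / (N : ℝ)) ^ 2 * (s j ^ 2 * Real.exp (2 * s j ^ 2 / N ^ 2))) =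
          (4 * (s j ^ 2 * Real.exp (2 * s j ^ 2 / N ^ 2))) / (N : ℝ) ^ 2 by field_simp, le_div_iff₀ (by positivity)]
        linarith
      linarith
    have hc0 : 0 ≤ c := Finset.sum_nonneg fun j _ => by positivity
    have htri : ∀ i : ℕ, √(HS (hh (P i) (t i) - hh (P 0) (t 0))) ≤ i * √c := by
      intro i
      induction i with
      | zero => simp [HS]
      | succ i ih =>
        have e : hh (P (i+1)) (t (i+1)) - hh (P 0) (t 0) =
            (hh (P (i+1)) (t (i+1)) - hh (P i) (t i)) + (hh (P i) (t i) - hh (P 0) (t 0)) := by abel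
        rw [e]
        refine (HS_triangle _ _).trans ?_
        have := Real.sqrt_le_sqrt (hs i)
        push_cast
        linarith
    have h5 := htri N
    rw [h0, h1] at h5
    have h6 : HS (hh V β - hh U α) ≤ (N : ℝ) ^ 2 * c := by
      have h7 := pow_le_pow_left₀ (Real.sqrt_nonneg _) h5 2
      rwa [Real.sq_sqrt (HS_nonneg _), mul_pow, Real.sq_sqrt hc0] at h7
    refine h6.trans (le_of_eq ?_)
    rw [hc, Finset.mul_sum]
    refine Finset.sum_congr rfl fun j _ => ?_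
    field_simp
  have hlim : Filter.Tendsto (fun N : ℕ => ∑ i, s i ^ 2 * Real.exp (2 * s i ^ 2 / (N : ℝ) ^ 2)) Filter.atTop
      (nhds (∑ i, s i ^ 2 * Real.exp 0)) := by
    refine tendsto_finsetSum _ fun i _ => ?_
    refine Filter.Tendsto.const_mul _ ?_
    refine (Real.continuous_exp.tendsto 0).comp ?_
    have h1 : Filter.Tendsto (fun N : ℕ => ((N : ℝ) ^ 2)) Filter.atTop Filter.atTop :=
      (Filter.tendsto_pow_atTop (by norm_num)).comp tendsto_natCast_atTop_atTop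
    exact h1.const_div_atTop _
  simp only [Real.exp_zero, mul_one] at hlim
  exact ge_of_tendsto hlim (Filter.eventually_atTop.2 ⟨1, key⟩)

/-- the square of the norm of the logarithm of the singular values -/
noncomputable def FF (M : Matrix m m 𝕜) : ℝ :=
  sInf {r | ∃ (U k : unitaryGroup m 𝕜) (s : m → ℝ), M = ee U s * (k : Matrix m m 𝕜) ∧ r = ∑ i, s i ^ 2}

theorem FF_eq {M : Matrix m m 𝕜} {U k : unitaryGroup m 𝕜} {s : m → ℝ}
    (h : M = ee U s * (k : Matrix m m 𝕜)) : FF M = ∑ i, s i ^ 2 := by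
  have : {r | ∃ (U k : unitaryGroup m 𝕜) (s : m → ℝ), M = ee U s * (k : Matrix m m 𝕜) ∧ r = ∑ i, s i ^ 2} =
      {∑ i, s i ^ 2} := by
    ext r
    constructor
    · rintro ⟨U', k', s', h', rfl⟩
      have h1 := polar_unique (h.symm.trans h')
      rw [Set.mem_singleton_iff, ← HS_hh U s, ← HS_hh U' s', h1]
    · rintro rfl
      exact ⟨U, k, s, h, rfl⟩
  rw [FF, this, csInf_singleton]

theorem FF_mulu (M : Matrix m m 𝕜) (hM : IsUnit M.det) (v : unitaryGroup m 𝕜) :
    FF (M * (v : Matrix m m 𝕜)) = FF M := by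
  obtain ⟨U, s, k, h⟩ := exists_polar M hM
  have h' : M * (v : Matrix m m 𝕜) = ee U s * ((k * v : unitaryGroup m 𝕜) : Matrix m m 𝕜) := by
    rw [h, mul_assoc]; rfl
  rw [FF_eq h, FF_eq h']

theorem ee_u (v U : unitaryGroup m 𝕜) (s : m → ℝ) :
    (v : Matrix m m 𝕜) * ee U s = ee (v * U) s * (v : Matrix m m 𝕜) := by
  rw [ee, ee]
  have : (((v * U)⁻¹ : unitaryGroup m 𝕜) : Matrix m m 𝕜) =
      ((U⁻¹ : unitaryGroup m 𝕜) : Matrix m m 𝕜) * ((v⁻¹ : unitaryGroup m 𝕜) : Matrix m m 𝕜) := by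
    rw [_root_.mul_inv_rev]; rfl
  rw [this]
  show _ = (v : Matrix m m 𝕜) * (U : Matrix m m 𝕜) * De s * _ * _
  have h := u_inv_mul v
  calc (v : Matrix m m 𝕜) * ((U : Matrix m m 𝕜) * De s * ((U⁻¹ : unitaryGroup m 𝕜) : Matrix m m 𝕜)) =
      (v : Matrix m m 𝕜) * (U : Matrix m m 𝕜) * De s * ((U⁻¹ : unitaryGroup m 𝕜) : Matrix m m 𝕜) *
        (((v⁻¹ : unitaryGroup m 𝕜) : Matrix m m 𝕜) * (v : Matrix m m 𝕜)) := by rw [h, mul_one]; noncomm_ring
    _ = _ := by noncomm_ring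

theorem FF_umul (M : Matrix m m 𝕜) (hM : IsUnit M.det) (v : unitaryGroup m 𝕜) :
    FF ((v : Matrix m m 𝕜) * M) = FF M := by
  obtain ⟨U, s, k, h⟩ := exists_polar M hM
  have h' : (v : Matrix m m 𝕜) * M = ee (v * U) s * ((v * k : unitaryGroup m 𝕜) : Matrix m m 𝕜) := by
    rw [h, ← mul_assoc, ee_u, mul_assoc]; rfl
  rw [FF_eq h, FF_eq h']

theorem FF_inv (M N : Matrix m m 𝕜) (hM : IsUnit M.det) (hN : N * M = 1) : FF N = FF M := by
  obtain ⟨U, s, k, h⟩ := exists_polar M hM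
  have h1 : N = ((k⁻¹ : unitaryGroup m 𝕜) : Matrix m m 𝕜) * ee U (-s) := by
    calc N = N * (M * (((k⁻¹ : unitaryGroup m 𝕜) : Matrix m m 𝕜) * ee U (-s))) := by
          rw [h, mul_assoc (ee U s), ← mul_assoc (k : Matrix m m 𝕜), u_mul_inv, one_mul, ee_mul_neg, mul_one]
      _ = _ := by rw [← mul_assoc, hN, one_mul]
  have h2 : N = ee (k⁻¹ * U) (-s) * ((k⁻¹ : unitaryGroup m 𝕜) : Matrix m m 𝕜) := by rw [h1, ee_u]
  rw [FF_eq h, FF_eq h2]
  exact Finset.sum_congr rfl fun i _ => by rw [Pi.neg_apply, neg_sq]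

theorem FF_nonneg (M : Matrix m m 𝕜) (hM : IsUnit M.det) : 0 ≤ FF M := by
  obtain ⟨U, s, k, h⟩ := exists_polar M hM
  rw [FF_eq h]
  positivity

theorem FF_one : FF (1 : Matrix m m 𝕜) = 0 := by
  have h : (1 : Matrix m m 𝕜) = ee (1 : unitaryGroup m 𝕜) 0 * ((1 : unitaryGroup m 𝕜) : Matrix m m 𝕜) := by
    rw [ee_zero]; simp
  rw [FF_eq h]
  simp

/-- bounded distance from the base point implies bounded entries -/
theorem FF_entries (M : Matrix m m 𝕜) (hM : IsUnit M.det) (i j : m) :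
    ‖M i j‖ ^ 2 ≤ Fintype.card m * Real.exp (2 * √(FF M)) := by
  obtain ⟨U, s, k, h⟩ := exists_polar M hM
  have h1 : ‖M i j‖ ^ 2 ≤ HS M := by
    rw [HS]
    refine le_trans ?_ (Finset.single_le_sum (f := fun i => ∑ j, ‖M i j‖ ^ 2)
      (fun i _ => Finset.sum_nonneg fun j _ => by positivity) (Finset.mem_univ i))
    exact Finset.single_le_sum (f := fun j => ‖M i j‖ ^ 2) (fun j _ => by positivity) (Finset.mem_univ j)
  refine h1.trans ?_
  have h2 : HS M = ∑ i, Real.exp (2 * s i) := by rw [h, HS_mulu, HS_ee]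
  rw [h2, FF_eq h]
  calc ∑ i, Real.exp (2 * s i) ≤ ∑ _i : m, Real.exp (2 * √(∑ i, s i ^ 2)) := by
        refine Finset.sum_le_sum fun i _ => ?_
        apply Real.exp_le_exp.2
        have : s i ≤ √(∑ i, s i ^ 2) := by
          apply Real.le_sqrt_of_sq_le
          exact Finset.single_le_sum (f := fun i => s i ^ 2) (fun j _ => by positivity) (Finset.mem_univ i)
        linarith
    _ = _ := by rw [Finset.sum_const, Finset.card_univ, nsmul_eq_mul]

theorem emi' (U V : unitaryGroup m 𝕜) (α β : m → ℝ) :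
    HS (hh V β - hh U α) ≤ FF (ee U (-α) * ee V β) := by
  have hu : IsUnit (ee U (-α) * ee V β : Matrix m m 𝕜).det := by
    rw [det_mul]; exact (ee_isUnit _ _).mul (ee_isUnit _ _)
  obtain ⟨W, s, k, h⟩ := exists_polar _ hu
  rw [FF_eq h]
  exact emi U V α β W k s h

end Pool.Agent.KS6_9.SR
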