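import Pool.Agent.KS6_9.SR.Smp
import Pool.Agent.KS6_9.SR.Alg

/-!
# Finite products of simple linear Lie groups
-/

set_option autoImplicit false
set_option linter.unusedSectionVars false

namespace Pool.Agent.KS6_9.SR

open Filter Topology Bac815 Matrix

/-! ### transport along closed embeddings -/

section Transport

variable {G G' : Type} [Group G] [TopologicalSpace G] [IsTopologicalGroup G] [Group G'] [TopologicalSpace G']
  [IsTopologicalGroup G']

theorem con_map (e : G ≃* G') (he : Continuous e) (a u : G) (hu : u ∈ con a) : e u ∈ con (e a) := by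
  have h8 : Tendsto (fun n : ℕ => a ^ n * u * (a ^ n)⁻¹) atTop (𝓝 1) := hu
  have h9 := (he.tendsto 1).comp h8
  rw [map_one] at h9
  refine h9.congr fun n => ?_
  simp only [Function.comp, map_mul, map_inv, map_pow]

theorem dagger_equiv (e : G ≃* G') (he : Continuous e) (h : dagger G = ⊤) :
    dagger G' = ⊤ := by
  have h1 : dagger G ≤ (dagger G').comap e.toMonoidHom := by
    apply Subgroup.topologicalClosure_minimal
    · rw [Subgroup.closure_le]
      intro u hu
      obtain ⟨a, ha⟩ := Set.mem_iUnion.1 hu
      exact con_sub_dagger (e a) (con_map e he a u ha)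
    · exact dagger_closed.preimage he
  rw [h, top_le_iff] at h1
  rw [eq_top_iff]
  intro g _
  have h2 : e.symm g ∈ (dagger G').comap e.toMonoidHom := by rw [h1]; exact Subgroup.mem_top _
  have h3 : e (e.symm g) ∈ dagger G' := h2
  rwa [e.apply_symm_apply] at h3

theorem simple_equiv (e : G ≃* G') (he : Continuous e) (he' : Continuous e.symm) (h : IsSimpleLike G) :
    IsSimpleLike G' where
  connected := by
    have := h.connected
    exact e.surjective.connectedSpace he
  nonabelian := by
    obtain ⟨x, y, hxy⟩ := h.nonabelian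
    exact ⟨e x, e y, fun h => hxy (e.injective (by rw [map_mul, map_mul]; exact h))⟩
  normal := by
    intro M hM hMc
    have h1 : IsClosed (((M.comap e.toMonoidHom : Subgroup G)) : Set G) := hMc.preimage he
    rcases h.normal (M.comap e.toMonoidHom) inferInstance h1 with h2 | h2
    · left
      rw [eq_top_iff]
      intro g _
      have h2 : e.symm g ∈ M.comap e.toMonoidHom := by rw [h2]; exact Subgroup.mem_top _
      have h3 : e (e.symm g) ∈ M := h2
      rwa [e.apply_symm_apply] at h3
    · right
      -- a continuous injection into a discrete space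
      let f : M → M.comap e.toMonoidHom := fun m => ⟨e.symm m, by
        show e (e.symm m) ∈ M
        rw [e.apply_symm_apply]; exact m.2⟩
      have hf : Continuous f := (he'.comp continuous_subtype_val).subtype_mk _
      have hinj : Function.Injective f := fun x y hxy => by
        have := congrArg Subtype.val hxy
        exact Subtype.ext (e.symm.injective this)
      exact DiscreteTopology.of_continuous_injective hf hinj

end Transport

theorem model_dagger_top {G : Type} [Group G] [TopologicalSpace G] [IsTopologicalGroup G] {N : ℕ} {K : Type}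
    [RCLike K] (f : G →* SpecialLinearGroup (Fin N) K) (emb : Topology.IsClosedEmbedding f)
    (polar : IsPolarClosed f.range) (hnc : NoncompactSpace G) (hs : IsSimpleLike G) : dagger G = ⊤ := by
  let e : G ≃* f.range := MonoidHom.ofInjective emb.injective
  have he : Continuous e := emb.continuous.subtype_mk _
  have he' : Continuous e.symm := by
    rw [emb.isInducing.continuous_iff]
    have : (f ∘ e.symm) = Subtype.val := by
      funext x
      have h1 : (e (e.symm x) : SpecialLinearGroup (Fin N) K) = x := by rw [e.apply_symm_apply]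
      exact h1
    rw [this]; exact continuous_subtype_val
  have hcl : IsClosed (f.range : Set (SpecialLinearGroup (Fin N) K)) := by
    rw [MonoidHom.coe_range]; exact emb.isClosed_range
  have hnc' : NoncompactSpace f.range := by
    constructor
    intro h
    apply noncompact_univ G
    have h1 := h.image he'
    rwa [Set.image_univ, e.symm.surjective.range_eq] at h1
  have h1 := dagger_of_simple f.range hcl polar hnc' (simple_equiv e he he' hs)
  exact dagger_equiv e.symm he' h1

section Product

variable {ι : Type} [Fintype ι] [DecidableEq ι] {G : ι → Type} [∀ i, Group (G i)] [∀ i, TopologicalSpace (G i)]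
  [∀ i, IsTopologicalGroup (G i)]

theorem dagger_pi (h : ∀ i, dagger (G i) = ⊤) : dagger (∀ i, G i) = ⊤ := by
  rw [eq_top_iff]
  intro g _
  apply Subgroup.pi_mem_of_mulSingle_mem
  intro i
  have hc : Continuous (fun h : G i => (Pi.mulSingle i h : ∀ i, G i)) :=
    (continuous_const (y := (1 : ∀ i, G i))).update i continuous_id
  have h1 : dagger (G i) ≤ (dagger (∀ i, G i)).comap (MonoidHom.mulSingle G i) := by
    apply Subgroup.topologicalClosure_minimal
    · rw [Subgroup.closure_le]
      intro u hu
      obtain ⟨a, ha⟩ := Set.mem_iUnion.1 hu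
      apply con_sub_dagger (Pi.mulSingle i a)
      have h8 : Tendsto (fun n : ℕ => a ^ n * u * (a ^ n)⁻¹) atTop (𝓝 1) := ha
      have h9 := (hc.tendsto 1).comp h8
      rw [Pi.mulSingle_one] at h9
      refine h9.congr fun n => ?_
      simp only [Function.comp, Pi.mulSingle_mul, Pi.mulSingle_inv, Pi.mulSingle_pow]
      rfl
    · exact dagger_closed.preimage hc
  rw [h i, top_le_iff] at h1
  have h2 : g i ∈ (dagger (∀ i, G i)).comap (MonoidHom.mulSingle G i) := by rw [h1]; exact Subgroup.mem_top _
  exact h2

variable {N : ι → ℕ} {K : ι → Type} [∀ i, RCLike (K i)] (f : ∀ i, G i →* SpecialLinearGroup (Fin (N i)) (K i))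

/-- squared distance -/
noncomputable def Qm (x y : ∀ i, G i) : ℝ := ∑ i, Qs ((f i) (x i)) ((f i) (y i))

theorem Qm_form (polar : ∀ i, IsPolarClosed (f i).range) : IsCNForm (Qm f) where
  nonneg x y := Finset.sum_nonneg fun i _ => Qs_form.nonneg _ _
  self x := by simp [Qm, Qs_form.self]
  symm x y := Finset.sum_congr rfl fun i _ => Qs_form.symm _ _
  cn x y τ hτ := by
    have h1 : ∀ i, ∃ c : G i, ∀ z : G i, Qs ((f i) z) ((f i) c) ≤
        (1 - τ) * Qs ((f i) z) ((f i) (x i)) + τ * Qs ((f i) z) ((f i) (y i)) -
          τ * (1 - τ) * Qs ((f i) (x i)) ((f i) (y i)) := by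
      intro i
      obtain ⟨U, s, k, hk⟩ := exists_polar
        ((((f i) (x i))⁻¹ * (f i) (y i) : SpecialLinearGroup (Fin (N i)) (K i)) : Matrix (Fin (N i)) (Fin (N i)) (K i))
        (SL_isUnit _)
      obtain ⟨p, ⟨p', rfl⟩, hpe⟩ := (polar i) (((f i) (x i))⁻¹ * (f i) (y i))
        ⟨(x i)⁻¹ * y i, by rw [map_mul, map_inv]⟩ U k s hk τ hτ
      refine ⟨x i * p', fun z => ?_⟩
      rw [map_mul]
      exact Qs_cn_at _ _ τ hτ U s k hk _ hpe _
    choose c hc using h1
    refine ⟨c, fun z => ?_⟩
    simp only [Qm, Finset.mul_sum, ← Finset.sum_add_distrib, ← Finset.sum_sub_distrib]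
    exact Finset.sum_le_sum fun i _ => hc i (z i)

/-- the product of the groups with the pseudo-metric of the product of the symmetric spaces -/
structure TM (f : ∀ i, G i →* SpecialLinearGroup (Fin (N i)) (K i)) where
  val : ∀ i, G i

/-- the pseudo-metric -/
@[reducible] noncomputable def TM_pm (polar : ∀ i, IsPolarClosed (f i).range) : PseudoMetricSpace (TM f) :=
  PseudoMetricSpace.induced (fun x : TM f => x.val) (Qm_form f polar).pm

theorem TM_dist_sq (polar : ∀ i, IsPolarClosed (f i).range) (x y : TM f) :
    (TM_pm f polar).dist x y ^ 2 = Qm f x.val y.val :=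
  Real.sq_sqrt ((Qm_form f polar).nonneg _ _)

instance : MulAction (∀ i, G i) (TM f) where
  smul g x := ⟨g * x.val⟩
  one_smul x := by
    cases x
    show TM.mk (1 * _) = _
    rw [one_mul]
  mul_smul g h x := by
    cases x
    show TM.mk ((g * h) * _) = TM.mk (g * (h * _))
    rw [mul_assoc]

theorem TM_iso (polar : ∀ i, IsPolarClosed (f i).range) (g : ∀ i, G i) (x y : TM f) :
    (TM_pm f polar).dist (g • x) (g • y) = (TM_pm f polar).dist x y := by
  show √(Qm f (g * x.val) (g * y.val)) = √(Qm f x.val y.val)
  congr 1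
  refine Finset.sum_congr rfl fun i _ => ?_
  rw [Pi.mul_apply, Pi.mul_apply, map_mul, map_mul, Qs_smul]

theorem models_case [Nonempty ι] (emb : ∀ i, Topology.IsClosedEmbedding (f i))
    (polar : ∀ i, IsPolarClosed (f i).range) (hnc : ∀ i, NoncompactSpace (G i)) (hcon : ∀ i, ConnectedSpace (G i))
    (hd : ∀ i, dagger (G i) = ⊤) (Γ : Subgroup (∀ i, G i)) (hΓ : IsCocompactLattice Γ) : RigidityFails Γ := by
  have h1 : ∀ i, LocallyCompactSpace (G i) := fun i => (emb i).locallyCompactSpace
  have h2 : ∀ i, SecondCountableTopology (G i) := fun i => (emb i).isInducing.secondCountableTopology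
  have h3 : ∀ i, T2Space (G i) := fun i => (emb i).isEmbedding.t2Space
  have h4 : NoncompactSpace (∀ i, G i) := by
    constructor
    intro h
    obtain ⟨i⟩ := (inferInstance : Nonempty ι)
    apply noncompact_univ (G i)
    have h5 := h.image (continuous_apply i)
    rwa [Set.image_univ, (Function.surjective_eval i).range_eq] at h5
  have hcg : IsCompactlyGenerated (∀ i, G i) := compactlyGenerated_of_connected
  let _ := TM_pm f polar
  refine core_transitive hcg (by rw [dagger_pi hd]; infer_instance) Γ hΓ (fun hfg => rf_linear hfg fun g hg => ?_)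
    (⟨1⟩ : TM f) (TM_iso f polar) ?_ (fun x => ⟨x.val, ?_⟩) (fun R => ?_)
  · obtain ⟨i, hi⟩ : ∃ i, (g : ∀ i, G i) i ≠ 1 := by
      by_contra hcon
      push Not at hcon
      exact hg (Subtype.ext (funext hcon))
    refine ⟨(N i), (K i), inferInstance, (Matrix.SpecialLinearGroup.coeMonoidHom).comp
      ((f i).comp ((Pi.evalMonoidHom G i).comp Γ.subtype)), ?_⟩
    intro h
    have h5 : (f i) ((g : ∀ i, G i) i) = 1 := Subtype.ext h
    exact hi ((emb i).injective (by rw [h5, map_one]))
  · intro x y τ hτ
    obtain ⟨c, hc⟩ := (Qm_form f polar).cn x.val y.val τ hτ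
    refine ⟨⟨c⟩, fun z => ?_⟩
    have e := TM_dist_sq f polar
    rw [e, e, e, e]
    exact hc z.val
  · cases x with
    | mk v =>
      show TM.mk v = TM.mk (v * 1)
      rw [mul_one]
  · refine ⟨Set.pi Set.univ fun i => (f i) ⁻¹' {g : SpecialLinearGroup (Fin (N i)) (K i) | ∀ a b,
      ‖(g : Matrix (Fin (N i)) (Fin (N i)) (K i)) a b‖ ≤ Fintype.card (Fin (N i)) * Real.exp (2 * max R 0) + 1},
      isCompact_univ_pi fun i => (emb i).isCompact_preimage (isCompact_SL _), fun g hg i _ a b => ?_⟩
    apply SL_proper (max R 0) _ _ (le_max_right _ _)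
    have h1 : dist (⟨1⟩ : TM f) (g • (⟨1⟩ : TM f)) ≤ max R 0 := hg.trans (le_max_left _ _)
    have h2 := TM_dist_sq f polar (⟨1⟩ : TM f) (g • (⟨1⟩ : TM f))
    have h3 : (g • (⟨1⟩ : TM f)).val = g := by
      show g * 1 = g
      rw [mul_one]
    rw [h3] at h2
    have h4 : Qs 1 ((f i) (g i)) ≤ Qm f 1 g := by
      have := Finset.single_le_sum (f := fun i => Qs ((f i) ((1 : ∀ i, G i) i)) ((f i) (g i)))
        (fun i _ => Qs_form.nonneg _ _) (Finset.mem_univ i)
      rw [Pi.one_apply, map_one] at this
      exact this
    refine h4.trans ?_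
    rw [← h2]
    exact pow_le_pow_left₀ dist_nonneg h1 2

end Product

end Pool.Agent.KS6_9.SR
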