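import Pool.Agent.KS6_9.SR.Tsp

/-!
# Generation by elementary matrices, and compact subsets of the product
-/

set_option autoImplicit false
set_option linter.unusedSectionVars false

namespace Pool.Agent.KS6_9.SR

open Matrix

section Diag2n

variable {m F : Type*} [DecidableEq m] [Fintype m] [Field F]

theorem weyl_identity {R : Type*} [Ring R] [Algebra F R] (A B : R) (hA : A * A = 0)
    (hABA : A * B * A = A) (x y : F) (hxy : x * y = -1) :
    (1 + x • A) * (1 + y • B) * (1 + x • A) = 1 - A * B - B * A + x • A + y • B := by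
  have e : (1 + x • A) * (1 + y • B) * (1 + x • A) =
      1 + (x + x) • A + y • B + (x * y) • (A * B) + (x * x) • (A * A) + (y * x) • (B * A)
        + (x * y * x) • (A * B * A) := by
    simp only [mul_add, add_mul, mul_one, one_mul, smul_mul_assoc, mul_smul_comm]
    module
  rw [e, hA, hABA, mul_comm y x, hxy]
  module

theorem diag2n_decompose {i j : m} (hij : i ≠ j) (a : F) (ha : a ≠ 0) :
    SpecialLinearGroup.diag2n hij a ha = SpecialLinearGroup.transvection hij a *
      SpecialLinearGroup.transvection hij.symm (- a⁻¹) *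
      SpecialLinearGroup.transvection hij a *
      (SpecialLinearGroup.transvection hij (-1) *
      SpecialLinearGroup.transvection hij.symm 1 *
      SpecialLinearGroup.transvection hij (-1)) := by
  have hL : (SpecialLinearGroup.diag2n hij a ha : Matrix m m F) =
      1 + single i i (a - 1) + single j j (a⁻¹ - 1) := by
    rw [SpecialLinearGroup.diag2n_coe]
    ext k l
    simp only [diagonal_apply, Matrix.add_apply, Matrix.one_apply, single_apply]
    by_cases hkl : k = l
    · subst hkl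
      by_cases hki : k = i
      · subst hki
        simp [hij.symm]
      · by_cases hkj : k = j
        · subst hkj
          simp [hij, hki]
        · simp [hki, hkj, Ne.symm hki, Ne.symm hkj]
    · have h1 : ¬ (i = k ∧ i = l) := fun h => hkl (h.1.symm.trans h.2)
      have h2 : ¬ (j = k ∧ j = l) := fun h => hkl (h.1.symm.trans h.2)
      simp [hkl, h1, h2]
  apply SpecialLinearGroup.coeMonoidHom_injective
  simp only [map_mul, SpecialLinearGroup.coeMonoidHom_apply]
  rw [hL]
  simp only [SpecialLinearGroup.transvection_coe]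
  set A : Matrix m m F := single i j 1 with hA
  set B : Matrix m m F := single j i 1 with hB
  have sA : ∀ x : F, single i j x = x • A := fun x => by rw [hA, smul_single, smul_eq_mul, mul_one]
  have sB : ∀ x : F, single j i x = x • B := fun x => by rw [hB, smul_single, smul_eq_mul, mul_one]
  have hAA : A * A = 0 := single_mul_single_of_ne _ _ _ _ hij.symm _
  have hBB : B * B = 0 := single_mul_single_of_ne _ _ _ _ hij _
  have hAB : A * B = single i i 1 := by rw [hA, hB, single_mul_single_same, mul_one]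
  have hBA : B * A = single j j 1 := by rw [hA, hB, single_mul_single_same, mul_one]
  have hABA : A * B * A = A := by rw [hAB, hA, single_mul_single_same, mul_one]
  have hBAB : B * A * B = B := by rw [hBA, hB, single_mul_single_same, mul_one]
  have hB1 : (1 + B : Matrix m m F) = 1 + (1 : F) • B := by rw [one_smul]
  rw [sA, sB, sA, hB1, weyl_identity A B hAA hABA a (-a⁻¹) (by field_simp),
    weyl_identity A B hAA hABA (-1) 1 (by ring)]
  have s1 : single i i (a - 1) = (a - 1) • (A * B) := by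
    rw [hAB, smul_single, smul_eq_mul, mul_one]
  have s2 : single j j (a⁻¹ - 1) = (a⁻¹ - 1) • (B * A) := by
    rw [hBA, smul_single, smul_eq_mul, mul_one]
  rw [s1, s2]
  have q1 : A * B * (A * B) = A * B := by rw [← mul_assoc, hABA]
  have q2 : B * A * (B * A) = B * A := by rw [← mul_assoc, hBAB]
  have q3 : A * B * (B * A) = 0 := by
    rw [mul_assoc, ← mul_assoc B B A, hBB, zero_mul, mul_zero]
  have q4 : B * A * (A * B) = 0 := by
    rw [mul_assoc, ← mul_assoc A A B, hAA, zero_mul, mul_zero]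
  have q5 : A * (A * B) = 0 := by rw [← mul_assoc, hAA, zero_mul]
  have q6 : B * (B * A) = 0 := by rw [← mul_assoc, hBB, zero_mul]
  have q7 : A * (B * A) = A := by rw [← mul_assoc, hABA]
  have q8 : B * (A * B) = B := by rw [← mul_assoc, hBAB]
  have q9 : A * B * B = 0 := by rw [mul_assoc, hBB, mul_zero]
  have q10 : B * A * A = 0 := by rw [mul_assoc, hAA, mul_zero]
  simp only [mul_add, add_mul, mul_sub, sub_mul, mul_one, one_mul, smul_mul_assoc, mul_smul_comm,
    hAA, hBB, q1, q2, q3, q4, q5, q6, q7, q8, q9, q10, hABA, hBAB]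
  module

theorem eq_top_of_transvections [Nontrivial m] (H : Subgroup (SpecialLinearGroup m F))
    (h : ∀ (i j : m) (hij : i ≠ j) (a : F), SpecialLinearGroup.transvection hij a ∈ H) :
    H = ⊤ := by
  rw [eq_top_iff]
  intro A _
  refine SpecialLinearGroup.diagonal_transvection_induction' (fun A => A ∈ H) A ?_ h
    (fun A B => H.mul_mem)
  intro i j hij c hc
  rw [diag2n_decompose hij c hc]
  exact H.mul_mem (H.mul_mem (H.mul_mem (h _ _ _ _) (h _ _ _ _)) (h _ _ _ _))
    (H.mul_mem (H.mul_mem (h _ _ _ _) (h _ _ _ _)) (h _ _ _ _))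

theorem transvection_pow {i j : m} (hij : i ≠ j) (c : F) (k : ℕ) :
    (SpecialLinearGroup.transvection hij c) ^ k =
      SpecialLinearGroup.transvection hij ((k : F) * c) := by
  induction k with
  | zero => simp
  | succ k ih =>
    rw [pow_succ, ih, ← SpecialLinearGroup.transvection_add]
    congr 1
    push_cast
    ring

end Diag2n

variable {ι : Type} [Fintype ι] [DecidableEq ι] {𝕜 : ι → Type} [∀ i, RCLike (𝕜 i)] {n : ι → ℕ}

/-- an elementary matrix in one coordinate -/
noncomputable def tv (i : ι) {a b : Fin (n i)} (hab : a ≠ b) (x : 𝕜 i) : GG 𝕜 n :=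
  Pi.mulSingle i (SpecialLinearGroup.transvection hab x)

theorem tv_pow (i : ι) {a b : Fin (n i)} (hab : a ≠ b) (x : 𝕜 i) (k : ℕ) :
    (tv i hab x : GG 𝕜 n) ^ k = tv i hab ((k : 𝕜 i) * x) := by
  rw [tv, tv, ← transvection_pow, Pi.mulSingle_pow]

theorem nontriv_fin {k : ℕ} (h : 2 ≤ k) : Nontrivial (Fin k) :=
  Fin.nontrivial_iff_two_le.2 h

/-- the product is generated by elementary matrices -/
theorem eq_top_of_tv (hn : ∀ i, 2 ≤ n i) (H : Subgroup (GG 𝕜 n))
    (h : ∀ (i : ι) (a b : Fin (n i)) (hab : a ≠ b) (x : 𝕜 i), tv i hab x ∈ H) : H = ⊤ := by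
  rw [eq_top_iff]
  intro g _
  apply Subgroup.pi_mem_of_mulSingle_mem
  intro i
  have := nontriv_fin (hn i)
  have h1 : H.comap (MonoidHom.mulSingle (fun i => SpecialLinearGroup (Fin (n i)) (𝕜 i)) i) = ⊤ :=
    eq_top_of_transvections _ fun a b hab x => h i a b hab x
  have h2 : g i ∈ H.comap (MonoidHom.mulSingle (fun i => SpecialLinearGroup (Fin (n i)) (𝕜 i)) i) := by
    rw [h1]; exact Subgroup.mem_top _
  exact h2

/-- a subgroup of finite index which is... contains all elementary matrices -/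
theorem eq_top_of_index (hn : ∀ i, 2 ≤ n i) (H : Subgroup (GG 𝕜 n)) (h : H.index ≠ 0) : H = ⊤ := by
  apply eq_top_of_tv hn
  intro i a b hab x
  have h1 := Subgroup.pow_mem_of_index_ne_zero_of_dvd h (tv i hab (x / (H.index.factorial : 𝕜 i)) : GG 𝕜 n)
    (n := H.index.factorial) (fun m hm hm' => Nat.dvd_factorial hm hm')
  rw [tv_pow] at h1
  rwa [mul_div_cancel₀] at h1
  exact_mod_cast Nat.factorial_ne_zero _

/-- the generating compact set -/
def CS (𝕜 : ι → Type) [∀ i, RCLike (𝕜 i)] (n : ι → ℕ) : Set (GG 𝕜 n) :=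
  {g | g = 1 ∨ ∃ (i : ι) (a b : Fin (n i)) (hab : a ≠ b) (x : 𝕜 i), ‖x‖ ≤ 1 ∧ g = tv i hab x}

theorem closure_CS (hn : ∀ i, 2 ≤ n i) : Subgroup.closure (CS 𝕜 n) = ⊤ := by
  apply eq_top_of_tv hn
  intro i a b hab x
  obtain ⟨k, hk⟩ := exists_nat_gt ‖x‖
  have hk0 : (0:ℝ) < k := lt_of_le_of_lt (norm_nonneg _) hk
  have hk1 : (k : 𝕜 i) ≠ 0 := by
    have : (k:ℝ) ≠ 0 := hk0.ne'
    exact_mod_cast this
  have h1 : tv i hab x = (tv i hab (x / k) : GG 𝕜 n) ^ k := by
    rw [tv_pow, mul_div_cancel₀ _ hk1]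
  rw [h1]
  apply Subgroup.pow_mem
  apply Subgroup.subset_closure
  refine Or.inr ⟨i, a, b, hab, x / k, ?_, rfl⟩
  rw [norm_div, RCLike.norm_natCast, div_le_one hk0]
  exact hk.le

/-- sets of tuples with bounded entries -/
def BB (𝕜 : ι → Type) [∀ i, RCLike (𝕜 i)] (n : ι → ℕ) (C : ℝ) : Set (GG 𝕜 n) :=
  {g | ∀ (i : ι) (a b : Fin (n i)), ‖(g i : Matrix (Fin (n i)) (Fin (n i)) (𝕜 i)) a b‖ ≤ C}

theorem isCompact_SL {m K : Type} [Fintype m] [DecidableEq m] [RCLike K] (C : ℝ) :
    IsCompact {g : SpecialLinearGroup m K | ∀ a b, ‖(g : Matrix m m K) a b‖ ≤ C} := by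
  have h1 : IsCompact {A : Matrix m m K | ∀ a b, ‖A a b‖ ≤ C} := by
    have h2 : {A : Matrix m m K | ∀ a b, ‖A a b‖ ≤ C} =
        Set.pi Set.univ (fun _ : m => Set.pi Set.univ (fun _ : m => Metric.closedBall (0 : K) C)) := by
      ext A
      show (∀ a b, ‖A a b‖ ≤ C) ↔ (∀ a ∈ Set.univ, ∀ b ∈ Set.univ, A a b ∈ Metric.closedBall (0 : K) C)
      simp
    rw [h2]
    exact isCompact_univ_pi fun _ => isCompact_univ_pi fun _ => isCompact_closedBall _ _
  exact (Matrix.SpecialLinearGroup.isClosedEmbedding_val (n := m) (R := K)).isCompact_preimage h1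

theorem isCompact_BB (C : ℝ) : IsCompact (BB 𝕜 n C) := by
  have h : BB 𝕜 n C = Set.pi Set.univ (fun i => {g : SpecialLinearGroup (Fin (n i)) (𝕜 i) |
      ∀ a b, ‖(g : Matrix (Fin (n i)) (Fin (n i)) (𝕜 i)) a b‖ ≤ C}) := by
    ext g
    simp [BB, Set.mem_pi]
  rw [h]
  exact isCompact_univ_pi fun i => isCompact_SL C

theorem tv_mem_BB (i : ι) {a b : Fin (n i)} (hab : a ≠ b) {x : 𝕜 i} (hx : ‖x‖ ≤ 1) :
    (tv i hab x : GG 𝕜 n) ∈ BB 𝕜 n 2 := by
  intro j p q
  rw [tv]
  by_cases hj : j = i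
  · subst hj
    rw [Pi.mulSingle_eq_same, SpecialLinearGroup.transvection_coe, Matrix.add_apply]
    refine (norm_add_le _ _).trans ?_
    have h1 : ‖(1 : Matrix (Fin (n j)) (Fin (n j)) (𝕜 j)) p q‖ ≤ 1 := by
      rw [Matrix.one_apply]
      split_ifs <;> simp
    have h2 : ‖(single a b x : Matrix (Fin (n j)) (Fin (n j)) (𝕜 j)) p q‖ ≤ 1 := by
      rw [single_apply]
      split_ifs
      · exact hx
      · simp
    linarith
  · rw [Pi.mulSingle_eq_of_ne hj, Matrix.SpecialLinearGroup.coe_one, Matrix.one_apply]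
    split_ifs <;> simp

theorem CS_subset : CS 𝕜 n ⊆ BB 𝕜 n 2 := by
  rintro g (rfl | ⟨i, a, b, hab, x, hx, rfl⟩)
  · intro j p q
    rw [Pi.one_apply, Matrix.SpecialLinearGroup.coe_one, Matrix.one_apply]
    split_ifs <;> simp
  · exact tv_mem_BB i hab hx

instance locallyCompact_SL {m K : Type} [Fintype m] [DecidableEq m] [RCLike K] :
    LocallyCompactSpace (SpecialLinearGroup m K) :=
  have : LocallyCompactSpace (Matrix m m K) := inferInstanceAs (LocallyCompactSpace (m → m → K))
  (Matrix.SpecialLinearGroup.isClosedEmbedding_val (n := m) (R := K)).locallyCompactSpace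

/-- every compact set has bounded entries -/
theorem exists_BB {C : Set (GG 𝕜 n)} (hC : IsCompact C) : ∃ R, C ⊆ BB 𝕜 n R := by
  have h1 : ∀ p : (Σ i, Fin (n i) × Fin (n i)), ∃ R, ∀ g ∈ C, ‖(g p.1 : Matrix (Fin (n p.1)) (Fin (n p.1)) (𝕜 p.1)) p.2.1 p.2.2‖ ≤ R := by
    intro p
    have hc : Continuous (fun g : GG 𝕜 n => (g p.1 : Matrix (Fin (n p.1)) (Fin (n p.1)) (𝕜 p.1)) p.2.1 p.2.2) := by
      have h2 : Continuous (fun g : GG 𝕜 n => (g p.1 : Matrix (Fin (n p.1)) (Fin (n p.1)) (𝕜 p.1))) :=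
        continuous_subtype_val.comp (continuous_apply p.1)
      exact h2.matrix_elem p.2.1 p.2.2
    obtain ⟨R, hR⟩ := (hC.image hc).isBounded.exists_norm_le
    exact ⟨R, fun g hg => hR _ ⟨g, hg, rfl⟩⟩
  choose R hR using h1
  refine ⟨∑ p, |R p|, fun g hg i a b => ?_⟩
  refine (hR ⟨i, a, b⟩ g hg).trans ((le_abs_self _).trans ?_)
  exact Finset.single_le_sum (f := fun p => |R p|) (fun _ _ => abs_nonneg _) (Finset.mem_univ _)

/-- the product is not compact -/
theorem not_compact [Nonempty ι] (hn : ∀ i, 2 ≤ n i) : ¬ IsCompact (Set.univ : Set (GG 𝕜 n)) := by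
  intro h
  obtain ⟨R, hR⟩ := exists_BB h
  obtain ⟨i⟩ := (inferInstance : Nonempty ι)
  have h01 : (⟨0, by have := hn i; omega⟩ : Fin (n i)) ≠ ⟨1, by have := hn i; omega⟩ := by
    intro h; rw [Fin.mk.injEq] at h; omega
  have h1 := hR (Set.mem_univ (tv i h01 (((|R| + 1 : ℝ)) : 𝕜 i))) i ⟨0, by have := hn i; omega⟩ ⟨1, by have := hn i; omega⟩
  rw [tv, Pi.mulSingle_eq_same, SpecialLinearGroup.transvection_coe, Matrix.add_apply, Matrix.one_apply_ne h01,
    single_apply_same, zero_add, RCLike.norm_ofReal, abs_of_pos (by positivity)] at h1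
  have := le_abs_self R
  linarith

end Pool.Agent.KS6_9.SR
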