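import Pool.Graph.R_seed8.H665M.L3
import Pool.Graph.R_seed8.H665M.J1

/-!
# The space: an `ℓ²` product of cones over quotients by subgroups of finite index

`Γ` acts by isometries on a space `T` satisfying the CN inequality, and has normal subgroups of finite
index which move all points as far as we like. The space is that of `Pool.Graph.R_seed8.H665M`. We show:
the powers of a given element come back to the identity, while the elements of `Λ' \ Λ₀` have uniformly
positive displacement at every point.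
-/

set_option autoImplicit false
set_option linter.unusedSectionVars false

namespace Pool.Agent.KS6_9.SR

open Bac815 Real Filter UniformSpace
open scoped NNReal

/-- uniform displacement -/
theorem disp_lower {Γ T : Type} [Group Γ] [PseudoMetricSpace T] [MulAction Γ T] (P : PD' Γ T)
    (c : ℝ) (hc : 0 < c) (k0 : ℕ) (x : P.X) : ∃ η : ℝ, 0 < η ∧ ∀ δ : Γ,
      (∀ k, k0 ≤ k → ∀ l ∈ P.Λ k, ∀ x : T, c ≤ dist x ((l * δ) • x)) → η ≤ dist (δ • x) x := by
  obtain ⟨u, hu⟩ : ∃ u : P.X0, dist x (u : P.X) < 1/8 := by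
    have := Completion.denseRange_coe (α := P.X0)
    exact this.exists_dist_lt x (by norm_num)
  -- radius of u_k tends to one
  have hr : ∀ (k : ℕ) (a b : T × ℝ≥0), |(a.2 : ℝ) - b.2| ≤ √(P.Q k a b) := by
    intro k a b
    apply Real.abs_le_sqrt
    rw [PD.Q_eq']
    have := Real.cos_le_one (P.A k a.1 b.1)
    have h1 : 0 ≤ 2 * (a.2 : ℝ) * b.2 := by positivity
    have := mul_nonneg h1 (sub_nonneg.2 this)
    linarith
  have hlim : Filter.Tendsto (fun k => P.Q k (u.val k) P.o) Filter.atTop (nhds 0) := u.summable.tendsto_atTop_zero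
  obtain ⟨k, hk, hk0⟩ : ∃ k, P.Q k (u.val k) P.o < 1/4 ∧ k0 ≤ k :=
    ((hlim.eventually (gt_mem_nhds (by norm_num))).and (eventually_ge_atTop k0)).exists
  have hk2 : (1/2 : ℝ) ≤ (u.val k).2 := by
    have h1 := hr k (u.val k) P.o
    have h2 : √(P.Q k (u.val k) P.o) ≤ 1/2 := by
      rw [Real.sqrt_le_left (by norm_num)]; linarith
    have h3 := (abs_le.1 (h1.trans h2)).1
    have h4 : ((P.o.2 : ℝ≥0) : ℝ) = 1 := by simp [PD'.o]
    rw [h4] at h3
    linarith
  -- displacement in the k-th cone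
  set a := min π (P.ε k * c) with ha
  have ha0 : 0 < a := lt_min Real.pi_pos (mul_pos (P.εpos k) hc)
  have haπ : a ≤ π := min_le_left _ _
  have hκ : 0 < 2 * (1 - cos a) := by
    have : cos a < cos 0 := Real.cos_lt_cos_of_nonneg_of_le_pi le_rfl haπ ha0
    rw [Real.cos_zero] at this
    linarith
  have hS : 0 < √(2 * (1 - cos a)) := Real.sqrt_pos.2 hκ
  refine ⟨√(2 * (1 - cos a)) / 16, by positivity, fun δ hδ => ?_⟩
  by_contra hlt
  push Not at hlt
  have hdisp : ∀ v : P.X0, 2 * (1 - cos a) * ((v.val k).2 : ℝ) ^ 2 ≤ dist (δ • v) v ^ 2 := by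
    intro v
    rw [P.dist_X0_sq]
    refine le_trans ?_ (L2_coord P.form' (δ • v) v k)
    rw [P.smul_val, PD.Q_eq']
    have h1 := P.A_ge k c δ (hδ k hk0) (v.val k).1
    have h2 : cos (P.A k (δ • (v.val k).1) (v.val k).1) ≤ cos a :=
      Real.cos_le_cos_of_nonneg_of_le_pi ha0.le (P.A_le_pi k _ _) h1
    simp only [PD'.cact, sub_self]
    have h3 : 0 ≤ ((v.val k).2 : ℝ) ^ 2 := by positivity
    nlinarith
  -- choose v very close to x
  obtain ⟨v, hv⟩ : ∃ v : P.X0, dist x (v : P.X) < min (1/8) (√(2 * (1 - cos a)) / 64) := by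
    have := Completion.denseRange_coe (α := P.X0)
    exact this.exists_dist_lt x (lt_min (by norm_num) (by positivity))
  have hv1 : dist x (v : P.X) < 1/8 := lt_of_lt_of_le hv (min_le_left _ _)
  have hv2 : dist x (v : P.X) < √(2 * (1 - cos a)) / 64 := lt_of_lt_of_le hv (min_le_right _ _)
  have hd : dist (δ • v) v ≤ √(2 * (1 - cos a)) / 8 := by
    have h1 : dist (δ • v) v = dist (δ • (v : P.X)) (v : P.X) := by
      rw [← Completion.coe_smul, Completion.dist_eq]
    have h2 : dist (δ • (v : P.X)) (v : P.X) ≤ dist (δ • (v : P.X)) (δ • x) + dist (δ • x) x + dist x (v : P.X) :=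
      dist_triangle4 _ _ _ _
    rw [P.X_dist_smul, dist_comm (v : P.X) x] at h2
    rw [h1]; linarith
  have hrv : ((v.val k).2 : ℝ) ≤ 1/8 := by
    have h1 := hdisp v
    have h2 : dist (δ • v) v ^ 2 ≤ (√(2 * (1 - cos a)) / 8) ^ 2 := by
      have := dist_nonneg (x := δ • v) (y := v)
      gcongr
    have h3 : (√(2 * (1 - cos a)) / 8) ^ 2 = 2 * (1 - cos a) * (1/8) ^ 2 := by
      rw [div_pow, Real.sq_sqrt hκ.le]; ring
    rw [h3] at h2
    have h4 := le_of_mul_le_mul_left (h1.trans h2) hκ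
    exact le_of_sq_le_sq h4 (by norm_num)
  have huv : dist u v < 1/4 := by
    rw [← Completion.dist_eq]
    have := dist_triangle (u : P.X) x (v : P.X)
    rw [dist_comm (u : P.X) x] at this
    linarith
  have h5 : |((u.val k).2 : ℝ) - (v.val k).2| ≤ dist u v := by
    refine (hr k _ _).trans ?_
    rw [P.dist_X0]
    exact Real.sqrt_le_sqrt (L2_coord P.form' u v k)
  have := (abs_le.1 h5).2
  linarith

/-- the data of one stage -/
structure Stage (Γ : Type) [Group Γ] where
  Λ : Subgroup Γ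
  normal : Λ.Normal
  fin : Λ.FiniteIndex
  R : ℝ
  one_le : 1 ≤ R

theorem exists_space {Γ T : Type} [Group Γ] [PseudoMetricSpace T] [MulAction Γ T] (t0 : T)
    (iso : ∀ (g : Γ) (x y : T), dist (g • x) (g • y) = dist x y)
    (cn : ∀ x y : T, ∀ τ ∈ Set.Icc (0 : ℝ) 1, ∃ m : T, ∀ z : T,
      dist z m ^ 2 ≤ (1 - τ) * dist z x ^ 2 + τ * dist z y ^ 2 - τ * (1 - τ) * dist x y ^ 2)
    (sys : ∀ R : ℝ, ∃ Λ : Subgroup Γ, Λ.Normal ∧ Λ.FiniteIndex ∧
      ∀ l ∈ Λ, l ≠ 1 → ∀ x : T, R ≤ dist x (l • x))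
    (E : ℕ → Subgroup Γ) (En : ∀ j, (E j).Normal) (Ef : ∀ j, (E j).FiniteIndex)
    (Big : ℕ → ℕ → Γ → Prop)
    (pick : ∀ (k s : ℕ) (Λ : Subgroup Γ), Λ.Normal → Λ.FiniteIndex → ∃ γ ∈ Λ, Big k s γ) :
    ∃ (P : PD' Γ T) (γ : ℕ → ℕ → Γ) (Λ' : Subgroup Γ), (∀ s j, s ≤ j → Big j s (γ s j)) ∧
      (∀ s j, γ s j ∈ E j) ∧
      (∀ (s : ℕ) (x : P.X), Tendsto (fun j => dist ((γ s j) • x) x) atTop (nhds 0)) ∧
      Λ'.Normal ∧ Λ'.FiniteIndex ∧ ∀ δ ∈ Λ', δ ≠ 1 → ∀ x : P.X, δ • x ≠ x := by
  choose L Ln Lf Ls using sys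
  set Λ' := L 1 with hΛ'
  have := Ln 1
  have := Lf 1
  have hpick : ∀ (S : Stage Γ) (k s : ℕ), ∃ γ ∈ S.Λ ⊓ E k, Big k s γ := by
    intro S k s
    have := S.normal
    have := S.fin
    have := En k
    have := Ef k
    exact pick k s _ inferInstance inferInstance
  choose γf hγf1 hγf2 using hpick
  set Dn : Stage Γ → ℕ → ℝ := fun S k => ∑ s ∈ Finset.range (k + 1), dist (γf S k s • t0) t0 with hDn
  have hDnle : ∀ S k s, s ≤ k → dist (γf S k s • t0) t0 ≤ Dn S k := by
    intro S k s hs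
    exact Finset.single_le_sum (f := fun s => dist (γf S k s • t0) t0) (fun _ _ => dist_nonneg)
      (Finset.mem_range.2 (by omega))
  let nx : ℕ → Stage Γ → Stage Γ := fun k S =>
    { Λ := S.Λ ⊓ L (max (2 * S.R) (2 * π * 2 ^ (k+1) * (1 + Dn S k)))
      normal := by
        have := S.normal
        have := Ln (max (2 * S.R) (2 * π * 2 ^ (k+1) * (1 + Dn S k)))
        infer_instance
      fin := by
        have := S.fin
        have := Lf (max (2 * S.R) (2 * π * 2 ^ (k+1) * (1 + Dn S k)))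
        infer_instance
      R := max (2 * S.R) (2 * π * 2 ^ (k+1) * (1 + Dn S k))
      one_le := by
        have := S.one_le
        exact le_trans (by linarith) (le_max_left _ _) }
  let S0 : Stage Γ :=
    { Λ := Λ'
      normal := Ln 1
      fin := Lf 1
      R := 1
      one_le := le_rfl }
  let S : ℕ → Stage Γ := fun k => Nat.rec S0 (fun k s => nx k s) k
  have hRpos : ∀ k, 0 < (S k).R := fun k => lt_of_lt_of_le one_pos (S k).one_le
  have hmono : ∀ i j, i ≤ j → (S j).Λ ≤ (S i).Λ := by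
    intro i j hij
    induction hij with
    | refl => exact le_rfl
    | step _ ih => exact le_trans inf_le_left ih
  have hsysk : ∀ k, ∀ l ∈ (S k).Λ, l ≠ 1 → ∀ x : T, (S k).R ≤ dist x (l • x) := by
    intro k
    cases k with
    | zero => exact fun l hl hl1 x => Ls 1 l hl hl1 x
    | succ k => exact fun l hl hl1 x => Ls _ l hl.2 hl1 x
  have hRbig : ∀ k : ℕ, (2:ℝ) ^ k ≤ (S k).R := by
    intro k
    induction k with
    | zero => rw [pow_zero]; exact (S 0).one_le
    | succ k ih =>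
      have h1 : 2 * (S k).R ≤ (S (k+1)).R := le_max_left _ _
      rw [pow_succ]; linarith
  set ε : ℕ → ℝ := fun k => 2 * π / (S k).R with hε
  have hεpos : ∀ k, 0 < ε k := fun k => div_pos (by positivity) (hRpos k)
  have hhalf : ∀ k, ε (k+1) ≤ ε k / 2 := by
    intro k
    have h1 : 2 * (S k).R ≤ (S (k+1)).R := le_max_left _ _
    have h2 := hRpos k
    show 2 * π / (S (k+1)).R ≤ 2 * π / (S k).R / 2
    rw [div_div]
    have h3 : (0:ℝ) ≤ 2 * π := by positivity
    have h4 : 0 < (S k).R * 2 := by linarith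
    exact div_le_div_of_nonneg_left h3 h4 (by linarith)
  have hDb : ∀ k, ε (k+1) * (1 + Dn (S k) k) ≤ (1/2)^(k+1) := by
    intro k
    have h1 : 2 * π * 2 ^ (k+1) * (1 + Dn (S k) k) ≤ (S (k+1)).R := le_max_right _ _
    have h2 := hRpos (k+1)
    show 2 * π / (S (k+1)).R * (1 + Dn (S k) k) ≤ _
    rw [one_div, inv_pow, div_mul_eq_mul_div, div_le_iff₀ h2]
    rw [← div_eq_inv_mul, le_div_iff₀ (by positivity)]
    linarith
  have hgeo : ∀ i n, ε (i + n) ≤ ε i * (1/2)^n := by
    intro i n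
    induction n with
    | zero => simp
    | succ n ih =>
      have := hhalf (i + n)
      calc ε (i + (n+1)) ≤ ε (i + n) / 2 := this
        _ ≤ ε i * (1/2)^n / 2 := by gcongr
        _ = _ := by rw [pow_succ]; ring
  have hεsum : Summable fun k => ε k ^ 2 := by
    have h1 : Summable fun k : ℕ => ε 0 ^ 2 * (1/4 : ℝ)^k :=
      (summable_geometric_of_lt_one (by norm_num) (by norm_num)).mul_left _
    refine Summable.of_nonneg_of_le (fun k => sq_nonneg _) (fun k => ?_) h1
    have h2 := hgeo 0 k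
    rw [zero_add] at h2
    calc ε k ^ 2 ≤ (ε 0 * (1/2)^k)^2 := by
          have := (hεpos k).le
          gcongr
      _ = ε 0 ^ 2 * (1/4)^k := by rw [mul_pow, ← pow_mul, mul_comm k 2, pow_mul]; norm_num
  have hsys : ∀ k, ∀ l ∈ (S k).Λ, l ≠ 1 → ∀ x : T, 2 * π ≤ ε k * dist x (l • x) := by
    intro k l hl hl1 x
    have h1 := hsysk k l hl hl1 x
    calc 2 * π = ε k * (S k).R := by
          show _ = 2 * π / (S k).R * (S k).R
          rw [div_mul_cancel₀ _ (hRpos k).ne']
      _ ≤ _ := mul_le_mul_of_nonneg_left h1 (hεpos k).le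
  let P0 : PD Γ T :=
    { t0 := t0
      Λ := fun k => (S k).Λ
      normal := fun k => (S k).normal
      ε := ε
      εpos := hεpos
      εsum := hεsum
      iso := iso
      cn := cn
      sys := hsys }
  let P : PD' Γ T := { P0 with form' := fun k => P0.form (fun a b c θ e => J1_spherical a b c θ e) k }
  refine ⟨P, fun s j => if s ≤ j then γf (S j) j s else 1, Λ', fun s j hj => ?_, fun s j => ?_, ?_, Ln 1, Lf 1, ?_⟩
  · simp only [if_pos hj]; exact hγf2 _ _ _
  · by_cases hj : s ≤ j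
    · simp only [if_pos hj]; exact (hγf1 _ _ _).2
    · simp only [if_neg hj]; exact (E j).one_mem
  · intro s x
    apply P.recur (fun j => if s ≤ j then γf (S j) j s else 1)
    · intro j i hij
      by_cases hj : s ≤ j
      · simp only [if_pos hj]; exact hmono i j hij (hγf1 (S j) j s).1
      · simp only [if_neg hj]; exact (S i).Λ.one_mem
    · intro j k hjk
      by_cases hj : s ≤ j
      swap
      · simp only [if_neg hj, one_smul, dist_self, mul_zero]; positivity
      simp only [if_pos hj]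
      show ε k * dist ((γf (S j) j s) • t0) t0 ≤ (1/2)^k
      obtain ⟨n, rfl⟩ : ∃ n, k = (j + 1) + n := ⟨k - (j+1), by omega⟩
      have h1 := hgeo (j+1) n
      have h2 := hDb j
      have h3 : (0:ℝ) ≤ dist ((γf (S j) j s) • t0) t0 := dist_nonneg
      have h4 : 0 ≤ ε (j+1) := (hεpos (j+1)).le
      have h5 := hDnle (S j) j s hj
      calc ε (j + 1 + n) * dist ((γf (S j) j s) • t0) t0 ≤ ε (j+1) * (1/2)^n * dist ((γf (S j) j s) • t0) t0 := by gcongr
        _ ≤ ε (j+1) * (1/2)^n * (1 + Dn (S j) j) := by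
          apply mul_le_mul_of_nonneg_left (by linarith) (by positivity)
        _ = (1/2)^n * (ε (j+1) * (1 + Dn (S j) j)) := by ring
        _ ≤ (1/2)^n * (1/2)^(j+1) := by gcongr
        _ = (1/2)^(j+1+n) := by rw [← pow_add, add_comm]
  · intro δ hδ hδ1 x hx
    obtain ⟨k0, hk0⟩ : ∃ k0 : ℕ, dist t0 (δ • t0) < 2 ^ k0 := pow_unbounded_of_one_lt _ (by norm_num)
    obtain ⟨η, h1, h2⟩ := disp_lower P 1 one_pos k0 x
    have h3 := h2 δ fun k hk l hl y => by
      have hl0 : l ∈ Λ' := hmono 0 k (Nat.zero_le k) hl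
      refine Ls 1 (l * δ) (Λ'.mul_mem hl0 hδ) (fun h => ?_) y
      have h4 : δ = l⁻¹ := eq_inv_of_mul_eq_one_right h
      have h5 : δ ∈ (S k).Λ := by rw [h4]; exact (S k).Λ.inv_mem hl
      have h6 := hsysk k δ h5 hδ1 t0
      have h7 := hRbig k
      have h8 : (2:ℝ) ^ k0 ≤ 2 ^ k := pow_le_pow_right₀ (by norm_num) hk
      linarith
    rw [hx, dist_self] at h3
    linarith

end Pool.Agent.KS6_9.SR
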