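import Pool.Agent.KS6_9.SR.Gen
import Pool.Agent.KS6_9.SR.Space
import Pool.Graph.R_seed8.Y839.Mon.Malcev

/-!
# Cocompact lattices in the product: finite generation, residual finiteness, systoles
-/

set_option autoImplicit false
set_option linter.unusedSectionVars false

namespace Pool.Agent.KS6_9.SR

open Matrix Filter Topology Pointwise

section General

variable {G : Type} [Group G] [TopologicalSpace G] [IsTopologicalGroup G]

/-- a compact set of representatives -/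
theorem exists_compact_rep [LocallyCompactSpace G] (Γ : Subgroup G) [CompactSpace (G ⧸ Γ)] :
    ∃ K : Set G, IsCompact K ∧ (1 : G) ∈ K ∧ ∀ g : G, ∃ k ∈ K, ∃ γ ∈ Γ, g = k * γ := by
  have h1 : ∀ g : G, ∃ N : Set G, IsCompact N ∧ N ∈ 𝓝 g := fun g => exists_compact_mem_nhds g
  choose N hN1 hN2 using h1
  have h2 : ∀ q : G ⧸ Γ, ((fun g : G => (g : G ⧸ Γ)) '' (N q.out)) ∈ 𝓝 q := by
    intro q
    have := (QuotientGroup.isOpenMap_coe (N := Γ)).image_mem_nhds (hN2 q.out)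
    rwa [QuotientGroup.out_eq'] at this
  obtain ⟨t, -, ht⟩ := isCompact_univ.elim_nhds_subcover
    (fun q : G ⧸ Γ => (fun g : G => (g : G ⧸ Γ)) '' (N q.out)) (fun q _ => h2 q)
  refine ⟨{1} ∪ ⋃ q ∈ t, N q.out, isCompact_singleton.union (t.isCompact_biUnion fun q _ => hN1 _),
    Or.inl rfl, fun g => ?_⟩
  have h3 := ht (Set.mem_univ (g : G ⧸ Γ))
  rw [Set.mem_iUnion₂] at h3
  obtain ⟨q, hq, k, hk, hkg⟩ := h3
  refine ⟨k, Or.inr (Set.mem_iUnion₂.2 ⟨q, hq, hk⟩), k⁻¹ * g, QuotientGroup.eq.1 hkg, ?_⟩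
  group

theorem finite_inter [T2Space G] (Γ : Subgroup G) [DiscreteTopology Γ] {C : Set G} (hC : IsCompact C) :
    {γ : Γ | (γ : G) ∈ C}.Finite := by
  have h1 : IsClosed (Γ : Set G) := Subgroup.isClosed_of_discrete
  have h2 : IsCompact ((fun γ : Γ => (γ : G)) ⁻¹' C) := h1.isClosedEmbedding_subtypeVal.isCompact_preimage hC
  exact h2.finite_of_discrete

theorem fg_of_cocompact [T2Space G] (Γ : Subgroup G) [DiscreteTopology Γ] {K C : Set G} (hK : IsCompact K)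
    (h1K : (1:G) ∈ K) (hcov : ∀ g : G, ∃ k ∈ K, ∃ γ ∈ Γ, g = k * γ) (hC : IsCompact C) (h1C : (1:G) ∈ C)
    (hgen : Subgroup.closure C = ⊤) : ∃ S : Set Γ, S.Finite ∧ Subgroup.closure S = ⊤ := by
  set S : Set Γ := {γ : Γ | (γ : G) ∈ K⁻¹ * (C ∪ C⁻¹) * K} with hS
  have hSf : S.Finite := finite_inter Γ ((hK.inv.mul (hC.union hC.inv)).mul hK)
  refine ⟨S, hSf, ?_⟩
  set H := Subgroup.closure S with hH
  set A : Set G := {g | ∃ k ∈ K, ∃ γ ∈ H, g = k * (γ : G)} with hA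
  have hstep : ∀ c ∈ C ∪ C⁻¹, ∀ a ∈ A, c * a ∈ A := by
    rintro c hc a ⟨k, hk, γ, hγ, rfl⟩
    obtain ⟨k', hk', γ', hγ', he⟩ := hcov (c * k)
    have h1 : (⟨γ', hγ'⟩ : Γ) ∈ S := by
      show γ' ∈ K⁻¹ * (C ∪ C⁻¹) * K
      refine ⟨k'⁻¹ * c, ⟨k'⁻¹, Set.inv_mem_inv.2 hk', c, hc, rfl⟩, k, hk, ?_⟩
      show k'⁻¹ * c * k = γ'
      rw [mul_assoc, he]; group
    refine ⟨k', hk', ⟨γ', hγ'⟩ * γ, H.mul_mem (Subgroup.subset_closure h1) hγ, ?_⟩
    rw [← mul_assoc, he]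
    show k' * γ' * (γ : G) = k' * (γ' * (γ : G))
    rw [mul_assoc]
  have hall : ∀ g : G, ∀ a ∈ A, g * a ∈ A ∧ g⁻¹ * a ∈ A := by
    intro g
    have hg : g ∈ Subgroup.closure C := by rw [hgen]; exact Subgroup.mem_top _
    induction hg using Subgroup.closure_induction with
    | mem c hc =>
      intro a ha
      exact ⟨hstep c (Or.inl hc) a ha, hstep c⁻¹ (Or.inr (Set.inv_mem_inv.2 hc)) a ha⟩
    | one => intro a ha; simpa using ha
    | mul g h _ _ ihg ihh =>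
      intro a ha
      refine ⟨?_, ?_⟩
      · rw [mul_assoc]
        exact (ihg _ (ihh a ha).1).1
      · rw [_root_.mul_inv_rev, mul_assoc]
        exact (ihh _ (ihg a ha).2).2
    | inv g _ ih =>
      intro a ha
      rw [inv_inv]
      exact ⟨(ih a ha).2, (ih a ha).1⟩
  rw [eq_top_iff]
  intro γ _
  have h1 : (1 : G) ∈ A := ⟨1, h1K, 1, H.one_mem, by simp⟩
  obtain ⟨k, hk, h, hh, he⟩ := (hall (γ : G) 1 h1).1
  rw [mul_one] at he
  have hk2 : (γ * h⁻¹ : Γ) ∈ S := by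
    show (γ : G) * (h : G)⁻¹ ∈ K⁻¹ * (C ∪ C⁻¹) * K
    refine ⟨1, ⟨1, ?_, 1, Or.inl h1C, by simp⟩, k, hk, ?_⟩
    · rw [Set.mem_inv, inv_one]; exact h1K
    · show 1 * k = (γ : G) * (h : G)⁻¹
      rw [he]; group
  have h3 : γ = (γ * h⁻¹) * h := by group
  rw [h3]
  exact H.mul_mem (Subgroup.subset_closure hk2) hh

end General

/-- isometries of finite order have small displacement -/
theorem small_disp {Γ T : Type} [Group Γ] [PseudoMetricSpace T] [MulAction Γ T] (t0 : T)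
    (iso : ∀ (g : Γ) (x y : T), dist (g • x) (g • y) = dist x y)
    (cn : ∀ x y : T, ∀ τ ∈ Set.Icc (0 : ℝ) 1, ∃ m : T, ∀ z : T,
      dist z m ^ 2 ≤ (1 - τ) * dist z x ^ 2 + τ * dist z y ^ 2 - τ * (1 - τ) * dist x y ^ 2)
    (γ : Γ) (N : ℕ) (hN : 1 ≤ N) (h : γ ^ N = 1) (ε : ℝ) (hε : 0 < ε) : ∃ x : T, dist x (γ • x) < ε := by
  set f : T → ℝ := fun x => ∑ k ∈ Finset.range N, dist x (γ ^ k • t0) ^ 2 with hf
  have hN0 : (0:ℝ) < N := by exact_mod_cast hN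
  have hinv : ∀ x, f (γ • x) = f x := by
    intro x
    set g : ℕ → ℝ := fun k => dist (γ • x) (γ ^ k • t0) ^ 2 with hg
    have h1 : ∑ k ∈ Finset.range N, g (k+1) + g 0 = ∑ k ∈ Finset.range N, g k + g N := by
      rw [← Finset.sum_range_succ', Finset.sum_range_succ]
    have h2 : g N = g 0 := by simp only [hg, h, pow_zero]
    have h3 : ∑ k ∈ Finset.range N, g (k+1) = f x := by
      refine Finset.sum_congr rfl fun k _ => ?_
      simp only [hg, pow_succ', mul_smul, iso]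
    show ∑ k ∈ Finset.range N, g k = f x
    linarith
  have hbdd : BddBelow (Set.range f) := ⟨0, by rintro _ ⟨x, rfl⟩; exact Finset.sum_nonneg fun _ _ => sq_nonneg _⟩
  have : Nonempty T := ⟨t0⟩
  obtain ⟨x, hx⟩ : ∃ x, f x < (⨅ x, f x) + N * ε ^ 2 / 4 :=
    exists_lt_of_ciInf_lt (by have : 0 < N * ε ^ 2 / 4 := by positivity
                              linarith)
  refine ⟨x, ?_⟩
  obtain ⟨m, hm⟩ := cn x (γ • x) (1/2) ⟨by norm_num, by norm_num⟩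
  have h1 : f m ≤ (1/2) * f x + (1/2) * f (γ • x) - N * (dist x (γ • x) ^ 2 / 4) := by
    simp only [hf]
    rw [Finset.mul_sum, Finset.mul_sum, ← Finset.sum_add_distrib]
    have h2 : (N:ℝ) * (dist x (γ • x) ^ 2 / 4) = ∑ _k ∈ Finset.range N, dist x (γ • x) ^ 2 / 4 := by
      rw [Finset.sum_const, Finset.card_range, nsmul_eq_mul]
    rw [h2, ← Finset.sum_sub_distrib]
    refine Finset.sum_le_sum fun k _ => ?_
    have := hm (γ ^ k • t0)
    rw [dist_comm m, dist_comm x (γ ^ k • t0), dist_comm (γ • x) (γ ^ k • t0)]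
    linarith
  have h3 : (⨅ x, f x) ≤ f m := ciInf_le hbdd m
  rw [hinv] at h1
  have h4 : N * (dist x (γ • x) ^ 2 / 4) < N * ε ^ 2 / 4 := by linarith
  have h5 : dist x (γ • x) ^ 2 < ε ^ 2 := by
    have h6 : (N:ℝ) * dist x (γ • x) ^ 2 < N * ε ^ 2 := by linarith
    exact lt_of_mul_lt_mul_left h6 hN0.le
  exact lt_of_pow_lt_pow_left₀ 2 hε.le h5

variable {ι : Type} [Fintype ι] [DecidableEq ι] {𝕜 : ι → Type} [∀ i, RCLike (𝕜 i)] {n : ι → ℕ}

theorem one_mem_BB {C : ℝ} (hC : 1 ≤ C) : (1 : GG 𝕜 n) ∈ BB 𝕜 n C := by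
  intro j p q
  rw [Pi.one_apply, Matrix.SpecialLinearGroup.coe_one, Matrix.one_apply]
  split_ifs
  · rw [norm_one]; exact hC
  · rw [norm_zero]; linarith

theorem fg_lattice (hn : ∀ i, 2 ≤ n i) (Γ : Subgroup (GG 𝕜 n)) [DiscreteTopology Γ] [CompactSpace (GG 𝕜 n ⧸ Γ)] :
    ∃ S : Set Γ, S.Finite ∧ Subgroup.closure S = ⊤ := by
  obtain ⟨K, hK, h1K, hcov⟩ := exists_compact_rep Γ
  refine fg_of_cocompact Γ hK h1K hcov (isCompact_BB 2) (one_mem_BB (by norm_num)) ?_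
  rw [eq_top_iff, ← closure_CS hn]
  exact Subgroup.closure_mono CS_subset

theorem res_fin (Γ : Subgroup (GG 𝕜 n)) (S : Set Γ) (hS : S.Finite) (hgen : Subgroup.closure S = ⊤)
    (γ : Γ) (hγ : γ ≠ 1) : ∃ Λ : Subgroup Γ, Λ.Normal ∧ Λ.FiniteIndex ∧ γ ∉ Λ := by
  obtain ⟨i, hi⟩ : ∃ i, (γ : GG 𝕜 n) i ≠ 1 := by
    by_contra hcon
    push Not at hcon
    exact hγ (Subtype.ext (funext hcon))
  have := hS.to_subtype
  let ψ : Γ →* Matrix (Fin (n i)) (Fin (n i)) (𝕜 i) :=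
    (Matrix.SpecialLinearGroup.coeMonoidHom).comp
      ((Pi.evalMonoidHom (fun i => SpecialLinearGroup (Fin (n i)) (𝕜 i)) i).comp Γ.subtype)
  obtain ⟨Q, _, _, q, hq⟩ := Pool.Agent.Y839.Mon.malcev' (fun s : S => (s : Γ))
    (by rw [Subtype.range_coe]; exact hgen) (𝕜 i) ψ γ (fun h => hi (Subtype.ext h))
  refine ⟨q.ker, inferInstance, ?_, hq⟩
  have : Finite q.range := inferInstance
  have : Finite (Γ ⧸ q.ker) := Finite.of_equiv _ (QuotientGroup.quotientKerEquivRange q).symm.toEquiv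
  exact Subgroup.finiteIndex_of_finite_quotient

/-- systoles of normal subgroups of finite index -/
theorem sys_lattice (hn : ∀ i, 2 ≤ n i) (Γ : Subgroup (GG 𝕜 n)) [DiscreteTopology Γ]
    [CompactSpace (GG 𝕜 n ⧸ Γ)] (R : ℝ) :
    ∃ Λ : Subgroup Γ, Λ.Normal ∧ Λ.FiniteIndex ∧ ∀ l ∈ Λ, l ≠ 1 → ∀ x : TS 𝕜 n, R ≤ dist x (l • x) := by
  obtain ⟨K, hK, h1K, hcov⟩ := exists_compact_rep Γ
  obtain ⟨S, hS, hgen⟩ := fg_lattice hn Γ
  set R' := max R 0 with hR'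
  have hR0 : 0 ≤ R' := le_max_right _ _
  set C : ℝ := (∑ i, (n i : ℝ)) * Real.exp (2 * R') + 1 with hC
  have hC1 : 1 ≤ C := by
    have : 0 ≤ (∑ i, (n i : ℝ)) * Real.exp (2 * R') := by positivity
    linarith
  set F : Set Γ := {γ : Γ | (γ : GG 𝕜 n) ∈ K⁻¹ * BB 𝕜 n C * K} with hF
  have hFf : F.Finite := finite_inter Γ ((hK.inv.mul (isCompact_BB C)).mul hK)
  set F' : Set Γ := F \ {1} with hF'
  have hFf' : F'.Finite := hFf.subset Set.sdiff_subset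
  have := hFf'.to_subtype
  choose Λf hΛn hΛf hΛm using fun f : F' => res_fin Γ S hS hgen (f : Γ) (fun h => f.2.2 h)
  refine ⟨⨅ f, Λf f, Subgroup.normal_iInf_normal hΛn, Subgroup.finiteIndex_iInf hΛf, ?_⟩
  intro l hl hl1 x
  by_contra hlt
  push Not at hlt
  have h1 : dist x (l • x) ≤ R' := hlt.le.trans (le_max_left _ _)
  have h2 : Qp x.val ((l : GG 𝕜 n) * x.val) ≤ R' ^ 2 := by
    have h3 := TS_dist_sq x (l • x)
    have h4 : (l • x).val = (l : GG 𝕜 n) * x.val := rfl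
    rw [← h4, ← h3]
    exact pow_le_pow_left₀ dist_nonneg h1 2
  have h5 : Qp 1 (x.val⁻¹ * ((l : GG 𝕜 n) * x.val)) ≤ R' ^ 2 := by
    rw [← Qp_smul x.val⁻¹, inv_mul_cancel] at h2
    exact h2
  have h6 : x.val⁻¹ * ((l : GG 𝕜 n) * x.val) ∈ BB 𝕜 n C := by
    intro i a b
    have h7 := Qp_entries _ R' h5 hR0 i a b
    set u := ‖((x.val⁻¹ * ((l : GG 𝕜 n) * x.val)) i : Matrix (Fin (n i)) (Fin (n i)) (𝕜 i)) a b‖ with hu
    have hu0 : 0 ≤ u := norm_nonneg _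
    have h8 : (n i : ℝ) * Real.exp (2 * R') ≤ (∑ i, (n i : ℝ)) * Real.exp (2 * R') := by
      apply mul_le_mul_of_nonneg_right _ (Real.exp_pos _).le
      exact Finset.single_le_sum (f := fun i => (n i : ℝ)) (fun _ _ => by positivity) (Finset.mem_univ i)
    have h9 : u ^ 2 ≤ C := by linarith
    by_contra h10
    push Not at h10
    nlinarith
  obtain ⟨k, hk, δ, hδ, he⟩ := hcov x.val⁻¹
  have hx : x.val = δ⁻¹ * k⁻¹ := by
    rw [← _root_.mul_inv_rev, ← he, inv_inv]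
  set f : Γ := ⟨δ, hδ⟩ * l * ⟨δ, hδ⟩⁻¹ with hf
  have hfΛ : f ∈ ⨅ f, Λf f := (Subgroup.normal_iInf_normal hΛn).conj_mem l hl _
  have hf1 : f ≠ 1 := by
    intro h
    apply hl1
    have : l = (⟨δ, hδ⟩ : Γ)⁻¹ * f * ⟨δ, hδ⟩ := by rw [hf]; group
    rw [this, h]; group
  have hfF : f ∈ F := by
    show δ * (l : GG 𝕜 n) * δ⁻¹ ∈ K⁻¹ * BB 𝕜 n C * K
    refine ⟨k⁻¹ * (x.val⁻¹ * ((l : GG 𝕜 n) * x.val)), ⟨k⁻¹, Set.inv_mem_inv.2 hk, _, h6, rfl⟩, k, hk, ?_⟩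
    show k⁻¹ * (x.val⁻¹ * ((l : GG 𝕜 n) * x.val)) * k = δ * (l : GG 𝕜 n) * δ⁻¹
    rw [hx]; group
  have hff : f ∈ F' := ⟨hfF, hf1⟩
  exact hΛm ⟨f, hff⟩ ((Subgroup.mem_iInf.1 hfΛ) ⟨f, hff⟩)

theorem infinite_lattice [Nonempty ι] (hn : ∀ i, 2 ≤ n i) (Γ : Subgroup (GG 𝕜 n)) [CompactSpace (GG 𝕜 n ⧸ Γ)] :
    Infinite Γ := by
  by_contra hfin
  rw [not_infinite_iff_finite] at hfin
  obtain ⟨K, hK, h1K, hcov⟩ := exists_compact_rep Γ
  apply not_compact (𝕜 := 𝕜) hn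
  have h1 : (Γ : Set (GG 𝕜 n)).Finite := Set.toFinite _
  have h2 : (Set.univ : Set (GG 𝕜 n)) = K * (Γ : Set (GG 𝕜 n)) := by
    symm
    rw [Set.eq_univ_iff_forall]
    intro g
    obtain ⟨k, hk, γ, hγ, rfl⟩ := hcov g
    exact ⟨k, hk, γ, hγ, rfl⟩
  rw [h2]
  exact hK.mul h1.isCompact

/-- a lattice has an element of infinite order -/
theorem exists_infinite_order [Nonempty ι] (hn : ∀ i, 2 ≤ n i) (Γ : Subgroup (GG 𝕜 n)) [DiscreteTopology Γ]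
    [CompactSpace (GG 𝕜 n ⧸ Γ)] : ∃ γ : Γ, ∀ N, 1 ≤ N → γ ^ N ≠ 1 := by
  obtain ⟨Λ, hΛn, hΛf, hΛ⟩ := sys_lattice hn Γ 1
  have hinf := infinite_lattice hn Γ
  have h1 : Λ ≠ ⊥ := by
    rintro rfl
    have h2 : Nat.card Γ ≠ 0 := by
      rw [← Subgroup.index_bot]; exact hΛf.index_ne_zero
    rw [Nat.card_eq_zero_of_infinite] at h2
    exact h2 rfl
  obtain ⟨⟨γ, hγ⟩, hγ1⟩ := (Subgroup.ne_bot_iff_exists_ne_one).1 h1
  refine ⟨γ, fun N hN h => ?_⟩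
  obtain ⟨x, hx⟩ := small_disp (⟨1⟩ : TS 𝕜 n) (fun (g : Γ) x y => TS_iso (g : GG 𝕜 n) x y) TS_cn γ N hN h 1 one_pos
  exact absurd (hΛ γ hγ (fun h => hγ1 (Subtype.ext h)) x) (not_le.2 hx)

/-- powers of an element of infinite order leave all compact sets -/
theorem leave_compact (Γ : Subgroup (GG 𝕜 n)) [DiscreteTopology Γ] (γ : Γ) (hγ : ∀ N, 1 ≤ N → γ ^ N ≠ 1)
    (N : ℕ → ℕ) (hN : ∀ j, j ≤ N j) (C : ℝ) : ∀ᶠ j in atTop, ((γ ^ (N j) : Γ) : GG 𝕜 n) ∉ BB 𝕜 n C := by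
  have h1 : {g : Γ | (g : GG 𝕜 n) ∈ BB 𝕜 n C}.Finite := finite_inter Γ (isCompact_BB C)
  have hinj : Function.Injective (fun M : ℕ => γ ^ M) := by
    intro a b hab
    rcases lt_trichotomy a b with h | h | h
    · exfalso
      apply hγ (b - a) (by omega)
      have h2 : γ ^ a * γ ^ (b - a) = γ ^ a * 1 := by
        rw [← pow_add, mul_one]
        have : a + (b - a) = b := by omega
        rw [this]; exact hab.symm
      exact mul_left_cancel h2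
    · exact h
    · exfalso
      apply hγ (a - b) (by omega)
      have h2 : γ ^ b * γ ^ (a - b) = γ ^ b * 1 := by
        rw [← pow_add, mul_one]
        have : b + (a - b) = a := by omega
        rw [this]; exact hab
      exact mul_left_cancel h2
  have h2 : {M : ℕ | ((γ ^ M : Γ) : GG 𝕜 n) ∈ BB 𝕜 n C}.Finite :=
    Set.Finite.preimage (f := fun M : ℕ => γ ^ M) hinj.injOn h1
  obtain ⟨M0, hM0⟩ := h2.bddAbove
  filter_upwards [eventually_gt_atTop M0] with j hj hmem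
  have := hM0 (show N j ∈ {M : ℕ | ((γ ^ M : Γ) : GG 𝕜 n) ∈ BB 𝕜 n C} from hmem)
  have := hN j
  omega

end Pool.Agent.KS6_9.SR
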