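import Pool.Agent.KS6_9.SR.Core

/-!
# Lattices in groups with a generating contraction: general theorem
-/

set_option autoImplicit false
set_option linter.unusedSectionVars false

namespace Pool.Agent.KS6_9.SR

open Filter Topology Bac815 Pointwise

variable {G : Type} [Group G] [TopologicalSpace G] [IsTopologicalGroup G]

theorem compactlyGenerated_of_connected [LocallyCompactSpace G] [ConnectedSpace G] :
    IsCompactlyGenerated G := by
  obtain ⟨V, hV, hV1⟩ := exists_compact_mem_nhds (1 : G)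
  refine ⟨V, hV, ?_⟩
  set H := Subgroup.closure V with hH
  have hVH : V ⊆ H := Subgroup.subset_closure
  have hopen : IsOpen (H : Set G) := Subgroup.isOpen_of_mem_nhds _ (Filter.mem_of_superset hV1 hVH)
  have hclosed : IsClosed (H : Set G) := Subgroup.isClosed_of_isOpen _ hopen
  have h1 : (H : Set G) = Set.univ := IsClopen.eq_univ ⟨hclosed, hopen⟩ ⟨1, H.one_mem⟩
  exact SetLike.coe_injective (by rw [h1]; rfl)

theorem fg_of_gen [T2Space G] [LocallyCompactSpace G] (hG : IsCompactlyGenerated G) (Γ : Subgroup G)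
    [DiscreteTopology Γ] [CompactSpace (G ⧸ Γ)] : ∃ S : Set Γ, S.Finite ∧ Subgroup.closure S = ⊤ := by
  obtain ⟨K, hK, h1K, hcov⟩ := exists_compact_rep Γ
  obtain ⟨C, hC, hgen⟩ := hG
  refine fg_of_cocompact Γ hK h1K hcov (hC.union (isCompact_singleton (x := (1 : G)))) (Or.inr rfl) ?_
  rw [eq_top_iff, ← hgen]
  exact Subgroup.closure_mono fun x hx => Or.inl hx

theorem infinite_of_noncompact [LocallyCompactSpace G] [NoncompactSpace G] (Γ : Subgroup G)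
    [CompactSpace (G ⧸ Γ)] : Infinite Γ := by
  by_contra hfin
  rw [not_infinite_iff_finite] at hfin
  obtain ⟨K, hK, h1K, hcov⟩ := exists_compact_rep Γ
  have h1 : (Γ : Set G).Finite := Set.toFinite _
  have h2 : (Set.univ : Set G) = K * (Γ : Set G) := by
    symm
    rw [Set.eq_univ_iff_forall]
    intro g
    obtain ⟨k, hk, γ, hγ, rfl⟩ := hcov g
    exact ⟨k, hk, γ, hγ, rfl⟩
  apply noncompact_univ G
  rw [h2]
  exact hK.mul h1.isCompact

/-- finitely many nontrivial elements can be avoided -/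
theorem avoid {Γ : Type} [Group Γ] [Group.ResiduallyFinite Γ] (F : Set Γ) (hF : F.Finite) :
    ∃ Λ : Subgroup Γ, Λ.Normal ∧ Λ.FiniteIndex ∧ ∀ l ∈ Λ, l ∈ F → l = 1 := by
  set F' : Set Γ := F \ {1} with hF'
  have hFf' : F'.Finite := hF.subset Set.sdiff_subset
  have := hFf'.to_subtype
  choose H hH using fun f : F' => Group.exists_finiteIndexNormalSubgroup_notMem (f : Γ) (fun h => f.2.2 h)
  refine ⟨⨅ f, (H f).toSubgroup, Subgroup.normal_iInf_normal fun f => inferInstance,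
    Subgroup.finiteIndex_iInf fun f => inferInstance, ?_⟩
  intro l hl hlF
  by_contra hl1
  exact hH ⟨l, hlF, hl1⟩ ((Subgroup.mem_iInf.1 hl) ⟨l, hlF, hl1⟩)

theorem sys_of_proper {Γ : Type} [Group Γ] [Group.ResiduallyFinite Γ] {T : Type} [PseudoMetricSpace T]
    [MulAction Γ T] (t0 : T) (iso : ∀ (g : Γ) (x y : T), dist (g • x) (g • y) = dist x y)
    (hprop : ∀ R : ℝ, {g : Γ | dist t0 (g • t0) ≤ R}.Finite) (D : ℝ)
    (hcob : ∀ x : T, ∃ g : Γ, dist x (g • t0) ≤ D) (R : ℝ) :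
    ∃ Λ : Subgroup Γ, Λ.Normal ∧ Λ.FiniteIndex ∧ ∀ l ∈ Λ, l ≠ 1 → ∀ x : T, R ≤ dist x (l • x) := by
  obtain ⟨Λ, hn, hf, hΛ⟩ := avoid _ (hprop (R + 2 * D))
  refine ⟨Λ, hn, hf, fun l hl hl1 x => ?_⟩
  by_contra hlt
  push Not at hlt
  obtain ⟨g, hg⟩ := hcob x
  apply hl1
  have h1 : g⁻¹ * l * g ∈ Λ := by
    have := hn.conj_mem l hl g⁻¹
    rwa [inv_inv] at this
  have h2 : dist t0 ((g⁻¹ * l * g) • t0) ≤ R + 2 * D := by
    have e1 : dist t0 ((g⁻¹ * l * g) • t0) = dist (g • t0) (l • g • t0) := by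
      rw [← iso g t0, ← mul_smul, ← mul_smul]
      congr 2; group
    rw [e1]
    have e2 : dist (g • t0) (l • g • t0) ≤ dist (g • t0) x + dist x (l • x) + dist (l • x) (l • g • t0) :=
      dist_triangle4 _ _ _ _
    rw [iso, dist_comm (g • t0) x] at e2
    linarith
  have h3 := hΛ _ h1 h2
  have h4 : l = g * (g⁻¹ * l * g) * g⁻¹ := by group
  rw [h4, h3]; group

theorem sys_transitive [T2Space G] [LocallyCompactSpace G] (Γ : Subgroup G)
    [DiscreteTopology Γ] [CompactSpace (G ⧸ Γ)] [Group.ResiduallyFinite Γ] {T : Type} [PseudoMetricSpace T]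
    [MulAction G T] (t0 : T) (iso : ∀ (g : G) (x y : T), dist (g • x) (g • y) = dist x y)
    (htr : ∀ x : T, ∃ g : G, x = g • t0)
    (hprop : ∀ R : ℝ, ∃ C : Set G, IsCompact C ∧ ∀ g : G, dist t0 (g • t0) ≤ R → g ∈ C) (R : ℝ) :
    ∃ Λ : Subgroup Γ, Λ.Normal ∧ Λ.FiniteIndex ∧ ∀ l ∈ Λ, l ≠ 1 → ∀ x : T, R ≤ dist x (l • x) := by
  obtain ⟨K, hK, h1K, hcov⟩ := exists_compact_rep Γ
  obtain ⟨C, hC, hCm⟩ := hprop R
  obtain ⟨Λ, hn, hf, hΛ⟩ := avoid _ (finite_inter Γ ((hK.inv.mul hC).mul hK))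
  refine ⟨Λ, hn, hf, fun l hl hl1 x => ?_⟩
  by_contra hlt
  push Not at hlt
  obtain ⟨g, rfl⟩ := htr x
  have h1 : g⁻¹ * (l : G) * g ∈ C := by
    apply hCm
    have e1 : dist t0 ((g⁻¹ * (l : G) * g) • t0) = dist (g • t0) ((l : G) • g • t0) := by
      rw [← iso g t0, ← mul_smul, ← mul_smul]
      congr 2; group
    rw [e1]
    exact hlt.le
  obtain ⟨k, hk, δ, hδ, he⟩ := hcov g⁻¹
  have hx : g = δ⁻¹ * k⁻¹ := by rw [← _root_.mul_inv_rev, ← he, inv_inv]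
  have h2 : (⟨δ, hδ⟩ * l * ⟨δ, hδ⟩⁻¹ : Γ) ∈ Λ := hn.conj_mem l hl _
  have h3 := hΛ _ h2 (by
    show δ * (l : G) * δ⁻¹ ∈ K⁻¹ * C * K
    refine ⟨k⁻¹ * (g⁻¹ * (l : G) * g), ⟨k⁻¹, Set.inv_mem_inv.2 hk, _, h1, rfl⟩, k, hk, ?_⟩
    show k⁻¹ * (g⁻¹ * (l : G) * g) * k = δ * (l : G) * δ⁻¹
    rw [hx]; group)
  apply hl1
  have h4 : l = (⟨δ, hδ⟩ : Γ)⁻¹ * (⟨δ, hδ⟩ * l * ⟨δ, hδ⟩⁻¹) * ⟨δ, hδ⟩ := by group
  rw [h4, h3]; group

/-- the theorem for transitive actions of the ambient group -/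
theorem core_transitive [T2Space G] [LocallyCompactSpace G] [SecondCountableTopology G] [NoncompactSpace G]
    (hG : IsCompactlyGenerated G) (hd : (dagger G).FiniteIndex) (Γ : Subgroup G) (hΓ : IsCocompactLattice Γ)
    (hrf : (∃ S : Set Γ, S.Finite ∧ Subgroup.closure S = ⊤) → Group.ResiduallyFinite Γ) {T : Type}
    [PseudoMetricSpace T]
    [MulAction G T] (t0 : T) (iso : ∀ (g : G) (x y : T), dist (g • x) (g • y) = dist x y)
    (cn : ∀ x y : T, ∀ τ ∈ Set.Icc (0 : ℝ) 1, ∃ m : T, ∀ z : T,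
      dist z m ^ 2 ≤ (1 - τ) * dist z x ^ 2 + τ * dist z y ^ 2 - τ * (1 - τ) * dist x y ^ 2)
    (htr : ∀ x : T, ∃ g : G, x = g • t0)
    (hprop : ∀ R : ℝ, ∃ C : Set G, IsCompact C ∧ ∀ g : G, dist t0 (g • t0) ≤ R → g ∈ C) :
    RigidityFails Γ := by
  obtain ⟨h1, h2⟩ := hΓ
  have hfg := fg_of_gen hG Γ
  have := hrf hfg
  have := infinite_of_noncompact Γ
  exact core hd Γ hfg (MonoidHom.id Γ) (fun x => ⟨x, rfl⟩) t0 (fun g x y => iso g x y) cn
    (sys_transitive Γ t0 iso htr hprop)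

/-- comparison triangles exist -/
theorem exists_comparison (a b c : ℝ) (ha : 0 ≤ a) (hb : 0 ≤ b) (hc : 0 ≤ c) (h1 : a ≤ b + c)
    (h2 : b ≤ a + c) (h3 : c ≤ a + b) : ∃ x y z : ℂ, ‖x - y‖ = a ∧ ‖x - z‖ = b ∧ ‖y - z‖ = c := by
  rcases eq_or_lt_of_le ha with rfl | ha'
  · refine ⟨0, 0, b, by simp, ?_, ?_⟩
    · rw [zero_sub, norm_neg, Complex.norm_real, Real.norm_of_nonneg hb]
    · rw [zero_sub, norm_neg, Complex.norm_real, Real.norm_of_nonneg hb]; linarith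
  · set u : ℝ := (a ^ 2 + b ^ 2 - c ^ 2) / (2 * a) with hu
    have hu1 : 2 * a * u = a ^ 2 + b ^ 2 - c ^ 2 := by rw [hu]; field_simp
    have hub : u ^ 2 ≤ b ^ 2 := by
      have h4 : -b ≤ u := by
        have : 2 * a * (-b) ≤ 2 * a * u := by
          rw [hu1]
          nlinarith
        exact le_of_mul_le_mul_left this (by linarith)
      have h5 : u ≤ b := by
        have : 2 * a * u ≤ 2 * a * b := by
          rw [hu1]
          nlinarith [mul_nonneg (show 0 ≤ c - (a - b) by linarith) (show 0 ≤ c + (a - b) by linarith)]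
        exact le_of_mul_le_mul_left this (by linarith)
      nlinarith
    set v : ℝ := √(b ^ 2 - u ^ 2) with hv
    have hv2 : v ^ 2 = b ^ 2 - u ^ 2 := Real.sq_sqrt (by linarith)
    have hn : ∀ p q r : ℝ, 0 ≤ r → p ^ 2 + q ^ 2 = r ^ 2 → ‖(⟨p, q⟩ : ℂ)‖ = r := by
      intro p q r hr h
      rw [Complex.norm_def, Complex.normSq_mk, ← sq, ← sq, h, Real.sqrt_sq hr]
    refine ⟨0, ⟨a, 0⟩, ⟨u, v⟩, ?_, ?_, ?_⟩
    · rw [zero_sub, norm_neg]; exact hn _ _ _ ha (by ring)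
    · rw [zero_sub, norm_neg]; exact hn _ _ _ hb (by rw [hv2]; ring)
    · have h4 : (⟨a, 0⟩ : ℂ) - ⟨u, v⟩ = ⟨a - u, 0 - v⟩ := rfl
      rw [h4]
      apply hn _ _ _ hc
      have : (a - u) ^ 2 + (0 - v) ^ 2 = a ^ 2 - 2 * a * u + u ^ 2 + v ^ 2 := by ring
      rw [this, hv2, hu1]; ring

/-- CAT(0) spaces satisfy the CN inequality -/
theorem cn_of_CAT0 {X : Type} [MetricSpace X] (hX : IsCAT0 X) : ∀ x y : X, ∀ τ ∈ Set.Icc (0 : ℝ) 1,
    ∃ m : X, ∀ z : X,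
      dist z m ^ 2 ≤ (1 - τ) * dist z x ^ 2 + τ * dist z y ^ 2 - τ * (1 - τ) * dist x y ^ 2 := by
  intro x y τ hτ
  obtain ⟨α, hα⟩ := hX.geodesic x y
  refine ⟨α τ, fun z => ?_⟩
  obtain ⟨β, hβ⟩ := hX.geodesic x z
  obtain ⟨x', y', z', h1, h2, h3⟩ := exists_comparison (dist x y) (dist x z) (dist y z) dist_nonneg
    dist_nonneg dist_nonneg (by
      have := dist_triangle x z y
      rw [dist_comm z y] at this; exact this) (dist_triangle x y z) (by
      have := dist_triangle y x z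
      rw [dist_comm y x] at this; exact this)
  have h4 := hX.comparison x y z α β hα hβ x' y' z' h1 h2 h3 τ hτ 1 (by norm_num)
  rw [hβ.2.1] at h4
  have h5 : ‖((1 - (τ : ℂ)) * x' + τ * y') - ((1 - ((1 : ℝ) : ℂ)) * x' + ((1 : ℝ) : ℂ) * z')‖ ^ 2 =
      (1 - τ) * ‖x' - z'‖ ^ 2 + τ * ‖y' - z'‖ ^ 2 - τ * (1 - τ) * ‖x' - y'‖ ^ 2 := by
    rw [← Complex.normSq_eq_norm_sq, ← Complex.normSq_eq_norm_sq, ← Complex.normSq_eq_norm_sq,
      ← Complex.normSq_eq_norm_sq]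
    simp only [Complex.normSq_apply, Complex.sub_re, Complex.sub_im, Complex.add_re, Complex.add_im,
      Complex.mul_re, Complex.mul_im, Complex.ofReal_re, Complex.ofReal_im, Complex.one_re, Complex.one_im]
    ring
  rw [h1, h2, h3] at h5
  have h6 : dist (α τ) z ^ 2 ≤ ‖((1 - (τ : ℂ)) * x' + τ * y') - ((1 - ((1 : ℝ) : ℂ)) * x' + ((1 : ℝ) : ℂ) * z')‖ ^ 2 :=
    pow_le_pow_left₀ dist_nonneg h4 2
  rw [h5] at h6
  rw [dist_comm z (α τ), dist_comm z x, dist_comm z y]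
  exact h6

/-- an isometric action as a `MulAction` -/
@[reducible] def toAct {H X : Type} [Group H] [MetricSpace X] (ρ : H → X → X) (h : IsIsometricAction ρ) :
    MulAction H X where
  smul := ρ
  one_smul := h.map_one
  mul_smul := h.map_mul

/-- the general theorem -/
theorem general [T2Space G] [LocallyCompactSpace G] [SecondCountableTopology G]
    (hG : IsCompactlyGenerated G) (hd : (dagger G).FiniteIndex) (Γ : Subgroup G) (hΓ : IsCocompactLattice Γ)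
    (Q : Type) [Group Q] [Infinite Q] (hrf : Group.ResiduallyFinite Q) (q : Γ →* Q)
    (hq : Function.Surjective q) (T : Type) [MetricSpace T] (hT : IsCAT0 T) (τ : Q → T → T)
    (hτ : IsIsometricAction τ) (t0 : T) (hprop : ∀ R : ℝ, {g : Q | dist t0 (τ g t0) ≤ R}.Finite)
    (D : ℝ) (hcob : ∀ x : T, ∃ g : Q, dist x (τ g t0) ≤ D) : RigidityFails Γ := by
  obtain ⟨h1, h2⟩ := hΓ
  have hfg := fg_of_gen hG Γ
  let _ := toAct τ hτ
  exact core hd Γ hfg q hq t0 hτ.isometry (cn_of_CAT0 hT) (sys_of_proper t0 hτ.isometry hprop D hcob)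

end Pool.Agent.KS6_9.SR
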