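import Pool.Agent.KS6_9.SR.Rec

/-!
# Density of recurrent points

`Γ` is a discrete subgroup with `G/Γ` compact in a locally compact second countable group, `a ∈ G`.
Haar measure gives: for a dense set of `x ∈ G` the powers of `x⁻¹ a x` return to all neighbourhoods of `Γ`.
-/

set_option autoImplicit false
set_option linter.unusedSectionVars false

namespace Pool.Agent.KS6_9.SR

open Filter Topology Pointwise MeasureTheory MeasureTheory.Measure
open scoped ENNReal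

variable {G : Type} [Group G] [TopologicalSpace G] [IsTopologicalGroup G] [T2Space G]
  [LocallyCompactSpace G] [SecondCountableTopology G]

theorem countable_discrete (Γ : Subgroup G) [DiscreteTopology Γ] : Countable Γ := by
  rw [← TopologicalSpace.separableSpace_iff_countable (α := Γ)]
  infer_instance

theorem modular_pow (a : G) (m : ℕ) : modularCharacterFun (a ^ m) = modularCharacterFun a ^ m := by
  induction m with
  | zero => rw [pow_zero, pow_zero, modularCharacterFun_map_one]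
  | succ m ih => rw [pow_succ, pow_succ, modularCharacterFun_map_mul, ih]

theorem nonwander_aux (Γ : Subgroup G) [DiscreteTopology Γ] [CompactSpace (G ⧸ Γ)] (a : G)
    (ha : 1 ≤ modularCharacterFun a) (V : Set G) (hV : IsOpen V) (hne : V.Nonempty)
    (hsm : ∀ v ∈ V, ∀ w ∈ V, v⁻¹ * w ∈ Γ → v⁻¹ * w = 1) (N : ℕ) :
    ∃ n, N ≤ n ∧ ∃ γ ∈ Γ, ∃ v ∈ V, a ^ n * v * γ ∈ V := by
  by_contra hcon
  push Not at hcon
  borelize G
  obtain ⟨K, hK, h1K, hcov⟩ := exists_compact_rep Γ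
  have hcount : Countable Γ := countable_discrete Γ
  set ν : Measure G := Measure.haar with hν
  set μ : Measure G := ν.inv with hμ
  have hVm : MeasurableSet V := hV.measurableSet
  have hKm : MeasurableSet K := hK.isClosed.measurableSet
  set L : ℕ → Set G := fun m => (fun x => (a ^ m)⁻¹ * x) ⁻¹' V with hL
  have hLm : ∀ m, MeasurableSet (L m) := fun m => (measurable_const_mul _) hVm
  have hLV : ∀ m, μ V ≤ μ (L m) := by
    intro m
    have e1 : μ (L m) = modularCharacterFun (a ^ m) • ν V⁻¹ := by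
      rw [hμ, Measure.inv_apply]
      have e2 : (L m)⁻¹ = (fun x => x * a ^ m) ⁻¹' V⁻¹ := by
        ext y
        simp only [hL, Set.mem_inv, Set.mem_preimage, _root_.mul_inv_rev]
      rw [e2]
      have e3 : Measure.map (· * a ^ m) ν V⁻¹ = ν ((fun x => x * a ^ m) ⁻¹' V⁻¹) :=
        Measure.map_apply (measurable_mul_const _) hVm.inv
      rw [← e3, map_right_mul_eq_modularCharacterFun_smul]
      rfl
    have e4 : μ V = ν V⁻¹ := by rw [hμ, Measure.inv_apply]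
    rw [e1, e4, modular_pow]
    have h1 : (1 : ℝ≥0∞) ≤ ((modularCharacterFun a ^ m : NNReal) : ℝ≥0∞) := by
      exact_mod_cast one_le_pow₀ ha
    calc ν V⁻¹ = 1 * ν V⁻¹ := (one_mul _).symm
      _ ≤ ((modularCharacterFun a ^ m : NNReal) : ℝ≥0∞) * ν V⁻¹ := by gcongr
      _ = _ := rfl
  set R : Γ → ℕ → Set G := fun γ m => (fun x => x * (γ : G)) ⁻¹' (L m) ∩ K with hR
  have hRm : ∀ γ m, MeasurableSet (R γ m) := fun γ m => ((measurable_mul_const _) (hLm m)).inter hKm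
  set E : ℕ → Set G := fun m => ⋃ γ, R γ m with hE
  have hEm : ∀ m, MeasurableSet (E m) := fun m => MeasurableSet.iUnion fun γ => hRm γ m
  have hEK : ∀ m, E m ⊆ K := fun m => Set.iUnion_subset fun γ => Set.inter_subset_right
  have hLE : ∀ m, μ (L m) ≤ μ (E m) := by
    intro m
    have hdisj : Pairwise (Function.onFun Disjoint fun γ => R γ m) := by
      intro γ δ hγδ
      rw [Function.onFun, Set.disjoint_left]
      rintro x ⟨hx1, -⟩ ⟨hx2, -⟩
      apply hγδ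
      have hx1' : (a ^ m)⁻¹ * (x * (γ : G)) ∈ V := hx1
      have hx2' : (a ^ m)⁻¹ * (x * (δ : G)) ∈ V := hx2
      have e : ((a ^ m)⁻¹ * (x * (γ : G)))⁻¹ * ((a ^ m)⁻¹ * (x * (δ : G))) = ((γ⁻¹ * δ : Γ) : G) := by
        rw [Subgroup.coe_mul, Subgroup.coe_inv]; group
      have h2 := hsm _ hx1' _ hx2' (by rw [e]; exact (γ⁻¹ * δ).2)
      rw [e] at h2
      have h3 : γ⁻¹ * δ = 1 := Subtype.ext h2
      exact inv_mul_eq_one.1 h3
    have hsub : L m ⊆ ⋃ γ : Γ, (fun x => x * (γ : G)⁻¹) ⁻¹' (R γ m) := by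
      intro x hx
      obtain ⟨k, hk, γ, hγ, rfl⟩ := hcov x
      refine Set.mem_iUnion.2 ⟨⟨γ, hγ⟩, ?_, ?_⟩
      · show k * γ * γ⁻¹ * γ ∈ L m
        rwa [inv_mul_cancel_right]
      · show k * γ * γ⁻¹ ∈ K
        rwa [mul_inv_cancel_right]
    calc μ (L m) ≤ μ (⋃ γ : Γ, (fun x => x * (γ : G)⁻¹) ⁻¹' (R γ m)) := measure_mono hsub
      _ ≤ ∑' γ : Γ, μ ((fun x => x * (γ : G)⁻¹) ⁻¹' (R γ m)) := measure_iUnion_le _
      _ = ∑' γ : Γ, μ (R γ m) := tsum_congr fun γ => measure_preimage_mul_right μ _ _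
      _ = μ (E m) := (measure_iUnion hdisj fun γ => hRm γ m).symm
  set N' := max N 1 with hN'
  have hEdisj : Pairwise (Function.onFun Disjoint fun j : ℕ => E (j * N')) := by
    have key : ∀ i j : ℕ, j < i → ∀ x, x ∈ E (i * N') → x ∈ E (j * N') → False := by
      intro i j hij x hx1 hx2
      obtain ⟨γ, hγ, -⟩ := Set.mem_iUnion.1 hx1
      obtain ⟨δ, hδ, -⟩ := Set.mem_iUnion.1 hx2
      have h1 : (a ^ (i * N'))⁻¹ * (x * (γ : G)) ∈ V := hγ
      have h2 : (a ^ (j * N'))⁻¹ * (x * (δ : G)) ∈ V := hδ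
      obtain ⟨d, rfl⟩ : ∃ d, i = j + (d + 1) := ⟨i - j - 1, by omega⟩
      have hge : N ≤ (d + 1) * N' := by
        have := le_max_left N 1
        nlinarith [Nat.zero_le d, Nat.zero_le N']
      apply hcon ((d + 1) * N') hge ((γ : G)⁻¹ * δ) (Γ.mul_mem (Γ.inv_mem γ.2) δ.2) _ h1
      have e : a ^ ((d + 1) * N') * ((a ^ ((j + (d + 1)) * N'))⁻¹ * (x * (γ : G))) * ((γ : G)⁻¹ * δ) =
          (a ^ (j * N'))⁻¹ * (x * (δ : G)) := by
        have : a ^ ((j + (d + 1)) * N') = a ^ (j * N') * a ^ ((d + 1) * N') := by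
          rw [← pow_add]; congr 1; ring
        rw [this]; group
      rw [e]; exact h2
    intro i j hij
    rw [Function.onFun, Set.disjoint_left]
    intro x hx1 hx2
    rcases lt_or_gt_of_ne hij with h | h
    · exact key j i h x hx2 hx1
    · exact key i j h x hx1 hx2
  have hVpos : μ V ≠ 0 := by
    rw [hμ, Measure.inv_apply]
    exact (hV.inv.measure_pos ν hne.inv).ne'
  have hKfin : μ K < ⊤ := by
    rw [hμ, Measure.inv_apply]
    exact hK.inv.measure_lt_top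
  have h1 : (⊤ : ℝ≥0∞) ≤ μ K := by
    calc (⊤ : ℝ≥0∞) = ∑' _ : ℕ, μ V := (ENNReal.tsum_const_eq_top_of_ne_zero hVpos).symm
      _ ≤ ∑' j : ℕ, μ (E (j * N')) := ENNReal.tsum_le_tsum fun j => (hLV _).trans (hLE _)
      _ = μ (⋃ j : ℕ, E (j * N')) := (measure_iUnion hEdisj fun j => hEm _).symm
      _ ≤ μ K := measure_mono (Set.iUnion_subset fun j => hEK _)
  exact absurd hKfin (not_lt.2 h1)

theorem nonwander (Γ : Subgroup G) [DiscreteTopology Γ] [CompactSpace (G ⧸ Γ)] (a : G)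
    (V : Set G) (hV : IsOpen V) (hne : V.Nonempty) (N : ℕ) :
    ∃ n, N ≤ n ∧ ∃ γ ∈ Γ, ∃ v ∈ V, a ^ n * v * γ ∈ V := by
  -- a smaller set
  obtain ⟨v0, hv0⟩ := hne
  obtain ⟨U, hU, hUΓ⟩ : ∃ U ∈ 𝓝 (1 : G), ∀ u ∈ U, u ∈ Γ → u = 1 := by
    have h1 : IsOpen ({1} : Set Γ) := isOpen_discrete _
    obtain ⟨O, hO, hO1⟩ := isOpen_induced_iff.1 h1
    refine ⟨O, hO.mem_nhds ?_, fun u hu huΓ => ?_⟩
    · have : (1 : Γ) ∈ (Subtype.val ⁻¹' O : Set Γ) := by rw [hO1]; rfl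
      exact this
    · have : (⟨u, huΓ⟩ : Γ) ∈ (Subtype.val ⁻¹' O : Set Γ) := hu
      rw [hO1] at this
      exact congrArg Subtype.val this
  have h2 : (fun p : G × G => p.1⁻¹ * p.2) ⁻¹' U ∈ 𝓝 ((v0, v0) : G × G) := by
    apply ContinuousAt.preimage_mem_nhds
    · exact (continuous_fst.inv.mul continuous_snd).continuousAt
    · simpa using hU
  rw [mem_nhds_prod_iff] at h2
  obtain ⟨A, hA, B, hB, hAB⟩ := h2
  obtain ⟨O, hOsub, hO, hOv⟩ := mem_nhds_iff.1 (Filter.inter_mem hA hB)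
  have hV' : IsOpen (V ∩ O) := hV.inter hO
  have hne' : (V ∩ O).Nonempty := ⟨v0, hv0, hOv⟩
  have hsm : ∀ v ∈ V ∩ O, ∀ w ∈ V ∩ O, v⁻¹ * w ∈ Γ → v⁻¹ * w = 1 := by
    intro v hv w hw h
    exact hUΓ _ (hAB (Set.mk_mem_prod (hOsub hv.2).1 (hOsub hw.2).2)) h
  rcases le_total 1 (modularCharacterFun a) with h | h
  · obtain ⟨n, hn, γ, hγ, v, hv, hm⟩ := nonwander_aux Γ a h _ hV' hne' hsm N
    exact ⟨n, hn, γ, hγ, v, hv.1, hm.1⟩
  · have h' : 1 ≤ modularCharacterFun a⁻¹ := by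
      have e : modularCharacterFun a * modularCharacterFun a⁻¹ = 1 := by
        rw [← modularCharacterFun_map_mul, mul_inv_cancel, modularCharacterFun_map_one]
      by_contra hlt
      push Not at hlt
      have : modularCharacterFun a * modularCharacterFun a⁻¹ < 1 :=
        mul_lt_one_of_nonneg_of_lt_one_right h zero_le hlt
      rw [e] at this
      exact lt_irrefl _ this
    obtain ⟨n, hn, γ, hγ, v, hv, hm⟩ := nonwander_aux Γ a⁻¹ h' _ hV' hne' hsm N
    refine ⟨n, hn, γ⁻¹, Γ.inv_mem hγ, (a⁻¹) ^ n * v * γ, hm.1, ?_⟩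
    have e : a ^ n * ((a⁻¹) ^ n * v * γ) * γ⁻¹ = v := by rw [inv_pow]; group
    rw [e]; exact hv.1

/-- recurrent conjugates are dense -/
theorem dense_ret (Γ : Subgroup G) [DiscreteTopology Γ] [CompactSpace (G ⧸ Γ)] (a : G) :
    Dense {x : G | Ret (x⁻¹ * a * x) (Γ : Set G)} := by
  obtain ⟨W, hW⟩ := (𝓝 (1 : G)).exists_antitone_basis
  have hWk : ∀ k, W k ∈ 𝓝 (1 : G) := fun k => hW.1.mem_of_mem trivial
  set O : ℕ × ℕ → Set G := fun p => {x | ∃ n, p.2 ≤ n ∧ ∃ γ ∈ Γ, x⁻¹ * a ^ n * x * γ ∈ interior (W p.1)} with hO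
  have hOo : ∀ p, IsOpen (O p) := by
    intro p
    have : O p = ⋃ n : ℕ, ⋃ _ : p.2 ≤ n, ⋃ γ : Γ, (fun x : G => x⁻¹ * a ^ n * x * (γ : G)) ⁻¹' (interior (W p.1)) := by
      ext x
      simp only [hO, Set.mem_iUnion, Set.mem_preimage]
      constructor
      · rintro ⟨n, hn, γ, hγ, h⟩; exact ⟨n, hn, ⟨γ, hγ⟩, h⟩
      · rintro ⟨n, hn, γ, h⟩; exact ⟨n, hn, γ, γ.2, h⟩
    rw [this]
    refine isOpen_iUnion fun n => isOpen_iUnion fun _ => isOpen_iUnion fun γ => ?_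
    exact isOpen_interior.preimage (((continuous_inv.mul continuous_const).mul continuous_id).mul continuous_const)
  have hOd : ∀ p, Dense (O p) := by
    intro p
    rw [dense_iff_inter_open]
    rintro V hV ⟨v0, hv0⟩
    have h2 : (fun q : G × G => q.1⁻¹ * q.2) ⁻¹' (interior (W p.1)) ∈ 𝓝 ((v0, v0) : G × G) := by
      apply ContinuousAt.preimage_mem_nhds
      · exact (continuous_fst.inv.mul continuous_snd).continuousAt
      · simpa using hWk p.1
    rw [mem_nhds_prod_iff] at h2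
    obtain ⟨A, hA, B, hB, hAB⟩ := h2
    obtain ⟨U, hUsub, hU, hUv⟩ := mem_nhds_iff.1 (Filter.inter_mem hA hB)
    obtain ⟨n, hn, γ, hγ, v, hv, hm⟩ := nonwander Γ a (V ∩ U) (hV.inter hU) ⟨v0, hv0, hUv⟩ p.2
    refine ⟨v, hv.1, n, hn, γ, hγ, ?_⟩
    have h3 := hAB (Set.mk_mem_prod (hUsub hv.2).1 (hUsub hm.2).2)
    have e : v⁻¹ * a ^ n * v * γ = v⁻¹ * (a ^ n * v * γ) := by group
    rw [e]; exact h3
  have hd : Dense (⋂ p, O p) := dense_iInter_of_isOpen hOo hOd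
  apply hd.mono
  intro x hx U hU N
  obtain ⟨k, -, hk⟩ := hW.1.mem_iff.1 hU
  obtain ⟨n, hn, γ, hγ, hm⟩ := Set.mem_iInter.1 hx (k, N)
  refine ⟨n, hn, γ, hγ, ?_⟩
  have h4 : (x⁻¹ * a * x) ^ n = x⁻¹ * a ^ n * x := by
    have := conj_pow (i := n) (a := x⁻¹) (b := a)
    rwa [inv_inv] at this
  rw [h4]
  exact hk (interior_subset hm)

end Pool.Agent.KS6_9.SR
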