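import Pool.Agent.KS6_9.SR.Cls

/-!
# Products of special linear groups
-/

set_option autoImplicit false
set_option linter.unusedSectionVars false

namespace Pool.Agent.KS6_9.SR

open Filter Topology Bac815 Matrix

section SL

variable {m K : Type} [Fintype m] [DecidableEq m] [RCLike K]

theorem continuous_tv' {p q : m} (hpq : p ≠ q) :
    Continuous fun x : K => SpecialLinearGroup.transvection hpq x := by
  refine continuous_induced_rng.2 ?_
  refine continuous_matrix fun a b => ?_
  show Continuous fun x : K => (1 + single p q x : Matrix m m K) a b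
  simp only [Matrix.add_apply, single_apply]
  by_cases h : p = a ∧ q = b
  · simp only [if_pos h]; fun_prop
  · simp only [if_neg h]; fun_prop

theorem conj_tv' (D : SpecialLinearGroup m K) (d : m → K) (hD : (D : Matrix m m K) = diagonal d)
    (hd : ∀ i, d i ≠ 0) {a b : m} (hab : a ≠ b) (x : K) :
    D * SpecialLinearGroup.transvection hab x * D⁻¹ =
      SpecialLinearGroup.transvection hab (d a * x * (d b)⁻¹) := by
  have h : D * SpecialLinearGroup.transvection hab x =
      SpecialLinearGroup.transvection hab (d a * x * (d b)⁻¹) * D := by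
    apply SpecialLinearGroup.coeMonoidHom_injective
    simp only [map_mul, SpecialLinearGroup.coeMonoidHom_apply]
    rw [hD]
    simp only [SpecialLinearGroup.transvection_coe]
    ext i j
    rw [Matrix.mul_diagonal, Matrix.diagonal_mul]
    simp only [Matrix.add_apply, Matrix.one_apply, single_apply]
    by_cases hij : i = j
    · subst hij
      have h1 : ¬ (a = i ∧ b = i) := fun h => hab (h.1.trans h.2.symm)
      simp [h1]
    · by_cases h1 : a = i ∧ b = j
      · obtain ⟨rfl, rfl⟩ := h1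
        have := hd b
        simp only [if_neg hij, and_self, if_true, zero_add]
        field_simp
      · simp [hij, h1]
  rw [h]
  group

/-- a diagonal matrix with positive entries -/
noncomputable def dg (s : m → ℝ) (hs : ∑ i, s i = 0) : SpecialLinearGroup m K :=
  ⟨De s, by rw [De_det, hs, Real.exp_zero]; simp⟩

theorem dg_pow (s : m → ℝ) (hs : ∑ i, s i = 0) (k : ℕ) :
    (((dg s hs : SpecialLinearGroup m K) ^ k : SpecialLinearGroup m K) : Matrix m m K) =
      diagonal fun i => ((Real.exp (k * s i) : ℝ) : K) := by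
  rw [Matrix.SpecialLinearGroup.coe_pow]
  show (De s) ^ k = _
  rw [De, Matrix.diagonal_pow]
  congr 1
  funext i
  rw [Pi.pow_apply, ← RCLike.ofReal_pow, ← Real.exp_nat_mul]

theorem dg_inv (s : m → ℝ) (hs : ∑ i, s i = 0) (hs' : ∑ i, (-s) i = 0) :
    (dg s hs : SpecialLinearGroup m K)⁻¹ = dg (-s) hs' := by
  rw [inv_eq_iff_mul_eq_one]
  apply SpecialLinearGroup.coeMonoidHom_injective
  simp only [map_mul, SpecialLinearGroup.coeMonoidHom_apply, map_one]
  show De s * De (-s) = 1
  rw [De_mul, add_neg_cancel, De_zero]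

theorem dg_contracts (s : m → ℝ) (hs : ∑ i, s i = 0) {p q : m} (hpq : p ≠ q) (h : s p < s q) (x : K) :
    Tendsto (fun n : ℕ => (dg s hs : SpecialLinearGroup m K) ^ n * SpecialLinearGroup.transvection hpq x *
      ((dg s hs : SpecialLinearGroup m K) ^ n)⁻¹) atTop (𝓝 1) := by
  have h1 : ∀ n : ℕ, (dg s hs : SpecialLinearGroup m K) ^ n * SpecialLinearGroup.transvection hpq x *
      ((dg s hs : SpecialLinearGroup m K) ^ n)⁻¹ = SpecialLinearGroup.transvection hpq
        (((Real.exp (n * s p) : ℝ) : K) * x * (((Real.exp (n * s q) : ℝ) : K))⁻¹) := fun n =>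
    conj_tv' _ _ (dg_pow s hs n) (fun i => by
      have := (Real.exp_pos (n * s i)).ne'
      exact_mod_cast this) hpq x
  simp only [h1]
  have h2 : Tendsto (fun n : ℕ => (((Real.exp (n * s p) : ℝ) : K) * x * (((Real.exp (n * s q) : ℝ) : K))⁻¹)) atTop (𝓝 0) := by
    have h3 : Tendsto (fun n : ℕ => ‖x‖ * Real.exp (-(n * (s q - s p)))) atTop (𝓝 0) := by
      have h4 : Tendsto (fun n : ℕ => (n : ℝ) * (s q - s p)) atTop atTop :=
        tendsto_natCast_atTop_atTop.atTop_mul_const (by linarith)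
      have := ((Real.tendsto_exp_neg_atTop_nhds_zero).comp h4).const_mul ‖x‖
      rw [mul_zero] at this
      exact this
    apply squeeze_zero_norm (fun n => ?_) h3
    rw [norm_mul, norm_mul, norm_inv, RCLike.norm_ofReal, RCLike.norm_ofReal, abs_of_pos (Real.exp_pos _),
      abs_of_pos (Real.exp_pos _)]
    apply le_of_eq
    have : -((n : ℝ) * (s q - s p)) = n * s p - n * s q := by ring
    rw [this, Real.exp_sub]
    field_simp
  have h5 := (continuous_tv' (K := K) hpq).tendsto 0 |>.comp h2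
  simp only [SpecialLinearGroup.transvection_coeff_zero] at h5
  exact h5

end SL

variable {ι : Type} [Fintype ι] [DecidableEq ι] {𝕜 : ι → Type} [∀ i, RCLike (𝕜 i)] {n : ι → ℕ}

/-- the exponents -/
noncomputable def sx (N : ℕ) (p : Fin N) : ℝ := (p : ℝ) - ((N : ℝ) - 1) / 2

theorem sx_sum (N : ℕ) : ∑ p, sx N p = 0 := by
  unfold sx
  rw [Finset.sum_sub_distrib, Finset.sum_const, Finset.card_univ, Fintype.card_fin, nsmul_eq_mul,
    Fin.sum_univ_eq_sum_range (fun p => (p : ℝ)) N]
  have h : ∀ N : ℕ, ∑ p ∈ Finset.range N, (p : ℝ) = N * (((N : ℝ) - 1) / 2) := by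
    intro N
    induction N with
    | zero => simp
    | succ N ih => rw [Finset.sum_range_succ, ih]; push_cast; ring
  rw [h, sub_self]

theorem sx_neg_sum (N : ℕ) : ∑ p, (-(sx N)) p = 0 := by
  simp only [Pi.neg_apply, Finset.sum_neg_distrib, sx_sum, neg_zero]

/-- the contraction -/
noncomputable def ax (𝕜 : ι → Type) [∀ i, RCLike (𝕜 i)] (n : ι → ℕ) : GG 𝕜 n := fun i => dg (sx (n i)) (sx_sum _)

/-- two contraction groups which generate -/
theorem dagger_top {G : Type} [Group G] [TopologicalSpace G] [IsTopologicalGroup G] (a : G)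
    (h : Subgroup.closure (con a ∪ con a⁻¹) = ⊤) : dagger G = ⊤ := by
  rw [eq_top_iff, ← h]
  refine le_trans (Subgroup.closure_mono ?_) (Subgroup.le_topologicalClosure _)
  rintro u (hu | hu)
  · exact Set.mem_iUnion.2 ⟨a, hu⟩
  · exact Set.mem_iUnion.2 ⟨a⁻¹, hu⟩

theorem ax_gen (hn : ∀ i, 2 ≤ n i) : dagger (GG 𝕜 n) = ⊤ := by
  have key : ∀ (s : ∀ i, Fin (n i) → ℝ) (hs : ∀ i, ∑ p, s i p = 0) (i : ι) (p q : Fin (n i)) (hpq : p ≠ q)
      (_ : s i p < s i q) (x : 𝕜 i), tv i hpq x ∈ con (fun i => dg (s i) (hs i) : GG 𝕜 n) := by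
    intro s hs i p q hpq hlt x
    have h1 : ∀ k : ℕ, (fun i => dg (s i) (hs i) : GG 𝕜 n) ^ k * tv i hpq x * ((fun i => dg (s i) (hs i) : GG 𝕜 n) ^ k)⁻¹ =
        Pi.mulSingle i ((dg (s i) (hs i) : SpecialLinearGroup (Fin (n i)) (𝕜 i)) ^ k *
          SpecialLinearGroup.transvection hpq x * ((dg (s i) (hs i) : SpecialLinearGroup (Fin (n i)) (𝕜 i)) ^ k)⁻¹) := by
      intro k
      funext j
      rw [tv]
      by_cases hj : j = i
      · subst hj
        simp only [Pi.mul_apply, Pi.inv_apply, Pi.pow_apply, Pi.mulSingle_eq_same]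
      · rw [Pi.mulSingle_eq_of_ne hj]
        simp only [Pi.mul_apply, Pi.inv_apply, Pi.pow_apply, Pi.mulSingle_eq_of_ne hj, mul_one, mul_inv_cancel]
    show Tendsto _ _ _
    simp only [h1]
    have h2 := dg_contracts (K := 𝕜 i) (s i) (hs i) hpq hlt x
    have h3 : Continuous (fun h : SpecialLinearGroup (Fin (n i)) (𝕜 i) => (Pi.mulSingle i h : GG 𝕜 n)) :=
      (continuous_const (y := (1 : GG 𝕜 n))).update i continuous_id
    have h4 := (h3.tendsto 1).comp h2
    rw [Pi.mulSingle_one] at h4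
    exact h4
  have hinv : (ax 𝕜 n)⁻¹ = fun i => dg (-(sx (n i))) (sx_neg_sum _) := by
    funext i
    rw [Pi.inv_apply, ax, dg_inv (sx (n i)) (sx_sum _) (sx_neg_sum _)]
  have htop : Subgroup.closure (con (ax 𝕜 n) ∪ con (ax 𝕜 n)⁻¹) = ⊤ := by
    apply eq_top_of_tv hn
    intro i a b hab x
    apply Subgroup.subset_closure
    rcases lt_or_gt_of_ne (fun h => hab (Fin.ext h) : (a : ℕ) ≠ b) with h | h
    · left
      apply key (fun i => sx (n i)) (fun i => sx_sum _) i a b hab
      unfold sx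
      have : (a : ℝ) < b := by exact_mod_cast h
      linarith
    · right
      rw [hinv]
      apply key (fun i => -(sx (n i))) (fun i => sx_neg_sum _) i a b hab
      simp only [Pi.neg_apply, sx]
      have : (b : ℝ) < a := by exact_mod_cast h
      linarith
  exact dagger_top _ htop

theorem product_case [Nonempty ι] (hn : ∀ i, 2 ≤ n i) (Γ : Subgroup (GG 𝕜 n)) (hΓ : IsCocompactLattice Γ) :
    RigidityFails Γ := by
  have hnc : NoncompactSpace (GG 𝕜 n) := ⟨not_compact hn⟩
  have hcg : IsCompactlyGenerated (GG 𝕜 n) := by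
    refine ⟨BB 𝕜 n 2, isCompact_BB 2, ?_⟩
    rw [eq_top_iff, ← closure_CS hn]
    exact Subgroup.closure_mono CS_subset
  refine core_transitive hcg (by rw [ax_gen hn]; infer_instance) Γ hΓ (fun hfg => rf_linear hfg fun g hg => ?_) (⟨1⟩ : TS 𝕜 n)
    TS_iso TS_cn (fun x => ⟨x.val, ?_⟩) (fun R => ?_)
  · obtain ⟨i, hi⟩ : ∃ i, (g : GG 𝕜 n) i ≠ 1 := by
      by_contra hcon
      push Not at hcon
      exact hg (Subtype.ext (funext hcon))
    refine ⟨n i, 𝕜 i, inferInstance, (Matrix.SpecialLinearGroup.coeMonoidHom).comp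
      ((Pi.evalMonoidHom (fun i => SpecialLinearGroup (Fin (n i)) (𝕜 i)) i).comp Γ.subtype), ?_⟩
    intro h
    exact hi (Subtype.ext h)
  · cases x with
    | mk v =>
      show TS.mk v = TS.mk (v * 1)
      rw [mul_one]
  · set C : ℝ := (∑ i, (n i : ℝ)) * Real.exp (2 * max R 0) + 1 with hC
    refine ⟨BB 𝕜 n C, isCompact_BB C, fun g hg i a b => ?_⟩
    have h1 : dist (⟨1⟩ : TS 𝕜 n) (g • (⟨1⟩ : TS 𝕜 n)) ≤ max R 0 := hg.trans (le_max_left _ _)
    have h2 := TS_dist_sq (⟨1⟩ : TS 𝕜 n) (g • (⟨1⟩ : TS 𝕜 n))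
    have h3 : (g • (⟨1⟩ : TS 𝕜 n)).val = g := by
      show g * 1 = g
      rw [mul_one]
    rw [h3] at h2
    have h4 : Qp 1 g ≤ (max R 0) ^ 2 := by
      rw [← h2]
      exact pow_le_pow_left₀ dist_nonneg h1 2
    have h7 := Qp_entries _ (max R 0) h4 (le_max_right _ _) i a b
    set u := ‖(g i : Matrix (Fin (n i)) (Fin (n i)) (𝕜 i)) a b‖ with hu
    have hu0 : 0 ≤ u := norm_nonneg _
    have h8 : (n i : ℝ) * Real.exp (2 * max R 0) ≤ (∑ i, (n i : ℝ)) * Real.exp (2 * max R 0) := by
      apply mul_le_mul_of_nonneg_right _ (Real.exp_pos _).le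
      exact Finset.single_le_sum (f := fun i => (n i : ℝ)) (fun _ _ => by positivity) (Finset.mem_univ i)
    have h9 : u ^ 2 ≤ C := by linarith
    have hC1 : 1 ≤ C := by
      have : 0 ≤ (∑ i, (n i : ℝ)) * Real.exp (2 * max R 0) := by positivity
      linarith
    by_contra h10
    push Not at h10
    nlinarith

end Pool.Agent.KS6_9.SR
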