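import Pool.Agent.KS6_9.SR.Lat

/-!
# Recurrence

If `G/Γ` is compact and `a ∈ G`, there is `x ∈ G` such that `x⁻¹ a ^ n x` and `x⁻¹ a ^ (-n) x` come back
near `Γ` infinitely often, and then near every normal subgroup of finite index of `Γ`.
-/

set_option autoImplicit false
set_option linter.unusedSectionVars false

namespace Pool.Agent.KS6_9.SR

open Filter Topology Pointwise

variable {G : Type} [Group G] [TopologicalSpace G] [IsTopologicalGroup G]

/-- `a ^ n` returns to every neighbourhood of `Γ` -/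
def Ret (a : G) (Γ : Set G) : Prop := ∀ W ∈ 𝓝 (1 : G), ∀ N : ℕ, ∃ n, N ≤ n ∧ ∃ γ ∈ Γ, a ^ n * γ ∈ W

/-- the closed sets invariant under `a` and `Γ` -/
structure Inv (a : G) (Γ : Subgroup G) (A : Set G) : Prop where
  closed : IsClosed A
  ne : A.Nonempty
  left : ∀ g ∈ A, a * g ∈ A
  left' : ∀ g ∈ A, a⁻¹ * g ∈ A
  right : ∀ g ∈ A, ∀ γ ∈ Γ, g * γ ∈ A

theorem Inv.symm {a : G} {Γ : Subgroup G} {A : Set G} (h : Inv a Γ A) : Inv a⁻¹ Γ A where
  closed := h.closed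
  ne := h.ne
  left := h.left'
  left' := by rw [inv_inv]; exact h.left
  right := h.right

theorem Inv.meets {a : G} {Γ : Subgroup G} {A K : Set G} (h : Inv a Γ A)
    (hcov : ∀ g : G, ∃ k ∈ K, ∃ γ ∈ Γ, g = k * γ) : (A ∩ K).Nonempty := by
  obtain ⟨g, hg⟩ := h.ne
  obtain ⟨k, hk, γ, hγ, rfl⟩ := hcov g
  refine ⟨k, ?_, hk⟩
  have := h.right _ hg γ⁻¹ (Γ.inv_mem hγ)
  rwa [mul_inv_cancel_right] at this

theorem exists_minimal [T2Space G] [LocallyCompactSpace G] (Γ : Subgroup G) [CompactSpace (G ⧸ Γ)] (a : G) :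
    ∃ A, Inv a Γ A ∧ ∀ B, Inv a Γ B → B ⊆ A → A ⊆ B := by
  obtain ⟨K, hK, h1K, hcov⟩ := exists_compact_rep Γ
  obtain ⟨A, hA1, hA2⟩ := zorn_superset_nonempty {A | Inv a Γ A} (by
    intro c hc hchain hne
    refine ⟨⋂₀ c, ⟨isClosed_sInter fun A hA => (hc hA).closed, ?_, ?_, ?_, ?_⟩, fun s hs => Set.sInter_subset_of_mem hs⟩
    · -- nonempty
      have : Nonempty c := hne.to_subtype
      have h1 : (⋂ A : c, (A : Set G) ∩ K).Nonempty := by
        apply IsCompact.nonempty_iInter_of_directed_nonempty_isCompact_isClosed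
        · intro A B
          rcases hchain.total A.2 B.2 with h | h
          · exact ⟨A, le_rfl, Set.inter_subset_inter_left _ h⟩
          · exact ⟨B, Set.inter_subset_inter_left _ h, le_rfl⟩
        · intro A
          exact (hc A.2).meets hcov
        · intro A
          exact hK.inter_left (hc A.2).closed
        · intro A
          exact (hc A.2).closed.inter hK.isClosed
      obtain ⟨x, hx⟩ := h1
      exact ⟨x, fun A hA => (Set.mem_iInter.1 hx ⟨A, hA⟩).1⟩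
    · exact fun g hg A hA => (hc hA).left g (hg A hA)
    · exact fun g hg A hA => (hc hA).left' g (hg A hA)
    · exact fun g hg γ hγ A hA => (hc hA).right g (hg A hA) γ hγ) Set.univ
      ⟨isClosed_univ, ⟨1, trivial⟩, fun _ _ => trivial, fun _ _ => trivial, fun _ _ _ _ => trivial⟩
  exact ⟨A, hA2.prop, fun B hB hBA => hA2.le_of_le hB hBA⟩

theorem ret_of_minimal [T2Space G] [LocallyCompactSpace G] (Γ : Subgroup G) [CompactSpace (G ⧸ Γ)] (a : G)
    (A : Set G) (hA : Inv a Γ A) (hmin : ∀ B, Inv a Γ B → B ⊆ A → A ⊆ B) (x : G) (hx : x ∈ A) :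
    Ret (x⁻¹ * a * x) (Γ : Set G) := by
  obtain ⟨K, hK, h1K, hcov⟩ := exists_compact_rep Γ
  set S : ℕ → Set G := fun N => {g | ∃ n, N ≤ n ∧ ∃ γ ∈ Γ, g = a ^ n * x * γ} with hS
  have hSA : ∀ N, S N ⊆ A := by
    rintro N g ⟨n, -, γ, hγ, rfl⟩
    apply hA.right _ _ γ hγ
    clear hγ
    induction n with
    | zero => simpa using hx
    | succ n ih =>
      rw [pow_succ', mul_assoc]
      exact hA.left _ ih
  have hSanti : ∀ M N, M ≤ N → S N ⊆ S M := by
    rintro M N h g ⟨n, hn, γ, hγ, rfl⟩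
    exact ⟨n, h.trans hn, γ, hγ, rfl⟩
  have hSne : ∀ N, (closure (S N)).Nonempty := fun N => ⟨a ^ N * x * 1, subset_closure ⟨N, le_rfl, 1, Γ.one_mem, rfl⟩⟩
  have hSright : ∀ N, ∀ g ∈ closure (S N), ∀ γ ∈ Γ, g * γ ∈ closure (S N) := by
    intro N g hg γ hγ
    have hc : Continuous fun g : G => g * γ := continuous_mul_const γ
    refine map_mem_closure (f := fun g : G => g * γ) hc hg ?_
    rintro _ ⟨n, hn, γ', hγ', rfl⟩
    exact ⟨n, hn, γ' * γ, Γ.mul_mem hγ' hγ, by group⟩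
  set B : Set G := ⋂ N, closure (S N) with hB
  have hBI : Inv a Γ B := by
    refine ⟨isClosed_iInter fun N => isClosed_closure, ?_, ?_, ?_, ?_⟩
    · have h1 : (⋂ N : ℕ, closure (S N) ∩ K).Nonempty := by
        apply IsCompact.nonempty_iInter_of_directed_nonempty_isCompact_isClosed
        · intro M N
          exact ⟨max M N, Set.inter_subset_inter_left _ (closure_mono (hSanti _ _ (le_max_left _ _))),
            Set.inter_subset_inter_left _ (closure_mono (hSanti _ _ (le_max_right _ _)))⟩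
        · intro N
          obtain ⟨g, hg⟩ := hSne N
          obtain ⟨k, hk, γ, hγ, rfl⟩ := hcov g
          refine ⟨k, ?_, hk⟩
          have := hSright N _ hg γ⁻¹ (Γ.inv_mem hγ)
          rwa [mul_inv_cancel_right] at this
        · intro N
          exact hK.inter_left isClosed_closure
        · intro N
          exact isClosed_closure.inter hK.isClosed
      obtain ⟨y, hy⟩ := h1
      exact ⟨y, Set.mem_iInter.2 fun N => (Set.mem_iInter.1 hy N).1⟩
    · intro g hg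
      refine Set.mem_iInter.2 fun N => ?_
      have hc : Continuous fun g : G => a * g := continuous_const_mul a
      refine map_mem_closure hc (Set.mem_iInter.1 hg N) ?_
      rintro _ ⟨n, hn, γ', hγ', rfl⟩
      exact ⟨n + 1, by omega, γ', hγ', by rw [pow_succ']; group⟩
    · intro g hg
      refine Set.mem_iInter.2 fun N => ?_
      have hc : Continuous fun g : G => a⁻¹ * g := continuous_const_mul a⁻¹
      refine map_mem_closure hc (Set.mem_iInter.1 hg (N+1)) ?_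
      rintro _ ⟨n, hn, γ', hγ', rfl⟩
      obtain ⟨m, rfl⟩ : ∃ m, n = m + 1 := ⟨n - 1, by omega⟩
      exact ⟨m, by omega, γ', hγ', by rw [pow_succ']; group⟩
    · intro g hg γ hγ
      exact Set.mem_iInter.2 fun N => hSright N g (Set.mem_iInter.1 hg N) γ hγ
  have hBA : B ⊆ A := fun g hg => closure_minimal (hSA 0) hA.closed (Set.mem_iInter.1 hg 0)
  have hxB : x ∈ B := hmin B hBI hBA hx
  intro W hW N
  have h1 := Set.mem_iInter.1 hxB N
  have h2 : (fun g : G => x⁻¹ * g) ⁻¹' W ∈ 𝓝 x := by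
    apply (continuous_const_mul x⁻¹).continuousAt.preimage_mem_nhds
    rwa [inv_mul_cancel]
  obtain ⟨g, hg1, n, hn, γ, hγ, rfl⟩ := mem_closure_iff_nhds.1 h1 _ h2
  refine ⟨n, hn, γ, hγ, ?_⟩
  have h3 : (x⁻¹ * a * x) ^ n * γ = x⁻¹ * (a ^ n * x * γ) := by
    have h4 : (x⁻¹ * a * x) ^ n = x⁻¹ * a ^ n * x := by
      have := conj_pow (i := n) (a := x⁻¹) (b := a)
      rwa [inv_inv] at this
    rw [h4]; group
  rw [h3]
  exact hg1

/-- recurrence passes to normal subgroups of finite index -/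
theorem ret_lift (Γ : Subgroup G) (a : G) (h : Ret a (Γ : Set G)) (Λ : Subgroup Γ) [Λ.Normal] [Λ.FiniteIndex] :
    ∀ W ∈ 𝓝 (1 : G), ∀ N : ℕ, ∃ n, N ≤ n ∧ ∃ γ ∈ Λ, a ^ n * (γ : G) ∈ W := by
  classical
  have hfin : Finite (Γ ⧸ Λ) := inferInstance
  -- good classes
  set Good : Γ ⧸ Λ → Prop := fun q => ∀ W ∈ 𝓝 (1 : G), ∀ N : ℕ, ∃ n, N ≤ n ∧ ∃ γ : Γ, (γ : Γ ⧸ Λ) = q ∧ a ^ n * (γ : G) ∈ W with hGood
  obtain ⟨q, hq⟩ : ∃ q, Good q := by
    by_contra hcon
    push Not at hcon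
    have h2 : ∀ q : Γ ⧸ Λ, ∃ W ∈ 𝓝 (1 : G), ∃ N : ℕ, ∀ n, N ≤ n → ∀ γ : Γ, (γ : Γ ⧸ Λ) = q → a ^ n * (γ : G) ∉ W := by
      intro q
      have := hcon q
      simp only [hGood] at this
      push Not at this
      obtain ⟨W, hW, N, hN⟩ := this
      exact ⟨W, hW, N, fun n hn γ hγ => hN n hn γ hγ⟩
    choose W hW N hN using h2
    have := Fintype.ofFinite (Γ ⧸ Λ)
    obtain ⟨n, hn, γ, hγ, hm⟩ := h (⋂ q, W q) (Filter.iInter_mem.2 hW) (∑ q, N q)
    apply hN ((⟨γ, hγ⟩ : Γ) : Γ ⧸ Λ) n _ ⟨γ, hγ⟩ rfl (Set.mem_iInter.1 hm _)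
    exact (Finset.single_le_sum (f := N) (fun _ _ => Nat.zero_le _) (Finset.mem_univ _)).trans hn
  have hmul : ∀ p q, Good p → Good q → Good (q * p) := by
    intro p q hp hq W hW N
    obtain ⟨V, hV, hVV⟩ : ∃ V ∈ 𝓝 (1 : G), ∀ v ∈ V, ∀ w ∈ V, v * w ∈ W := exists_nhds_one_split hW
    obtain ⟨n, hn, γ, hγ, hm⟩ := hp V hV N
    have h3 : (fun g : G => a ^ n * g * (a ^ n)⁻¹) ⁻¹' V ∈ 𝓝 (1 : G) := by
      apply ContinuousAt.preimage_mem_nhds
      · exact ((continuous_const_mul (a ^ n)).mul continuous_const).continuousAt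
      · rwa [mul_one, mul_inv_cancel]
    obtain ⟨m, hm0, δ, hδ, hm'⟩ := hq _ h3 0
    refine ⟨n + m, by omega, δ * γ, ?_, ?_⟩
    · rw [← hδ, ← hγ]; rfl
    · have h4 : a ^ (n + m) * ((δ * γ : Γ) : G) = (a ^ n * (a ^ m * (δ : G)) * (a ^ n)⁻¹) * (a ^ n * (γ : G)) := by
        rw [pow_add]
        show a ^ n * a ^ m * ((δ : G) * (γ : G)) = _
        group
      rw [h4]
      exact hVV _ hm' _ hm
  have hpow : ∀ k : ℕ, Good (q ^ (k + 1)) := by
    intro k
    induction k with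
    | zero => simpa using hq
    | succ k ih => rw [pow_succ]; exact hmul _ _ hq ih
  have h5 : Good 1 := by
    have h6 := hpow (Nat.card (Γ ⧸ Λ) - 1)
    have h7 : Nat.card (Γ ⧸ Λ) - 1 + 1 = Nat.card (Γ ⧸ Λ) := Nat.sub_add_cancel Nat.card_pos
    rw [h7, pow_card_eq_one'] at h6
    exact h6
  intro W hW N
  obtain ⟨n, hn, γ, hγ, hm⟩ := h5 W hW N
  exact ⟨n, hn, γ, (QuotientGroup.eq_one_iff γ).1 hγ, hm⟩

theorem exists_ret [T2Space G] [LocallyCompactSpace G] (Γ : Subgroup G) [CompactSpace (G ⧸ Γ)] (a : G) :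
    ∃ x : G, Ret (x⁻¹ * a * x) (Γ : Set G) ∧ Ret (x⁻¹ * a⁻¹ * x) (Γ : Set G) := by
  obtain ⟨A, hA, hmin⟩ := exists_minimal Γ a
  obtain ⟨x, hx⟩ := hA.ne
  refine ⟨x, ret_of_minimal Γ a A hA hmin x hx, ret_of_minimal Γ a⁻¹ A hA.symm (fun B hB hBA => ?_) x hx⟩
  have := hB.symm
  rw [inv_inv] at this
  exact hmin B this hBA

end Pool.Agent.KS6_9.SR
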