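import Pool.Agent.KS6_9.SR.Prd
import Pool.Agent.KS6_9.SR.Alg

/-!
# The special linear group, and a cocompact lattice of `SL(3,ℝ)`
-/

set_option autoImplicit false
set_option linter.unusedSectionVars false

namespace Pool.Agent.KS6_9.SR

open Filter Topology Bac815 Matrix

variable {n : ℕ} {K : Type} [RCLike K]

theorem dg_gen (hn : 2 ≤ n) : dagger (SpecialLinearGroup (Fin n) K) = ⊤ := by
  have : Nontrivial (Fin n) := nontriv_fin hn
  have htop : Subgroup.closure (con (dg (sx n) (sx_sum n) : SpecialLinearGroup (Fin n) K) ∪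
      con (dg (sx n) (sx_sum n) : SpecialLinearGroup (Fin n) K)⁻¹) = ⊤ := by
    apply eq_top_of_transvections
    intro a b hab x
    apply Subgroup.subset_closure
    rcases lt_or_gt_of_ne (fun h => hab (Fin.ext h) : (a : ℕ) ≠ b) with h | h
    · left
      apply dg_contracts (sx n) (sx_sum n) hab
      unfold sx
      have : (a : ℝ) < b := by exact_mod_cast h
      linarith
    · right
      rw [dg_inv (sx n) (sx_sum n) (sx_neg_sum n)]
      apply dg_contracts (-(sx n)) (sx_neg_sum n) hab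
      simp only [Pi.neg_apply, sx]
      have : (b : ℝ) < a := by exact_mod_cast h
      linarith
  exact dagger_top _ htop

theorem SL_compgen (hn : 2 ≤ n) : IsCompactlyGenerated (SpecialLinearGroup (Fin n) K) := by
  have : Nontrivial (Fin n) := nontriv_fin hn
  refine ⟨_, isCompact_SL 2, ?_⟩
  apply eq_top_of_transvections
  intro a b hab x
  obtain ⟨k, hk⟩ := exists_nat_gt ‖x‖
  have hk0 : (0:ℝ) < k := lt_of_le_of_lt (norm_nonneg _) hk
  have hk1 : (k : K) ≠ 0 := by
    have : (k:ℝ) ≠ 0 := hk0.ne'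
    exact_mod_cast this
  have h1 : SpecialLinearGroup.transvection hab x = (SpecialLinearGroup.transvection hab (x / k)) ^ k := by
    rw [transvection_pow, mul_div_cancel₀ _ hk1]
  rw [h1]
  apply Subgroup.pow_mem
  apply Subgroup.subset_closure
  intro p q
  have hx : ‖x / k‖ ≤ 1 := by
    rw [norm_div, RCLike.norm_natCast, div_le_one hk0]
    exact hk.le
  rw [SpecialLinearGroup.transvection_coe, Matrix.add_apply]
  refine (norm_add_le _ _).trans ?_
  have h1 : ‖(1 : Matrix (Fin n) (Fin n) K) p q‖ ≤ 1 := by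
    rw [Matrix.one_apply]
    split_ifs <;> simp
  have h2 : ‖(single a b (x / k) : Matrix (Fin n) (Fin n) K) p q‖ ≤ 1 := by
    rw [single_apply]
    split_ifs
    · exact hx
    · simp
  linarith

theorem SL_noncompact (hn : 2 ≤ n) : NoncompactSpace (SpecialLinearGroup (Fin n) K) := by
  constructor
  intro h
  have h0 : (⟨0, by omega⟩ : Fin n) ≠ ⟨1, by omega⟩ := by
    intro h; rw [Fin.mk.injEq] at h; omega
  have hc : Continuous (fun g : SpecialLinearGroup (Fin n) K =>
      (g : Matrix (Fin n) (Fin n) K) ⟨0, by omega⟩ ⟨1, by omega⟩) :=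
    continuous_subtype_val.matrix_elem _ _
  obtain ⟨R, hR⟩ := (h.image hc).isBounded.exists_norm_le
  have h1 := hR _ ⟨SpecialLinearGroup.transvection h0 (((|R| + 1 : ℝ)) : K), trivial, rfl⟩
  simp only [SpecialLinearGroup.transvection_coe, Matrix.add_apply, Matrix.one_apply_ne h0,
    single_apply_same, zero_add] at h1
  rw [RCLike.norm_ofReal, abs_of_pos (by positivity)] at h1
  have := le_abs_self R
  linarith

/-- the special linear group with the pseudo-metric of its symmetric space -/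
structure TL (n : ℕ) (K : Type) [RCLike K] where
  val : SpecialLinearGroup (Fin n) K

noncomputable instance : PseudoMetricSpace (TL n K) :=
  PseudoMetricSpace.induced (fun x : TL n K => x.val) Qs_form.pm

theorem TL_dist_sq (x y : TL n K) : dist x y ^ 2 = Qs x.val y.val :=
  Real.sq_sqrt (Qs_form.nonneg _ _)

instance : MulAction (SpecialLinearGroup (Fin n) K) (TL n K) where
  smul g x := ⟨g * x.val⟩
  one_smul x := by
    cases x
    show TL.mk (1 * _) = _
    rw [one_mul]
  mul_smul g h x := by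
    cases x
    show TL.mk ((g * h) * _) = TL.mk (g * (h * _))
    rw [mul_assoc]

theorem TL_iso (g : SpecialLinearGroup (Fin n) K) (x y : TL n K) : dist (g • x) (g • y) = dist x y := by
  show √(Qs (g * x.val) (g * y.val)) = √(Qs x.val y.val)
  rw [Qs_smul]

theorem sl_case (hn : 2 ≤ n) (Γ : Subgroup (SpecialLinearGroup (Fin n) K)) (hΓ : IsCocompactLattice Γ) :
    RigidityFails Γ := by
  have hnc : NoncompactSpace (SpecialLinearGroup (Fin n) K) := SL_noncompact hn
  refine core_transitive (SL_compgen hn) (by rw [dg_gen hn]; infer_instance) Γ hΓ (fun hfg => rf_linear hfg fun g hg => ?_) (⟨1⟩ : TL n K)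
    TL_iso ?_ (fun x => ⟨x.val, ?_⟩) (fun R => ?_)
  · refine ⟨n, K, inferInstance, (Matrix.SpecialLinearGroup.coeMonoidHom).comp Γ.subtype, ?_⟩
    intro h
    exact hg (Subtype.ext (Subtype.ext h))
  · intro x y τ hτ
    obtain ⟨c, hc⟩ := Qs_cn x.val y.val τ hτ
    refine ⟨⟨c⟩, fun z => ?_⟩
    rw [TL_dist_sq, TL_dist_sq, TL_dist_sq, TL_dist_sq]
    exact hc z.val
  · cases x with
    | mk v =>
      show TL.mk v = TL.mk (v * 1)
      rw [mul_one]
  · refine ⟨_, isCompact_SL (Fintype.card (Fin n) * Real.exp (2 * max R 0) + 1), fun g hg a b => ?_⟩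
    apply SL_proper (max R 0) _ _ (le_max_right _ _)
    have h1 : dist (⟨1⟩ : TL n K) (g • (⟨1⟩ : TL n K)) ≤ max R 0 := hg.trans (le_max_left _ _)
    have h2 := TL_dist_sq (⟨1⟩ : TL n K) (g • (⟨1⟩ : TL n K))
    have h3 : (g • (⟨1⟩ : TL n K)).val = g := by
      show g * 1 = g
      rw [mul_one]
    rw [h3] at h2
    rw [← h2]
    exact pow_le_pow_left₀ dist_nonneg h1 2

/-- a cocompact lattice of `SL(3,ℝ)` -/
theorem exists_lattice3 : ∃ Γ : Subgroup (SpecialLinearGroup (Fin 3) ℝ), IsCocompactLattice Γ := by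
  obtain ⟨O, hO, d, hdO, hd, h1, h2, h3⟩ := J3_order
  let Γ : Subgroup (SpecialLinearGroup (Fin 3) ℝ) :=
    { carrier := {g | (g : Matrix (Fin 3) (Fin 3) ℝ) ∈ O}
      one_mem' := O.one_mem
      mul_mem' := fun {a b} ha hb => by
        show ((a * b : SpecialLinearGroup (Fin 3) ℝ) : Matrix (Fin 3) (Fin 3) ℝ) ∈ O
        rw [Matrix.SpecialLinearGroup.coe_mul]
        exact O.mul_mem ha hb
      inv_mem' := fun {a} ha => by
        show ((a⁻¹ : SpecialLinearGroup (Fin 3) ℝ) : Matrix (Fin 3) (Fin 3) ℝ) ∈ O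
        rw [Matrix.SpecialLinearGroup.coe_inv]
        exact hO.adj _ ha }
  have hΓ : ∀ g : SpecialLinearGroup (Fin 3) ℝ, g ∈ Γ ↔ (g : Matrix (Fin 3) (Fin 3) ℝ) ∈ O := fun g => Iff.rfl
  have hO4 : J4_GoodOrder O := ⟨hO.basis, hO.det_int, hO.det_ne, hO.adj⟩
  exact ⟨Γ, J4_discrete O hO4 Γ hΓ, J4_cocompact O hO4 Γ hΓ⟩

end Pool.Agent.KS6_9.SR
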