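import Pool.Agent.KS6_9.SR.Smp
import Pool.Agent.KS6_9.SR.Sl

/-!
# The groups `SL(n,K)` are simple linear Lie groups
-/

set_option autoImplicit false
set_option linter.unusedSectionVars false

namespace Pool.Agent.KS6_9.SR

open Filter Topology Bac815 Matrix

section A

variable {m F : Type} [DecidableEq m] [Fintype m] [Field F]

theorem weyl_mem (M : Subgroup (SpecialLinearGroup m F)) (hM : M.Normal) {p q : m} (hpq : p ≠ q) (x : F)
    (h : SpecialLinearGroup.transvection hpq x ∈ M) : SpecialLinearGroup.transvection hpq.symm (-x) ∈ M := by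
  set w : SpecialLinearGroup m F := SpecialLinearGroup.transvection hpq 1 *
    SpecialLinearGroup.transvection hpq.symm (-1) * SpecialLinearGroup.transvection hpq 1 with hw
  have h1 : SpecialLinearGroup.transvection hpq.symm (-x) * w = w * SpecialLinearGroup.transvection hpq x := by
    apply SpecialLinearGroup.coeMonoidHom_injective
    rw [hw]
    simp only [map_mul, SpecialLinearGroup.coeMonoidHom_apply, SpecialLinearGroup.transvection_coe]
    set A : Matrix m m F := single p q 1 with hA
    set B : Matrix m m F := single q p 1 with hB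
    have sA : ∀ x : F, single p q x = x • A := fun x => by rw [hA, smul_single, smul_eq_mul, mul_one]
    have sB : ∀ x : F, single q p x = x • B := fun x => by rw [hB, smul_single, smul_eq_mul, mul_one]
    have hAA : A * A = 0 := single_mul_single_of_ne _ _ _ _ hpq.symm _
    have hBB : B * B = 0 := single_mul_single_of_ne _ _ _ _ hpq _
    have hAB : A * B = single p p 1 := by rw [hA, hB, single_mul_single_same, mul_one]
    have hBA : B * A = single q q 1 := by rw [hA, hB, single_mul_single_same, mul_one]
    have hABA : A * B * A = A := by rw [hAB, hA, single_mul_single_same, mul_one]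
    have hBAB : B * A * B = B := by rw [hBA, hB, single_mul_single_same, mul_one]
    have e1 : (1 + A) = 1 + (1 : F) • A := by rw [one_smul]
    rw [sA x, sB (-x), sB (-1), e1, weyl_identity A B hAA hABA 1 (-1) (by ring)]
    have q5 : B * (A * B) = B := by rw [← mul_assoc, hBAB]
    have q6 : B * (B * A) = 0 := by rw [← mul_assoc, hBB, zero_mul]
    have q10 : B * A * A = 0 := by rw [mul_assoc, hAA, mul_zero]
    simp only [mul_add, add_mul, mul_sub, sub_mul, mul_one, one_mul, smul_mul_assoc, mul_smul_comm,
      hAA, hBB, q5, q6, q10, hABA]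
    module
  have h2 : SpecialLinearGroup.transvection hpq.symm (-x) = w * SpecialLinearGroup.transvection hpq x * w⁻¹ := by
    rw [← h1]; group
  rw [h2]
  exact hM.conj_mem _ h _

/-- commutators of elementary matrices -/
theorem comm_tv {a b c : m} (hab : a ≠ b) (hbc : b ≠ c) (hac : a ≠ c) (x y : F) :
    SpecialLinearGroup.transvection hab x * SpecialLinearGroup.transvection hbc y =
      SpecialLinearGroup.transvection hac (x * y) * SpecialLinearGroup.transvection hbc y *
        SpecialLinearGroup.transvection hab x := by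
  apply SpecialLinearGroup.coeMonoidHom_injective
  simp only [map_mul, SpecialLinearGroup.coeMonoidHom_apply, SpecialLinearGroup.transvection_coe]
  have e1 : (single a b x : Matrix m m F) * single b c y = single a c (x * y) := single_mul_single_same ..
  have e2 : (single a c (x * y) : Matrix m m F) * single b c y = 0 := single_mul_single_of_ne _ _ _ _ hbc.symm _
  have e3 : (single a c (x * y) : Matrix m m F) * single a b x = 0 := single_mul_single_of_ne _ _ _ _ hac.symm _
  have e4 : (single b c y : Matrix m m F) * single a b x = 0 := single_mul_single_of_ne _ _ _ _ hac.symm _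
  simp only [mul_add, add_mul, mul_one, one_mul, e1, e2, e3, e4, add_zero]
  abel

/-- a normal subgroup which contains an elementary matrix is everything -/
theorem normal_top (h2 : (2 : F) ≠ 0) (M : Subgroup (SpecialLinearGroup m F)) (hM : M.Normal) {p q : m} (hpq : p ≠ q)
    (c : F) (hc : c ≠ 0) (h : SpecialLinearGroup.transvection hpq c ∈ M) : M = ⊤ := by
  have : Nontrivial m := ⟨p, q, hpq⟩
  -- scaling
  have hsq : ∀ z : F, SpecialLinearGroup.transvection hpq (z ^ 2 * c) ∈ M := by
    intro z
    rcases eq_or_ne z 0 with rfl | hz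
    · rw [zero_pow two_ne_zero, zero_mul, SpecialLinearGroup.transvection_coeff_zero]
      exact M.one_mem
    · have h1 : SpecialLinearGroup.diag2n hpq z hz * SpecialLinearGroup.transvection hpq c =
          SpecialLinearGroup.transvection hpq (z ^ 2 * c) * SpecialLinearGroup.diag2n hpq z hz := by
        apply SpecialLinearGroup.coeMonoidHom_injective
        simp only [map_mul, SpecialLinearGroup.coeMonoidHom_apply, SpecialLinearGroup.transvection_coe,
          SpecialLinearGroup.diag2n_coe]
        ext i j
        rw [Matrix.mul_diagonal, Matrix.diagonal_mul]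
        simp only [Matrix.add_apply, Matrix.one_apply, single_apply]
        by_cases hij : i = j
        · subst hij
          have h1 : ¬ (p = i ∧ q = i) := fun h => hpq (h.1.trans h.2.symm)
          simp [h1]
        · by_cases h1 : p = i ∧ q = j
          · obtain ⟨rfl, rfl⟩ := h1
            simp [hij, hpq.symm]
            field_simp
          · simp [hij, h1]
      have h3 : SpecialLinearGroup.transvection hpq (z ^ 2 * c) =
          SpecialLinearGroup.diag2n hpq z hz * SpecialLinearGroup.transvection hpq c * (SpecialLinearGroup.diag2n hpq z hz)⁻¹ := by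
        rw [h1]; group
      rw [h3]
      exact hM.conj_mem _ h _
  have hall : ∀ x : F, SpecialLinearGroup.transvection hpq x ∈ M := by
    intro x
    have h4 : SpecialLinearGroup.transvection hpq x =
        SpecialLinearGroup.transvection hpq ((x / (4 * c) + 1) ^ 2 * c) *
          (SpecialLinearGroup.transvection hpq ((x / (4 * c) - 1) ^ 2 * c))⁻¹ := by
      rw [SpecialLinearGroup.transvection_inv, ← SpecialLinearGroup.transvection_add]
      congr 1
      have h5 : (4 : F) ≠ 0 := by
        have : (4 : F) = 2 * 2 := by norm_num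
        rw [this]; exact mul_ne_zero h2 h2
      field_simp
      ring
    rw [h4]
    exact M.mul_mem (hsq _) (M.inv_mem (hsq _))
  set R : m → m → Prop := fun a b => ∀ (hab : a ≠ b) (x : F), SpecialLinearGroup.transvection hab x ∈ M with hR
  have r0 : R p q := fun _ x => hall x
  have r1 : ∀ a b, a ≠ b → R a b → R b a := by
    intro a b hab h hba x
    have := weyl_mem M hM hab (-x) (h hab _)
    rwa [neg_neg] at this
  have r2 : ∀ a b c, a ≠ b → b ≠ c → a ≠ c → R a b → R a c := by
    intro a b c hab hbc hac h _ x
    have h1 := comm_tv hab hbc hac x 1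
    have h2 : SpecialLinearGroup.transvection hac x = SpecialLinearGroup.transvection hab x *
        (SpecialLinearGroup.transvection hbc 1 * (SpecialLinearGroup.transvection hab x)⁻¹ *
          (SpecialLinearGroup.transvection hbc (1 : F))⁻¹) := by
      rw [mul_one] at h1
      rw [← mul_assoc, ← mul_assoc, h1]
      group
    rw [h2]
    exact M.mul_mem (h hab x) (hM.conj_mem _ (M.inv_mem (h hab x)) _)
  have r3 : ∀ a b c, a ≠ b → b ≠ c → a ≠ c → R b c → R a c := by
    intro a b c hab hbc hac h
    exact r1 _ _ hac.symm (r2 _ _ _ hbc.symm hab.symm hac.symm (r1 _ _ hbc h))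
  apply eq_top_of_transvections
  intro a b hab x
  have key : R a b := by
    by_cases hbp : b = p
    · subst hbp
      have h1 : R q b := r1 _ _ hpq r0
      by_cases haq : a = q
      · subst haq; exact h1
      · exact r3 a q b haq hpq.symm hab h1
    · have h1 : R p b := by
        by_cases hbq : b = q
        · subst hbq; exact r0
        · exact r2 p q b hpq (Ne.symm hbq) (Ne.symm hbp) r0
      by_cases hap : a = p
      · subst hap; exact h1
      · exact r3 a p b hap (Ne.symm hbp) hab h1
  exact key hab x

/-- matrices which differ from the identity in one column only -/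
theorem column_case (h2 : (2 : F) ≠ 0) (M : Subgroup (SpecialLinearGroup m F)) (hM : M.Normal) (z : m) (c : m → F)
    (hcz : c z = 0) (a : m) (ha : c a ≠ 0) (w : SpecialLinearGroup m F) (hw : w ∈ M)
    (hwc : (w : Matrix m m F) = 1 + vecMulVec c (Pi.single z 1)) : M = ⊤ := by
  have haz : a ≠ z := by
    rintro rfl; exact ha hcz
  by_cases h : ∃ q, q ≠ z ∧ q ≠ a
  · obtain ⟨q, hqz, hqa⟩ := h
    have h1 : SpecialLinearGroup.transvection hqa 1 * w =
        SpecialLinearGroup.transvection hqz (c a) * w * SpecialLinearGroup.transvection hqa 1 := by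
      apply SpecialLinearGroup.coeMonoidHom_injective
      simp only [map_mul, SpecialLinearGroup.coeMonoidHom_apply, SpecialLinearGroup.transvection_coe, hwc]
      set C := vecMulVec c (Pi.single z 1) with hC
      have e1 : (single q a 1 : Matrix m m F) * C = single q z (c a) := by
        ext i j
        rw [hC, mul_vecMulVec, vecMulVec_apply, single_apply, Matrix.mulVec, dotProduct]
        simp only [single_apply, Pi.single_apply]
        by_cases hi : q = i
        · by_cases hj : z = j
          · subst hi hj; simp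
          · subst hi; simp [hj, Ne.symm hj]
        · simp [hi]
      have e2 : C * (single q a 1 : Matrix m m F) = 0 := by
        ext i j
        rw [hC, vecMulVec_mul, vecMulVec_apply, Matrix.vecMul, dotProduct]
        simp only [single_apply, Matrix.zero_apply]
        rw [Finset.sum_eq_zero, mul_zero]
        intro x _
        by_cases hx : x = z
        · subst hx; simp [hqz]
        · simp [hx]
      have e3 : (single q z (c a) : Matrix m m F) * C = 0 := by
        ext i j
        rw [hC, mul_vecMulVec, vecMulVec_apply, Matrix.mulVec, dotProduct]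
        simp only [single_apply]
        by_cases hi : q = i
        · subst hi; simp [hcz]
        · simp [hi]
      have e4 : (single q z (c a) : Matrix m m F) * single q a 1 = 0 := single_mul_single_of_ne _ _ _ _ (Ne.symm hqz) _
      simp only [mul_add, add_mul, mul_one, one_mul, e1, e2, e3, e4, add_zero]
      abel
    have h3 : SpecialLinearGroup.transvection hqz (c a) =
        (SpecialLinearGroup.transvection hqa 1 * w * (SpecialLinearGroup.transvection hqa 1)⁻¹) * w⁻¹ := by
      rw [h1]; group
    apply normal_top h2 M hM hqz (c a) ha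
    rw [h3]
    exact M.mul_mem (hM.conj_mem _ hw _) (M.inv_mem hw)
  · push Not at h
    have h1 : w = SpecialLinearGroup.transvection haz (c a) := by
      apply SpecialLinearGroup.coeMonoidHom_injective
      simp only [SpecialLinearGroup.coeMonoidHom_apply, SpecialLinearGroup.transvection_coe, hwc]
      congr 1
      ext i j
      rw [vecMulVec_apply, single_apply, Pi.single_apply]
      by_cases hj : j = z
      · subst hj
        by_cases hi : i = j
        · subst hi; simp [hcz, haz]
        · have := h i hi
          subst this; simp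
      · simp [hj, Ne.symm hj]
    exact normal_top h2 M hM haz (c a) ha (h1 ▸ hw)

theorem tri_identity (A : Matrix m m F) {p z : m} (hpz : p ≠ z) (hrow : ∀ b, A z b = (1 : Matrix m m F) z b)
    (c : m → F) (hc : ∀ a, c a = A a p - (1 : Matrix m m F) a p) :
    (1 + vecMulVec c (Pi.single z 1)) * ((1 + single p z 1) * A) = A * (1 + single p z 1) := by
  have f1 : (single p z 1 : Matrix m m F) = vecMulVec (Pi.single p 1) (Pi.single z 1) := by
    ext i j
    rw [vecMulVec_apply, single_apply, Pi.single_apply, Pi.single_apply]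
    by_cases hi : i = p
    · by_cases hj : j = z
      · subst hi hj; simp
      · simp [hj, Ne.symm hj]
    · simp [hi, Ne.symm hi]
  have f2 : vecMulVec c (Pi.single z 1) * (single p z 1 : Matrix m m F) = 0 := by
    ext i j
    rw [vecMulVec_mul, vecMulVec_apply, Matrix.vecMul, dotProduct]
    simp only [single_apply, Matrix.zero_apply]
    rw [Finset.sum_eq_zero, mul_zero]
    intro x _
    by_cases hx : x = z
    · subst hx; simp [hpz]
    · simp [hx]
  have f3 : ∀ v : m → F, vecMulVec v (Pi.single z 1) * A = vecMulVec v (Pi.single z 1) := by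
    intro v
    rw [vecMulVec_mul]
    congr 1
    funext j
    rw [Matrix.single_one_vecMul]
    show A z j = _
    rw [hrow, Matrix.one_apply, Pi.single_apply]
    by_cases hj : z = j
    · simp [hj]
    · simp [hj, Ne.symm hj]
  have f4 : A * (single p z 1 : Matrix m m F) = vecMulVec c (Pi.single z 1) + single p z 1 := by
    rw [f1, mul_vecMulVec, ← add_vecMulVec]
    congr 1
    funext i
    rw [Matrix.mulVec_single_one]
    show A i p = c i + (Pi.single p 1 : m → F) i
    rw [hc, Matrix.one_apply, Pi.single_apply]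
    ring
  have f5 : (single p z 1 : Matrix m m F) * A = single p z 1 := by rw [f1, f3]
  calc (1 + vecMulVec c (Pi.single z 1)) * ((1 + single p z 1) * A) =
        A + single p z 1 * A + vecMulVec c (Pi.single z 1) * A + vecMulVec c (Pi.single z 1) * single p z 1 * A := by
          noncomm_ring
    _ = A + (vecMulVec c (Pi.single z 1) + single p z 1) := by rw [f2, zero_mul, f5, f3]; abel
    _ = A * (1 + single p z 1) := by rw [← f4, mul_add, mul_one]

/-- unitriangular matrices with respect to an ordering -/
theorem tri_case [Nonempty m] (h2 : (2 : F) ≠ 0) (M : Subgroup (SpecialLinearGroup m F)) (hM : M.Normal) (s : m → ℝ)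
    (u : SpecialLinearGroup m F) (hu1 : u ≠ 1) (hu : u ∈ M)
    (hs : ∀ a b, s a ≤ s b → (u : Matrix m m F) a b = (1 : Matrix m m F) a b) : M = ⊤ := by
  obtain ⟨z, hz⟩ := Finite.exists_min s
  have hrow : ∀ b, (u : Matrix m m F) z b = (1 : Matrix m m F) z b := fun b => hs z b (hz b)
  by_cases h : ∃ p, p ≠ z ∧ ∃ a, (u : Matrix m m F) a p ≠ (1 : Matrix m m F) a p
  · obtain ⟨p, hpz, a, ha⟩ := h
    set t := SpecialLinearGroup.transvection hpz (1 : F) with ht
    set c : m → F := fun a => (u : Matrix m m F) a p - (1 : Matrix m m F) a p with hc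
    refine column_case h2 M hM z c ?_ a (sub_ne_zero.2 ha) (u * (t * u⁻¹ * t⁻¹)) ?_ ?_
    · show (u : Matrix m m F) z p - (1 : Matrix m m F) z p = 0
      rw [hrow, sub_self]
    · exact M.mul_mem hu (hM.conj_mem _ (M.inv_mem hu) _)
    · set φ : SpecialLinearGroup m F →* Matrix m m F := SpecialLinearGroup.coeMonoidHom with hφ
      have e1 : (1 + vecMulVec c (Pi.single z 1)) * (φ t * φ u) = φ u * φ t := by
        have ft : φ t = 1 + single p z 1 := by
          rw [hφ, SpecialLinearGroup.coeMonoidHom_apply, ht, SpecialLinearGroup.transvection_coe]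
        rw [ft]
        exact tri_identity (φ u) hpz hrow c (fun a => rfl)
      have e2 : φ u * φ u⁻¹ = 1 := by rw [← map_mul, mul_inv_cancel, map_one]
      have e3 : φ t * φ t⁻¹ = 1 := by rw [← map_mul, mul_inv_cancel, map_one]
      show φ (u * (t * u⁻¹ * t⁻¹)) = _
      rw [map_mul, map_mul, map_mul]
      calc φ u * (φ t * φ u⁻¹ * φ t⁻¹) = (φ u * φ t) * φ u⁻¹ * φ t⁻¹ := by noncomm_ring
        _ = (1 + vecMulVec c (Pi.single z 1)) * (φ t * (φ u * φ u⁻¹) * φ t⁻¹) := by rw [← e1]; noncomm_ring
        _ = _ := by rw [e2, mul_one, e3, mul_one]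
  · push Not at h
    have h3 : ∃ a, (u : Matrix m m F) a z ≠ (1 : Matrix m m F) a z := by
      by_contra hcon
      push Not at hcon
      apply hu1
      apply Subtype.ext
      ext a b
      by_cases hb : b = z
      · rw [hb]; exact hcon a
      · exact h b hb a
    obtain ⟨a, ha⟩ := h3
    refine column_case h2 M hM z (fun a => (u : Matrix m m F) a z - (1 : Matrix m m F) a z) ?_ a (sub_ne_zero.2 ha) u hu ?_
    · show (u : Matrix m m F) z z - (1 : Matrix m m F) z z = 0
      rw [hrow, sub_self]
    · ext i j
      rw [Matrix.add_apply, vecMulVec_apply, Pi.single_apply]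
      by_cases hj : j = z
      · rw [if_pos hj, hj]; ring
      · rw [if_neg hj, h j hj i]; ring

/-- diagonal matrices -/
theorem diag_case (h2 : (2 : F) ≠ 0) (M : Subgroup (SpecialLinearGroup m F)) (hM : M.Normal)
    (u : SpecialLinearGroup m F) (hu : u ∈ M) (hd : ∀ a b, a ≠ b → (u : Matrix m m F) a b = 0) {a b : m} (hab : a ≠ b)
    (hne : (u : Matrix m m F) a a ≠ (u : Matrix m m F) b b) : M = ⊤ := by
  have hD : (u : Matrix m m F) = diagonal fun i => (u : Matrix m m F) i i := by
    ext i j
    by_cases hij : i = j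
    · subst hij; rw [diagonal_apply_eq]
    · rw [diagonal_apply_ne _ hij, hd i j hij]
  have hprod : ∏ i, (u : Matrix m m F) i i = 1 := by
    rw [← det_diagonal, ← hD]; exact u.2
  have hnz : ∀ i, (u : Matrix m m F) i i ≠ 0 := by
    intro i h0
    have := Finset.prod_eq_zero (f := fun i => (u : Matrix m m F) i i) (Finset.mem_univ i) h0
    rw [hprod] at this
    exact one_ne_zero this
  have h1 : u * SpecialLinearGroup.transvection hab 1 =
      SpecialLinearGroup.transvection hab ((u : Matrix m m F) a a / (u : Matrix m m F) b b) * u := by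
    apply SpecialLinearGroup.coeMonoidHom_injective
    simp only [map_mul, SpecialLinearGroup.coeMonoidHom_apply, SpecialLinearGroup.transvection_coe]
    rw [mul_add, add_mul, mul_one, one_mul]
    congr 1
    have e1 : (u : Matrix m m F) * single a b 1 = diagonal (fun i => (u : Matrix m m F) i i) * single a b 1 := by rw [← hD]
    have e2 : single a b ((u : Matrix m m F) a a / (u : Matrix m m F) b b) * (u : Matrix m m F) =
        single a b ((u : Matrix m m F) a a / (u : Matrix m m F) b b) * diagonal (fun i => (u : Matrix m m F) i i) := by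
      rw [← hD]
    rw [e1, e2]
    ext i j
    rw [Matrix.mul_diagonal, Matrix.diagonal_mul, single_apply, single_apply]
    by_cases h : a = i ∧ b = j
    · rw [if_pos h, if_pos h, h.1.symm, h.2.symm]
      have := hnz b
      field_simp
    · rw [if_neg h, if_neg h, mul_zero, zero_mul]
  have h3 : SpecialLinearGroup.transvection hab ((u : Matrix m m F) a a / (u : Matrix m m F) b b - 1) =
      u * (SpecialLinearGroup.transvection hab 1 * u⁻¹ * (SpecialLinearGroup.transvection hab 1)⁻¹) := by
    have e3 : u * (SpecialLinearGroup.transvection hab 1 * u⁻¹ * (SpecialLinearGroup.transvection hab 1)⁻¹) =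
        (u * SpecialLinearGroup.transvection hab 1) * u⁻¹ * (SpecialLinearGroup.transvection hab 1)⁻¹ := by group
    rw [e3, h1, SpecialLinearGroup.transvection_inv, mul_assoc _ u, mul_inv_cancel, mul_one,
      ← SpecialLinearGroup.transvection_add, sub_eq_add_neg]
  refine normal_top h2 M hM hab _ ?_ (h3 ▸ M.mul_mem hu (hM.conj_mem _ (M.inv_mem hu) _))
  rw [sub_ne_zero]
  intro h4
  rw [div_eq_one_iff_eq (hnz b)] at h4
  exact hne h4

end A

section B

variable {n : ℕ} {K : Type} [RCLike K]

theorem cc_id (A : Matrix (Fin n) (Fin n) K) : cc 1 A = A := by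
  rw [cc]
  have h1 : (((1 : unitaryGroup (Fin n) K)⁻¹ : unitaryGroup (Fin n) K) : Matrix (Fin n) (Fin n) K) = 1 := by
    rw [inv_one]; rfl
  have h2 : ((1 : unitaryGroup (Fin n) K) : Matrix (Fin n) (Fin n) K) = 1 := rfl
  rw [h1, h2, one_mul, mul_one]

theorem ee_id (s : Fin n → ℝ) : (ee 1 s : Matrix (Fin n) (Fin n) K) = De s := by
  rw [ee]
  have h1 : (((1 : unitaryGroup (Fin n) K)⁻¹ : unitaryGroup (Fin n) K) : Matrix (Fin n) (Fin n) K) = 1 := by
    rw [inv_one]; rfl
  have h2 : ((1 : unitaryGroup (Fin n) K) : Matrix (Fin n) (Fin n) K) = 1 := rfl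
  rw [h1, h2, one_mul, mul_one]

theorem SL_limit (M : Subgroup (SpecialLinearGroup (Fin n) K)) (hM : M.Normal)
    (hMc : IsClosed (M : Set (SpecialLinearGroup (Fin n) K))) (s : Fin n → ℝ) (hs : ∑ i, s i = 0)
    (𝒰 : Ultrafilter ℕ) (h : ℕ → SpecialLinearGroup (Fin n) K) (hlim : Tendsto h 𝒰 (𝓝 1)) (hh : ∀ k, h k ∈ M)
    (hP : ∀ᶠ k in 𝒰, ∃ a b, s b < s a ∧ (h k : Matrix (Fin n) (Fin n) K) a b ≠ 0) :
    ∃ u ∈ M, u ≠ 1 ∧ ∀ a b, s a ≤ s b → (u : Matrix (Fin n) (Fin n) K) a b = (1 : Matrix (Fin n) (Fin n) K) a b := by
  obtain ⟨u, hu1, -, hu2, hu3⟩ := con_aux (⊤ : Subgroup (SpecialLinearGroup (Fin n) K)) isClosed_univ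
    ⟨dg s hs, trivial⟩ 1 s (ee_id s).symm 𝒰 (fun k => ⟨h k, trivial⟩)
    (by rw [tendsto_subtype_rng]; exact hlim) (by
      filter_upwards [hP] with k hk
      obtain ⟨a, b, hab, hne⟩ := hk
      refine ⟨a, b, hab, ?_⟩
      rw [cc_id]
      exact hne) (M.comap (⊤ : Subgroup (SpecialLinearGroup (Fin n) K)).subtype) (hM.comap _)
    (hMc.preimage continuous_subtype_val) (fun k => hh k)
  refine ⟨u, hu2, fun h => hu1 (Subtype.ext h), fun a b hab => ?_⟩
  have := hu3 a b hab
  rwa [cc_id] at this

/-- closed normal subgroups of `SL(n,K)` are discrete or everything -/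
theorem SL_normal (hn : 2 ≤ n) (M : Subgroup (SpecialLinearGroup (Fin n) K)) (hM : M.Normal)
    (hMc : IsClosed (M : Set (SpecialLinearGroup (Fin n) K))) : M = ⊤ ∨ DiscreteTopology M := by
  have : Nontrivial (Fin n) := nontriv_fin hn
  by_contra hcon
  push Not at hcon
  obtain ⟨hMtop, hdisc⟩ := hcon
  have h2 : (2 : K) ≠ 0 := two_ne_zero
  have hex : ∀ W ∈ 𝓝 (1 : SpecialLinearGroup (Fin n) K), ∃ h ∈ W, h ∈ M ∧ h ≠ 1 := by
    intro W hW
    by_contra hcon
    push Not at hcon
    apply hdisc
    apply discreteTopology_of_isOpen_singleton_one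
    obtain ⟨O, hOW, hO, h1O⟩ := mem_nhds_iff.1 hW
    have : ({1} : Set M) = Subtype.val ⁻¹' O := by
      ext x
      constructor
      · intro hx
        rw [Set.mem_singleton_iff.1 hx]; exact h1O
      · intro hx
        exact Subtype.ext (hcon x (hOW hx) x.2)
    rw [this]
    exact hO.preimage continuous_subtype_val
  have : FirstCountableTopology (Matrix (Fin n) (Fin n) K) :=
    inferInstanceAs (FirstCountableTopology (Fin n → Fin n → K))
  have : FirstCountableTopology (SpecialLinearGroup (Fin n) K) :=
    (Matrix.SpecialLinearGroup.isClosedEmbedding_val (n := Fin n) (R := K)).isInducing.firstCountableTopology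
  obtain ⟨W, hW⟩ := (𝓝 (1 : SpecialLinearGroup (Fin n) K)).exists_antitone_basis
  choose h hhW hh using fun k => hex (W k) (hW.1.mem_of_mem trivial)
  have hlim : Tendsto h atTop (𝓝 1) := hW.tendsto hhW
  set 𝒰 : Ultrafilter ℕ := Ultrafilter.of atTop with h𝒰
  have h𝒰le : (𝒰 : Filter ℕ) ≤ atTop := Ultrafilter.of_le _
  -- eventually, if diagonal then with two different entries
  have hscal : ∀ᶠ k in atTop, (∀ a b, a ≠ b → (h k : Matrix (Fin n) (Fin n) K) a b = 0) →
      ∃ a b, a ≠ b ∧ (h k : Matrix (Fin n) (Fin n) K) a a ≠ (h k : Matrix (Fin n) (Fin n) K) b b := by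
    set z : Fin n := ⟨0, by omega⟩ with hz
    have hfin : Set.Finite {x : K | x ^ n = 1 ∧ x ≠ 1} := by
      apply Set.Finite.subset (Polynomial.nthRootsFinset n (1 : K)).finite_toSet
      intro x hx
      rw [Finset.mem_coe, Polynomial.mem_nthRootsFinset (by omega)]
      exact hx.1
    have hO : {x : K | x ^ n = 1 ∧ x ≠ 1}ᶜ ∈ 𝓝 (1 : K) := hfin.isClosed.isOpen_compl.mem_nhds (fun h => h.2 rfl)
    have hcz : Continuous fun g : SpecialLinearGroup (Fin n) K => (g : Matrix (Fin n) (Fin n) K) z z :=
      continuous_subtype_val.matrix_elem _ _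
    have ht : Tendsto (fun k => (h k : Matrix (Fin n) (Fin n) K) z z) atTop (𝓝 1) := by
      have h3 := (hcz.tendsto 1).comp hlim
      have h4 : ((1 : SpecialLinearGroup (Fin n) K) : Matrix (Fin n) (Fin n) K) z z = 1 := by
        show (1 : Matrix (Fin n) (Fin n) K) z z = 1
        rw [Matrix.one_apply_eq]
      rw [h4] at h3
      exact h3
    filter_upwards [ht.eventually hO] with k hk hdiag
    by_contra hcon
    push Not at hcon
    have hall : ∀ a, (h k : Matrix (Fin n) (Fin n) K) a a = (h k : Matrix (Fin n) (Fin n) K) z z := by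
      intro a
      by_cases ha : a = z
      · rw [ha]
      · exact hcon a z ha
    have hD : (h k : Matrix (Fin n) (Fin n) K) = diagonal fun _ => (h k : Matrix (Fin n) (Fin n) K) z z := by
      ext i j
      by_cases hij : i = j
      · subst hij; rw [diagonal_apply_eq, hall]
      · rw [diagonal_apply_ne _ hij, hdiag i j hij]
    have hdet : (h k : Matrix (Fin n) (Fin n) K).det = 1 := (h k).2
    rw [hD, det_diagonal, Finset.prod_const, Finset.card_univ, Fintype.card_fin] at hdet
    have h5 : (h k : Matrix (Fin n) (Fin n) K) z z = 1 := by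
      by_contra hne
      exact hk ⟨hdet, hne⟩
    apply (hh k).2
    apply Subtype.ext
    rw [hD, h5]
    exact diagonal_one
  have htri : ∀ k, ((∃ a b, sx n b < sx n a ∧ (h k : Matrix (Fin n) (Fin n) K) a b ≠ 0) ∨
      (∃ a b, (-sx n) b < (-sx n) a ∧ (h k : Matrix (Fin n) (Fin n) K) a b ≠ 0)) ∨
      (∀ a b, a ≠ b → (h k : Matrix (Fin n) (Fin n) K) a b = 0) := by
    intro k
    by_contra hcon
    push Not at hcon
    obtain ⟨⟨h1, h2⟩, a, b, hab, hne⟩ := hcon
    rcases lt_trichotomy (a : ℕ) (b : ℕ) with hlt | heq | hgt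
    · apply hne
      apply h2
      simp only [Pi.neg_apply, sx]
      have : ((a : ℕ) : ℝ) < (b : ℕ) := by exact_mod_cast hlt
      linarith
    · exact hab (Fin.ext heq)
    · apply hne
      apply h1
      simp only [sx]
      have : ((b : ℕ) : ℝ) < (a : ℕ) := by exact_mod_cast hgt
      linarith
  rcases Ultrafilter.eventually_or.1 (Filter.Eventually.of_forall (f := (𝒰 : Filter ℕ)) htri) with h1 | h1
  · rcases Ultrafilter.eventually_or.1 h1 with h1 | h1
    · obtain ⟨u, hu, hu1, hu2⟩ := SL_limit M hM hMc (sx n) (sx_sum n) 𝒰 h (hlim.mono_left h𝒰le) (fun k => (hh k).1) h1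
      exact hMtop (tri_case h2 M hM (sx n) u hu1 hu hu2)
    · obtain ⟨u, hu, hu1, hu2⟩ := SL_limit M hM hMc (-sx n) (sx_neg_sum n) 𝒰 h (hlim.mono_left h𝒰le) (fun k => (hh k).1) h1
      exact hMtop (tri_case h2 M hM (-sx n) u hu1 hu hu2)
  · obtain ⟨k, hk1, hk2⟩ := (h1.and (h𝒰le hscal)).exists
    obtain ⟨a, b, hab, hne⟩ := hk2 hk1
    exact hMtop (diag_case h2 M hM (h k) (hh k).1 hk1 hab hne)

theorem SL_connected (hn : 2 ≤ n) : ConnectedSpace (SpecialLinearGroup (Fin n) K) := by
  have : Nontrivial (Fin n) := nontriv_fin hn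
  have h1 : Subgroup.connectedComponentOfOne (SpecialLinearGroup (Fin n) K) = ⊤ := by
    apply eq_top_of_transvections
    intro a b hab x
    have h2 : IsPreconnected (Set.range fun x : K => SpecialLinearGroup.transvection hab x) :=
      isPreconnected_range (continuous_tv' hab)
    exact h2.subset_connectedComponent ⟨0, SpecialLinearGroup.transvection_coeff_zero hab⟩ ⟨x, rfl⟩
  have h2 : connectedComponent (1 : SpecialLinearGroup (Fin n) K) = Set.univ := by
    have : ((Subgroup.connectedComponentOfOne (SpecialLinearGroup (Fin n) K) : Subgroup _) : Set (SpecialLinearGroup (Fin n) K)) =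
        connectedComponent 1 := rfl
    rw [← this, h1]; rfl
  exact connectedSpace_iff_connectedComponent.2 ⟨1, h2⟩

theorem SL_simpleLike (hn : 2 ≤ n) : IsSimpleLike (SpecialLinearGroup (Fin n) K) := by
  refine ⟨SL_connected hn, ?_, fun M hM hMc => SL_normal hn M hM hMc⟩
  have : Nontrivial (Fin n) := nontriv_fin hn
  have h01 : (⟨0, by omega⟩ : Fin n) ≠ ⟨1, by omega⟩ := by
    intro h; rw [Fin.mk.injEq] at h; omega
  have h1 : SpecialLinearGroup.transvection h01 (1 : K) ∉ Subgroup.center _ := by
    rw [SpecialLinearGroup.transvection_mem_center_iff]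
    exact one_ne_zero
  rw [Subgroup.mem_center_iff] at h1
  push Not at h1
  obtain ⟨g, hg⟩ := h1
  exact ⟨g, _, hg⟩

theorem SL_model (hn : 2 ≤ n) : IsLinearModel (SpecialLinearGroup (Fin n) K) := by
  have hconn : ConnectedSpace (SpecialLinearGroup (Fin n) K) := SL_connected hn
  refine ⟨n, K, inferInstance, ⊤, ⟨∅, fun g => ⟨fun _ f hf => absurd hf (Set.notMem_empty f), fun _ => Subgroup.mem_top g⟩⟩, ?_, ?_⟩
  · intro g _
    refine ⟨⟨star (g : Matrix (Fin n) (Fin n) K), ?_⟩, Subgroup.mem_top _, rfl⟩
    rw [star_eq_conjTranspose, det_conjTranspose, g.2, star_one]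
  · have hmem : ∀ x : (⊤ : Subgroup (SpecialLinearGroup (Fin n) K)),
        x ∈ Subgroup.connectedComponentOfOne (⊤ : Subgroup (SpecialLinearGroup (Fin n) K)) := by
      intro x
      have hc : Continuous fun g : SpecialLinearGroup (Fin n) K => (⟨g, Subgroup.mem_top g⟩ : (⊤ : Subgroup (SpecialLinearGroup (Fin n) K))) :=
        continuous_id.subtype_mk _
      have h2 := isPreconnected_range hc
      exact h2.subset_connectedComponent ⟨1, rfl⟩ ⟨x, rfl⟩
    refine ⟨{ toFun := fun g => ⟨⟨g, Subgroup.mem_top g⟩, hmem _⟩, invFun := fun x => ((x : (⊤ : Subgroup (SpecialLinearGroup (Fin n) K))) : SpecialLinearGroup (Fin n) K), left_inv := fun g => rfl, right_inv := fun x => rfl, map_mul' := fun g h => rfl, continuous_toFun := ?_, continuous_invFun := ?_ }⟩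
    · exact (continuous_id.subtype_mk _).subtype_mk _
    · exact continuous_subtype_val.comp continuous_subtype_val

theorem SL_isSimple (hn : 2 ≤ n) : IsSimpleLinearLieGroup (SpecialLinearGroup (Fin n) K) :=
  ⟨SL_noncompact hn, SL_simpleLike hn, SL_model hn⟩

end B

end Pool.Agent.KS6_9.SR
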