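import Pool.Agent.KS6_9.SR.Ctr

/-!
# Simple groups are generated by contraction groups
-/

set_option autoImplicit false
set_option linter.unusedSectionVars false

namespace Pool.Agent.KS6_9.SR

open Filter Topology Bac815 Matrix

section General

variable {G : Type} [Group G] [TopologicalSpace G] [IsTopologicalGroup G]

theorem con_conj (a u g : G) (hu : u ∈ con a) : g * u * g⁻¹ ∈ con (g * a * g⁻¹) := by
  have h8 : Tendsto (fun n : ℕ => a ^ n * u * (a ^ n)⁻¹) atTop (𝓝 1) := hu
  have h9 : Tendsto (fun n : ℕ => g * (a ^ n * u * (a ^ n)⁻¹) * g⁻¹) atTop (𝓝 (g * 1 * g⁻¹)) :=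
    (h8.const_mul g).mul_const g⁻¹
  rw [mul_one, mul_inv_cancel] at h9
  refine h9.congr fun n => ?_
  rw [conj_pow]; group

theorem dagger_normal : (dagger G).Normal := by
  have h1 : (Subgroup.closure (⋃ a : G, con a)).Normal := by
    refine ⟨fun n hn g => ?_⟩
    induction hn using Subgroup.closure_induction with
    | mem u hu =>
      obtain ⟨a, ha⟩ := Set.mem_iUnion.1 hu
      exact Subgroup.subset_closure (Set.mem_iUnion.2 ⟨_, con_conj a u g ha⟩)
    | one => rw [mul_one, mul_inv_cancel]; exact Subgroup.one_mem _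
    | mul x y _ _ hx hy =>
      have : g * (x * y) * g⁻¹ = (g * x * g⁻¹) * (g * y * g⁻¹) := by group
      rw [this]; exact Subgroup.mul_mem _ hx hy
    | inv x _ hx =>
      have : g * x⁻¹ * g⁻¹ = (g * x * g⁻¹)⁻¹ := by group
      rw [this]; exact Subgroup.inv_mem _ hx
  exact Subgroup.is_normal_topologicalClosure _

theorem dagger_closed : IsClosed (dagger G : Set G) := Subgroup.isClosed_topologicalClosure _

theorem con_sub_dagger (a : G) : con a ⊆ (dagger G : Set G) := fun _ hu =>
  Subgroup.le_topologicalClosure _ (Subgroup.subset_closure (Set.mem_iUnion.2 ⟨a, hu⟩))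

/-- if `G†` is discrete then all contraction groups are trivial -/
theorem con_trivial (h : DiscreteTopology (dagger G)) (a u : G) (hu : u ∈ con a) : u = 1 := by
  have h1 : IsOpen ({1} : Set (dagger G)) := isOpen_discrete _
  obtain ⟨O, hO, hO1⟩ := isOpen_induced_iff.1 h1
  have h1O : (1 : G) ∈ O := by
    have : (1 : dagger G) ∈ (Subtype.val ⁻¹' O : Set (dagger G)) := by rw [hO1]; rfl
    exact this
  have h8 : Tendsto (fun n : ℕ => a ^ n * u * (a ^ n)⁻¹) atTop (𝓝 1) := hu
  obtain ⟨n, hn⟩ := (h8.eventually (hO.mem_nhds h1O)).exists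
  have h2 : a ^ n * u * (a ^ n)⁻¹ ∈ dagger G := dagger_normal.conj_mem u (con_sub_dagger a hu) _
  have h3 : (⟨_, h2⟩ : dagger G) ∈ (Subtype.val ⁻¹' O : Set (dagger G)) := hn
  rw [hO1] at h3
  have h4 : a ^ n * u * (a ^ n)⁻¹ = 1 := congrArg Subtype.val h3
  have h5 : u = (a ^ n)⁻¹ * (a ^ n * u * (a ^ n)⁻¹) * a ^ n := by group
  rw [h5, h4]; group

/-- in a connected group an element commuting with a neighbourhood of one is central -/
theorem central_of_nhds [ConnectedSpace G] (p : G) (h : ∃ W ∈ 𝓝 (1 : G), ∀ g ∈ W, p * g = g * p) (g : G) :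
    p * g = g * p := by
  obtain ⟨W, hW, hWp⟩ := h
  set C := Subgroup.centralizer ({p} : Set G) with hC
  have hWC : W ⊆ C := by
    intro g hg
    show g ∈ Subgroup.centralizer ({p} : Set G)
    rw [Subgroup.mem_centralizer_iff]
    intro x hx
    rw [Set.mem_singleton_iff.1 hx]; exact hWp g hg
  have hopen : IsOpen (C : Set G) := Subgroup.isOpen_of_mem_nhds _ (Filter.mem_of_superset hW hWC)
  have hclosed : IsClosed (C : Set G) := Subgroup.isClosed_of_isOpen _ hopen
  have h1 : (C : Set G) = Set.univ := IsClopen.eq_univ ⟨hclosed, hopen⟩ ⟨1, C.one_mem⟩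
  have h2 : g ∈ C := by
    have : g ∈ (C : Set G) := by rw [h1]; trivial
    exact this
  exact (Subgroup.mem_centralizer_iff.1 h2) p rfl

end General

variable {N : ℕ} {K : Type} [RCLike K]

theorem exists_con (H : Subgroup (SpecialLinearGroup (Fin N) K)) (hcl : IsClosed (H : Set (SpecialLinearGroup (Fin N) K)))
    (p : H) (U : unitaryGroup (Fin N) K) (s : Fin N → ℝ)
    (hp : ((p : SpecialLinearGroup (Fin N) K) : Matrix (Fin N) (Fin N) K) = ee U s)
    (hnc : ∀ W ∈ 𝓝 (1 : H), ∃ h ∈ W, p * h ≠ h * p) : ∃ a u : H, u ≠ 1 ∧ u ∈ con a := by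
  have : FirstCountableTopology H := hcl.isClosedEmbedding_subtypeVal.isInducing.firstCountableTopology
  obtain ⟨W, hW⟩ := (𝓝 (1 : H)).exists_antitone_basis
  choose h hhW hh using fun k => hnc (W k) (hW.1.mem_of_mem trivial)
  have hlim : Tendsto h atTop (𝓝 1) := hW.tendsto hhW
  set 𝒰 : Ultrafilter ℕ := Ultrafilter.of atTop with h𝒰
  have h𝒰le : (𝒰 : Filter ℕ) ≤ atTop := Ultrafilter.of_le _
  have hpair : ∀ k, (∃ a b, s b < s a ∧ cc U ((h k : SpecialLinearGroup (Fin N) K) : Matrix (Fin N) (Fin N) K) a b ≠ 0) ∨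
      (∃ a b, (-s) b < (-s) a ∧ cc U ((h k : SpecialLinearGroup (Fin N) K) : Matrix (Fin N) (Fin N) K) a b ≠ 0) := by
    intro k
    by_contra hcon
    push Not at hcon
    obtain ⟨h1, h2⟩ := hcon
    apply hh k
    have h3 : p ^ 1 * h k * (p ^ 1)⁻¹ = h k := by
      apply Subtype.ext
      apply Subtype.ext
      rw [uncc U (((p ^ 1 * h k * (p ^ 1)⁻¹ : H) : SpecialLinearGroup (Fin N) K) : Matrix (Fin N) (Fin N) K),
        uncc U ((h k : SpecialLinearGroup (Fin N) K) : Matrix (Fin N) (Fin N) K)]
      congr 2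
      ext a b
      rw [cc_pow_conj H p U s hp 1 (h k) a b]
      rcases lt_trichotomy (s a) (s b) with hab | hab | hab
      · rw [h2 a b (by simp only [Pi.neg_apply]; linarith), mul_zero]
      · rw [hab, sub_self, mul_zero, Real.exp_zero]; simp
      · rw [h1 a b hab, mul_zero]
    rw [pow_one] at h3
    calc p * h k = (p * h k * p⁻¹) * p := by group
      _ = h k * p := by rw [h3]
  rcases Ultrafilter.eventually_or.1 (Filter.Eventually.of_forall (f := (𝒰 : Filter ℕ)) hpair) with h1 | h1
  · obtain ⟨u, hu1, hu2, -, -⟩ := con_aux H hcl p U s hp 𝒰 h (hlim.mono_left h𝒰le) h1 ⊤ inferInstance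
      isClosed_univ (fun k => Subgroup.mem_top _)
    exact ⟨_, u, hu1, hu2⟩
  · obtain ⟨u, hu1, hu2, -, -⟩ := con_aux H hcl p⁻¹ U (-s) (coe_inv_ee H p U s hp) 𝒰 h (hlim.mono_left h𝒰le) h1
      ⊤ inferInstance isClosed_univ (fun k => Subgroup.mem_top _)
    exact ⟨_, u, hu1, hu2⟩

/-- a closed noncompact group contains a positive definite element different from one -/
theorem exists_positive (H : Subgroup (SpecialLinearGroup (Fin N) K))
    (hcl : IsClosed (H : Set (SpecialLinearGroup (Fin N) K))) (hnc : NoncompactSpace H) :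
    ∃ (g : H) (U k : unitaryGroup (Fin N) K) (s : Fin N → ℝ), s ≠ 0 ∧
      ((g : SpecialLinearGroup (Fin N) K) : Matrix (Fin N) (Fin N) K) = ee U s * (k : Matrix (Fin N) (Fin N) K) := by
  by_contra hcon
  push Not at hcon
  apply noncompact_univ H
  have hemb := hcl.isClosedEmbedding_subtypeVal
  have hcomp : IsCompact ((fun g : H => (g : SpecialLinearGroup (Fin N) K)) ⁻¹' {g : SpecialLinearGroup (Fin N) K |
      ∀ a b, ‖(g : Matrix (Fin N) (Fin N) K) a b‖ ≤ 1}) := hemb.isCompact_preimage (isCompact_SL _)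
  apply hcomp.of_isClosed_subset isClosed_univ
  intro g _ a b
  obtain ⟨U, s, k, hk⟩ := exists_polar ((g : SpecialLinearGroup (Fin N) K) : Matrix (Fin N) (Fin N) K) (SL_isUnit _)
  by_cases hs : s = 0
  · rw [hs, ee_zero, one_mul] at hk
    rw [hk]
    exact entry_norm_bound_of_unitary k.2 a b
  · exact absurd hk (hcon g U k s hs)

theorem continuous_De (s : Fin N → ℝ) : Continuous fun t : ℝ => (De (t • s) : Matrix (Fin N) (Fin N) K) := by
  refine continuous_matrix fun a b => ?_
  show Continuous fun t : ℝ => (diagonal fun i => ((Real.exp ((t • s) i) : ℝ) : K)) a b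
  by_cases hab : a = b
  · subst hab
    simp only [diagonal_apply_eq, Pi.smul_apply, smul_eq_mul]
    exact RCLike.continuous_ofReal.comp (Real.continuous_exp.comp (continuous_id.mul continuous_const))
  · simp only [diagonal_apply_ne _ hab]
    exact continuous_const

theorem continuous_ee (U : unitaryGroup (Fin N) K) (s : Fin N → ℝ) :
    Continuous fun t : ℝ => (ee U (t • s) : Matrix (Fin N) (Fin N) K) := by
  show Continuous fun t : ℝ => (U : Matrix (Fin N) (Fin N) K) * De (t • s) *
    ((U⁻¹ : unitaryGroup (Fin N) K) : Matrix (Fin N) (Fin N) K)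
  exact (continuous_const.mul (continuous_De (K := K) s)).mul continuous_const

theorem dagger_of_simple (H : Subgroup (SpecialLinearGroup (Fin N) K))
    (hcl : IsClosed (H : Set (SpecialLinearGroup (Fin N) K))) (hP : IsPolarClosed H) (hnc : NoncompactSpace H)
    (hs : IsSimpleLike H) : dagger H = ⊤ := by
  rcases hs.normal (dagger H) dagger_normal dagger_closed with h | hdisc
  · exact h
  exfalso
  have := hs.connected
  have hcentral : ∀ (p : H) (U : unitaryGroup (Fin N) K) (s : Fin N → ℝ)
      (_ : ((p : SpecialLinearGroup (Fin N) K) : Matrix (Fin N) (Fin N) K) = ee U s), p ∈ Subgroup.center H := by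
    intro p U s hp
    rw [Subgroup.mem_center_iff]
    intro g
    symm
    apply central_of_nhds
    by_contra hcon
    push Not at hcon
    obtain ⟨a, u, hu1, hu2⟩ := exists_con H hcl p U s hp hcon
    exact hu1 (con_trivial hdisc a u hu2)
  obtain ⟨g, U, k, s, hs0, hgk⟩ := exists_positive H hcl hnc
  -- the one-parameter group is central
  have hp : ∀ t ∈ Set.Icc (0:ℝ) 1, ∃ p : H, ((p : SpecialLinearGroup (Fin N) K) : Matrix (Fin N) (Fin N) K) = ee U (t • s) := by
    intro t ht
    obtain ⟨p, hp, hpe⟩ := hP g g.2 U k s hgk t ht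
    exact ⟨⟨p, hp⟩, hpe⟩
  have hclosedZ : IsClosed ((Subgroup.center H : Subgroup H) : Set H) := by
    have : ((Subgroup.center H : Subgroup H) : Set H) = ⋂ g : H, {z | g * z = z * g} := by
      ext z
      rw [SetLike.mem_coe, Subgroup.mem_center_iff, Set.mem_iInter]
      rfl
    rw [this]
    exact isClosed_iInter fun g => isClosed_eq (continuous_const.mul continuous_id) (continuous_id.mul continuous_const)
  rcases hs.normal (Subgroup.center H) inferInstance hclosedZ with h | hdiscZ
  · obtain ⟨x, y, hxy⟩ := hs.nonabelian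
    apply hxy
    have hy : y ∈ Subgroup.center H := by rw [h]; exact Subgroup.mem_top _
    exact Subgroup.mem_center_iff.1 hy x
  · -- the center is not discrete
    have h1 : IsOpen ({1} : Set (Subgroup.center H)) := isOpen_discrete _
    obtain ⟨O, hO, hO1⟩ := isOpen_induced_iff.1 h1
    have h1O : (1 : H) ∈ O := by
      have : (1 : Subgroup.center H) ∈ (Subtype.val ⁻¹' O : Set (Subgroup.center H)) := by rw [hO1]; rfl
      exact this
    choose p hpe using fun j : ℕ => hp (1 / ((j : ℝ) + 1)) ⟨by positivity, by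
      rw [div_le_one (by positivity)]
      have : (0:ℝ) ≤ j := by positivity
      linarith⟩
    have hplim : Tendsto p atTop (𝓝 1) := by
      rw [tendsto_subtype_rng]
      have h2 : Tendsto (fun j => ((p j : SpecialLinearGroup (Fin N) K) : Matrix (Fin N) (Fin N) K)) atTop (𝓝 1) := by
        have h3 := ((continuous_ee (K := K) U s).tendsto 0).comp (tendsto_one_div_add_atTop_nhds_zero_nat (𝕜 := ℝ))
        rw [zero_smul, ee_zero] at h3
        refine h3.congr fun j => ?_
        exact (hpe j).symm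
      exact (Matrix.SpecialLinearGroup.isClosedEmbedding_val (n := Fin N) (R := K)).isInducing.tendsto_nhds_iff.2 h2
    obtain ⟨j, hj⟩ := (hplim.eventually (hO.mem_nhds h1O)).exists
    have h2 : (⟨p j, hcentral _ _ _ (hpe j)⟩ : Subgroup.center H) ∈ (Subtype.val ⁻¹' O : Set (Subgroup.center H)) := hj
    rw [hO1] at h2
    have h3 : p j = 1 := congrArg Subtype.val h2
    -- so the exponent is zero
    have h4 : (ee U ((1 / ((j : ℝ) + 1)) • s) : Matrix (Fin N) (Fin N) K) = ee U ((0 : ℝ) • s) := by
      rw [zero_smul, ee_zero, ← hpe j, h3]; rfl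
    have h5 : ∀ i, (1 / ((j : ℝ) + 1)) * s i = 0 := by
      intro i
      have h6 : (De ((1 / ((j : ℝ) + 1)) • s) : Matrix (Fin N) (Fin N) K) = De ((0 : ℝ) • s) := by
        have h7 := congrArg (cc U) h4
        have h8 : ∀ t : ℝ, cc U (ee U (t • s) : Matrix (Fin N) (Fin N) K) = De (t • s) := by
          intro t
          rw [cc, ee]
          calc _ = (((U⁻¹ : unitaryGroup (Fin N) K) : Matrix (Fin N) (Fin N) K) * (U : Matrix (Fin N) (Fin N) K)) * De (t • s) *
                (((U⁻¹ : unitaryGroup (Fin N) K) : Matrix (Fin N) (Fin N) K) * (U : Matrix (Fin N) (Fin N) K)) := by noncomm_ring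
            _ = _ := by rw [u_inv_mul', one_mul, mul_one]
        rwa [h8, h8] at h7
      have h7 := congrFun (congrFun h6 i) i
      rw [De, De, diagonal_apply_eq, diagonal_apply_eq] at h7
      have h8 : Real.exp (((1 / ((j : ℝ) + 1)) • s) i) = Real.exp (((0 : ℝ) • s) i) := by exact_mod_cast h7
      have h9 := Real.exp_injective h8
      simpa using h9
    apply hs0
    funext i
    have h6 := h5 i
    have h7 : (1 / ((j : ℝ) + 1)) ≠ 0 := by positivity
    exact (mul_eq_zero.1 h6).resolve_left h7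

end Pool.Agent.KS6_9.SR
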